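import Pool.Agent.TH612.GS.Stm

set_option autoImplicit false

/-! The diagonal term does not depend on the order of the shifts. -/

namespace Pool.Agent.TH612.GS

open Complex Filter Topology MeasureTheory Set
open Pool.Agent.TH612.CF
open Pool.Agent.W182.KO hiding ee SS_summable
open scoped ContDiff

noncomputable section

variable {k : ℕ}

lemma tau_perm (l : Fin k → ℂ) (σ : Equiv.Perm (Fin k)) (n : ℕ) :
    tau (fun j => l (σ j)) n = tau l n := by
  unfold tau
  refine Finset.sum_nbij' (fun f => f ∘ σ.symm) (fun f => f ∘ σ) ?_ ?_ ?_ ?_ ?_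
  · intro f hf
    rw [Nat.mem_finMulAntidiag] at hf ⊢
    refine ⟨?_, hf.2⟩
    rw [← hf.1]
    exact Equiv.prod_comp σ.symm f
  · intro f hf
    rw [Nat.mem_finMulAntidiag] at hf ⊢
    refine ⟨?_, hf.2⟩
    rw [← hf.1]
    exact Equiv.prod_comp σ f
  · intro f _; ext j; simp
  · intro f _; ext j; simp
  · intro f _
    rw [← Equiv.prod_comp σ (fun j => ((f ∘ σ.symm) j : ℂ) ^ (l j))]
    simp

lemma lh_perm (a b : Fin k → ℂ) (σ ρ : Equiv.Perm (Fin k)) (p : ℕ) :
    lh (fun j => a (σ j)) (fun j => b (ρ j)) p = lh a b p := by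
  unfold lh
  congr 1
  · rw [← Equiv.prod_comp σ (fun j => ∏ l, (1 - (p : ℂ) ^ (-(1 + I * a j - I * b l))))]
    refine Finset.prod_congr rfl fun j _ => ?_
    exact Equiv.prod_comp ρ (fun l => (1 - (p : ℂ) ^ (-(1 + I * a (σ j) - I * b l))))
  · refine tsum_congr fun m => ?_
    unfold lt
    rw [tau_perm (fun j => I * b j) ρ, tau_perm (fun j => -(I * a j)) σ]

lemma zab_perm (a b : Fin k → ℂ) (σ ρ : Equiv.Perm (Fin k)) :
    zab (fun j => a (σ j)) (fun j => b (ρ j)) = zab a b := by
  unfold zab FH
  congr 1
  · exact tprod_congr fun p => lh_perm a b σ ρ p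
  · rw [← Equiv.prod_comp σ (fun j => ∏ l, riemannZeta (1 + I * a j - I * b l))]
    refine Finset.prod_congr rfl fun j _ => ?_
    exact Equiv.prod_comp ρ (fun l => riemannZeta (1 + I * a (σ j) - I * b l))

theorem t_INV : S_INV := by
  intro k γ π h
  have hSR : (SR π) = ∅ := by
    unfold SR
    rw [Finset.filter_eq_empty_iff]
    intro j _
    simp [h j]
  have hSL : (SL π) = ∅ := by
    rw [← Finset.card_eq_zero, card_SL_SR, hSR, Finset.card_empty]
  have hr : ∀ j, (π (Sum.inl j)).isRight = false := by
    intro j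
    by_contra hc
    have : j ∈ SL π := by
      unfold SL
      simp only [Finset.mem_filter, Finset.mem_univ, true_and]
      simpa using hc
    rw [hSL] at this
    simp at this
  have hl : ∀ j, ∃ i, π (Sum.inl j) = Sum.inl i := by
    intro j
    have := hr j
    rcases hh : π (Sum.inl j) with i | i
    · exact ⟨i, rfl⟩
    · rw [hh] at this; simp at this
  have hrr : ∀ j, ∃ i, π (Sum.inr j) = Sum.inr i := by
    intro j
    have := h j
    rcases hh : π (Sum.inr j) with i | i
    · rw [hh] at this; simp at this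
    · exact ⟨i, rfl⟩
  choose f hf using hl
  choose g hg using hrr
  have fi : Function.Injective f := by
    intro x y hxy
    have : π (Sum.inl x) = π (Sum.inl y) := by rw [hf, hf, hxy]
    simpa using π.injective this
  have gi : Function.Injective g := by
    intro x y hxy
    have : π (Sum.inr x) = π (Sum.inr y) := by rw [hg, hg, hxy]
    simpa using π.injective this
  let σ : Equiv.Perm (Fin k) := Equiv.ofBijective f (Finite.injective_iff_bijective.mp fi)
  let ρ : Equiv.Perm (Fin k) := Equiv.ofBijective g (Finite.injective_iff_bijective.mp gi)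
  constructor
  · have e1 : (fun j => (γ (π (Sum.inl j)) : ℂ)) = fun j => (fun i => (γ (Sum.inl i) : ℂ)) (σ j) := by
      funext j
      simp only [hf]
      rfl
    have e2 : (fun j => (γ (π (Sum.inr j)) : ℂ)) = fun j => (fun i => (γ (Sum.inr i) : ℂ)) (ρ j) := by
      funext j
      simp only [hg]
      rfl
    rw [e1, e2]
    exact zab_perm (fun i => (γ (Sum.inl i) : ℂ)) (fun i => (γ (Sum.inr i) : ℂ)) σ ρ
  · intro t
    unfold GG
    rw [Finset.prod_eq_one, Finset.prod_eq_one, one_mul]
    · intro j _
      rw [if_neg]; simp [h j]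
    · intro j _
      rw [if_neg]; simp [hr j]

end

end Pool.Agent.TH612.GS
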