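import Pool.Agent.TH612.GS.Asm6
import Pool.Agent.TH612.GS.Inv
import Pool.Agent.TH928.GS.MV
import Pool.Agent.TH503.GS.MVD
import Pool.Agent.TH264.GS.AP
import Pool.Agent.TH889.GS.OP
import Pool.Agent.TH570.GS.SM
import Pool.Agent.TH521.GS.Rep
import Pool.Agent.TH509.GS.DIAG
import Pool.Agent.TH448.GS.FL2
import Pool.Agent.TH367.GS.SS
import Pool.Agent.TH757.GS.CONT
import Pool.Agent.TH753.GS.GL2
import Pool.Agent.TH811.GS.One
import Pool.Agent.TH228.GS.ZM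
import Pool.Agent.TH406.GS.CHI
import Pool.Agent.TH805.GS.SW
import Pool.Agent.TH347.GS.A4
import Pool.Agent.TH767.GS.NS

set_option autoImplicit false

/-! All parts together. -/

namespace Pool.Agent.TH612.GS

open MeasureTheory

theorem all_main (k : ℕ) : ∃ δ : ℝ, 0 < δ ∧ ∃ T₀ : ℝ, ∀ T : ℝ, T₀ ≤ T →
    mP (Fin k ⊕ Fin k) T (Bad k T (T ^ (1 - δ))) ≤ ENNReal.ofReal (T ^ (2 * k - δ : ℝ)) := by
  have hMV := Pool.Agent.TH928.GS.t_MV
  have hMVD := Pool.Agent.TH503.GS.t_MVD hMV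
  have hSP := Pool.Agent.TH503.GS.t_SP hMV
  have hAP := Pool.Agent.TH264.GS.t_AP
  have hOP := Pool.Agent.TH889.GS.t_OP hMV hMVD hAP
  have hSM := Pool.Agent.TH570.GS.t_SM
  have hREP := Pool.Agent.TH521.GS.t_REP
  have hREP2 := Pool.Agent.TH521.GS.t_REP2
  have hD := Pool.Agent.TH509.GS.t_DIAG
  have hFL := Pool.Agent.TH448.GS.t_FL2
  have hSS := Pool.Agent.TH367.GS.t_SS hFL
  have hC := Pool.Agent.TH757.GS.t_CONT
  have hG := Pool.Agent.TH753.GS.t_GL2 hFL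
  have hONE := Pool.Agent.TH811.GS.t_ONE hMV
  have hZM := Pool.Agent.TH228.GS.t_ZM hONE
  have hCHI := Pool.Agent.TH406.GS.t_CHI
  have hSW := Pool.Agent.TH805.GS.t_SW hCHI
  have hA4 := Pool.Agent.TH347.GS.t_A4 hC hG
  have hNS := Pool.Agent.TH767.GS.t_NS
  exact main (t_Z1 hREP hOP hSM hSP) (t_Z2 hREP2 hSM) hSS hA4 hZM hSW hONE hNS hD t_INV k

end Pool.Agent.TH612.GS
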