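import Pool.Agent.TH612.GS.GF2

set_option autoImplicit false

/-! Project GF: the product of zeta values against the smoothed diagonal sum. -/

namespace Pool.Agent.TH612.GS

open Complex Filter Topology MeasureTheory Set
open Pool.Agent.TH612.CF
open Pool.Agent.W182.KO hiding ee SS_summable

noncomputable section

variable {k : ℕ}

lemma sq_add_le (a b : ℂ) : ‖a + b‖ ^ 2 ≤ 2 * ‖a‖ ^ 2 + 2 * ‖b‖ ^ 2 := by
  have h1 := norm_add_le a b
  have h2 : ‖a + b‖ ^ 2 ≤ (‖a‖ + ‖b‖) ^ 2 := pow_le_pow_left₀ (norm_nonneg _) h1 2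
  nlinarith [sq_nonneg (‖a‖ - ‖b‖)]

open Classical in
lemma gA_small (α : Fin k → ℝ) {ψ : ℝ → ℝ} (hψ : Cut ψ) {M m : ℕ} (hM : 2 ≤ M) (hm : 1 ≤ m)
    {S T : ℝ} (hS0 : 0 ≤ S) (hST : S ≤ T) {E : ℝ}
    (hE : ‖cI α S m - S * (tau (fun j => -(I * (α j : ℂ))) m * (m : ℂ) ^ (-(1 / 2) : ℂ))‖ ≤ E) :
    ‖gA α ψ M S m‖ ^ 2 ≤ 2 * E ^ 2 + 2 * T ^ 2 *
      (if (M : ℝ) ^ (1 / 4 : ℝ) ≤ m then ‖tau (fun j => -(I * (α j : ℂ))) m‖ ^ 2 * (m : ℝ)⁻¹ else 0) := by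
  have e1 : gA α ψ M S m = (cI α S m - S * (tau (fun j => -(I * (α j : ℂ))) m *
      (m : ℂ) ^ (-(1 / 2) : ℂ))) + S * (tau (fun j => -(I * (α j : ℂ))) m *
      (m : ℂ) ^ (-(1 / 2) : ℂ)) * ((1 - cu ψ M m : ℝ) : ℂ) := by
    unfold gA
    push_cast
    ring
  rw [e1]
  refine (sq_add_le _ _).trans (add_le_add ?_ ?_)
  · have := pow_le_pow_left₀ (norm_nonneg _) hE 2
    linarith
  · rw [mul_assoc (2:ℝ)]
    refine mul_le_mul_of_nonneg_left ?_ (by norm_num)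
    split_ifs with h
    · rw [norm_mul, norm_mul, norm_mul, mul_pow, mul_pow, mul_pow, norm_half hm]
      have h1 : ‖(S:ℂ)‖ ^ 2 ≤ T ^ 2 := by
        rw [Complex.norm_real, Real.norm_of_nonneg hS0]
        exact pow_le_pow_left₀ hS0 hST 2
      have h2 : ‖((1 - cu ψ M m : ℝ) : ℂ)‖ ^ 2 ≤ 1 := by
        rw [Complex.norm_real, Real.norm_eq_abs, sq_abs]
        have h3 := hψ.2.1 (Real.log m / (Real.log M / 2))
        have h4 : 0 ≤ cu ψ M m ∧ cu ψ M m ≤ 1 := h3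
        nlinarith
      calc ‖(S:ℂ)‖ ^ 2 * (‖tau (fun j => -(I * (α j : ℂ))) m‖ ^ 2 * (m : ℝ)⁻¹) *
            ‖((1 - cu ψ M m : ℝ) : ℂ)‖ ^ 2
          ≤ T ^ 2 * (‖tau (fun j => -(I * (α j : ℂ))) m‖ ^ 2 * (m : ℝ)⁻¹) * 1 := by gcongr
        _ = _ := mul_one _
    · rw [not_le] at h
      rw [cu_one hψ hM hm h]
      simp

open Classical in
/-- the sum of the squares of the coefficients -/
lemma E2_sum {α : Fin k → ℝ} {ψ : ℝ → ℝ} (hψ : Cut ψ) {CL CW CH T S : ℝ} {M X : ℕ}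
    (hT : 1 ≤ T) (hS0 : 0 ≤ S) (hST : S ≤ T) (hM : 2 ≤ M) (hMT : (M : ℝ) ≤ T ^ (1 / 2 : ℝ))
    (hL : ∑ n ∈ (bx k X).filter (fun n => T ^ (7 / 8 : ℝ) < ((∏ l, n l : ℕ) : ℝ)),
      ((∏ l, n l : ℕ) : ℝ)⁻¹ * ‖cI α S (∏ l, n l)‖ ^ 2 ≤ CL * T ^ (19 / 10 : ℝ))
    (hW : ∀ m : ℕ, 1 ≤ m → (m : ℝ) ≤ T ^ (7 / 8 : ℝ) →
      ‖cI α S m - S * (tau (fun j => -(I * (α j : ℂ))) m * (m : ℂ) ^ (-(1 / 2) : ℂ))‖ ≤
        CW * T ^ (9 / 10 : ℝ))
    (hH : ∀ W : ℝ, 1 ≤ W → ∑ n ∈ (bx k X).filter (fun n => W ≤ ((∏ l, n l : ℕ) : ℝ)),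
      ((∏ l, n l : ℕ) : ℝ)⁻¹ * (‖tau (fun j => -(I * (α j : ℂ))) (∏ l, n l)‖ ^ 2 *
        ((∏ l, n l : ℕ) : ℝ)⁻¹) ≤ CH * W ^ (-(4 / 5) : ℝ)) :
    ∑ n ∈ bx k X, ‖((∏ l, n l : ℕ) : ℂ) ^ (-(1 / 2) : ℂ) * gA α ψ M S (∏ l, n l)‖ ^ 2 ≤
      CL * T ^ (19 / 10 : ℝ) + 2 * (CW * T ^ (9 / 10 : ℝ)) ^ 2 * (1 + Real.log X) ^ k +
        2 * T ^ 2 * (CH * ((M : ℝ) ^ (1 / 4 : ℝ)) ^ (-(4 / 5) : ℝ)) := by
  have hT0 : 0 < T := by linarith
  have hM1 : (1:ℝ) ≤ M := by exact_mod_cast (by omega : 1 ≤ M)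
  have e1 : ∀ n ∈ bx k X, ‖((∏ l, n l : ℕ) : ℂ) ^ (-(1 / 2) : ℂ) * gA α ψ M S (∏ l, n l)‖ ^ 2 =
      ((∏ l, n l : ℕ) : ℝ)⁻¹ * ‖gA α ψ M S (∏ l, n l)‖ ^ 2 := by
    intro n hn
    rw [norm_mul, mul_pow, norm_half (bx_prod hn)]
  rw [Finset.sum_congr rfl e1, ← Finset.sum_filter_add_sum_filter_not (bx k X)
    (fun n => T ^ (7 / 8 : ℝ) < ((∏ l, n l : ℕ) : ℝ)), add_assoc]
  refine add_le_add ?_ ?_
  · refine le_trans (le_of_eq (Finset.sum_congr rfl fun n hn => ?_)) hL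
    have h1 := (Finset.mem_filter.1 hn).2
    have h2 : M ≤ ∏ l, n l := by
      have h3 : (M:ℝ) ≤ ((∏ l, n l : ℕ) : ℝ) := by
        refine hMT.trans (le_trans ?_ h1.le)
        exact Real.rpow_le_rpow_of_exponent_le hT (by norm_num)
      exact_mod_cast h3
    unfold gA
    rw [cu_zero hψ hM h2]
    simp
  · have h1 : ∀ n ∈ (bx k X).filter (fun n => ¬ T ^ (7 / 8 : ℝ) < ((∏ l, n l : ℕ) : ℝ)),
        ((∏ l, n l : ℕ) : ℝ)⁻¹ * ‖gA α ψ M S (∏ l, n l)‖ ^ 2 ≤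
        2 * (CW * T ^ (9 / 10 : ℝ)) ^ 2 * ((∏ l, n l : ℕ) : ℝ)⁻¹ + 2 * T ^ 2 *
          (if (M : ℝ) ^ (1 / 4 : ℝ) ≤ ((∏ l, n l : ℕ) : ℝ) then
            ((∏ l, n l : ℕ) : ℝ)⁻¹ * (‖tau (fun j => -(I * (α j : ℂ))) (∏ l, n l)‖ ^ 2 *
              ((∏ l, n l : ℕ) : ℝ)⁻¹) else 0) := by
      intro n hn
      obtain ⟨hn1, hn2⟩ := Finset.mem_filter.1 hn
      rw [not_lt] at hn2
      have h2 := gA_small α hψ hM (bx_prod hn1) hS0 hST (hW _ (bx_prod hn1) hn2)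
      have h3 : 0 ≤ ((∏ l, n l : ℕ) : ℝ)⁻¹ := by positivity
      refine (mul_le_mul_of_nonneg_left h2 h3).trans (le_of_eq ?_)
      split_ifs <;> ring
    refine (Finset.sum_le_sum h1).trans ?_
    refine (Finset.sum_le_sum_of_subset_of_nonneg (Finset.filter_subset _ _) fun n _ _ => ?_).trans ?_
    · positivity
    · rw [Finset.sum_add_distrib, ← Finset.mul_sum, ← Finset.mul_sum]
      refine add_le_add ?_ ?_
      · exact mul_le_mul_of_nonneg_left (sum_inv_box k X) (by positivity)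
      · refine mul_le_mul_of_nonneg_left ?_ (by positivity)
        rw [← Finset.sum_filter]
        exact hH _ (Real.one_le_rpow hM1 (by norm_num))

lemma E2_cont {ψ : ℝ → ℝ} (hψ : Cut ψ) (α : Fin k → ℝ) {M X : ℕ} (hM : 2 ≤ M) (hMX : M ≤ X)
    (S : ℝ) : Continuous fun β : Fin k → ℝ =>
      (∫ t in (0:ℝ)..S, AA α t * ∏ l, (starRingEnd ℂ) (PN X (t + β l))) - S * SP ψ M (gab α β) := by
  simp only [E2_expand hψ α _ hM hMX]
  refine continuous_finsetSum _ fun n hn => continuous_const.mul ?_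
  refine continuous_finsetProd _ fun l _ => ?_
  have hn1 : 1 ≤ n l := bx_pos hn l
  have hn0 : (n l : ℂ) ≠ 0 := by exact_mod_cast (by omega : n l ≠ 0)
  exact Continuous.const_cpow (by fun_prop) (Or.inl hn0)

lemma E1_bd (hREPA : S_REPA) (hOQ : S_OQ) (hSM : S_SM) (hVQ : S_VQ) (hA2 : S_A2) (α : Fin k → ℝ)
    (hk : k ≤ 4) : ∃ C T₀ : ℝ, 0 < C ∧ 4 ≤ T₀ ∧ ∀ (T S : ℝ) (X : ℕ), T₀ ≤ T → 0 ≤ S → S ≤ T →
      2 * T ≤ X → (X : ℝ) ≤ 4 * T →
      ∫⁻ β, ENNReal.ofReal (‖∫ t in (0:ℝ)..S, AA α t * (∏ l, (starRingEnd ℂ) (z (t + β l)) -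
        ∏ l, (starRingEnd ℂ) (PN X (t + β l)))‖ ^ 2) ∂(mP (Fin k) T) ≤
      ENNReal.ofReal (C * (T ^ (k + 2) * T ^ (-(1 / 20) : ℝ))) := by
  rcases Nat.eq_zero_or_pos k with hk0 | hk0
  · subst hk0
    refine ⟨1, 4, by norm_num, le_rfl, fun T S X _ _ _ _ _ => ?_⟩
    simp
  obtain ⟨C1, T1, hC1, hT1, h1⟩ := hOQ
  obtain ⟨C2, T2, hC2, hT2, h2⟩ := hSM
  obtain ⟨C3, T3, hC3, hT3, h3⟩ := hVQ
  obtain ⟨C4, T4, hC4, hT4, h4⟩ := hA2 k α hk
  obtain ⟨TL, hTL⟩ := eventually_atTop.1 (log_ev 1 5 (show (0:ℝ) < 1 / 5 by norm_num))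
  refine ⟨4 ^ k * C1 * (C2 + C3) ^ (k - 1) * C4, max 4 (max TL (max T1 (max T2 (max T3 T4)))),
    by positivity, le_max_left _ _, fun T S X hT hS0 hST hX1 hX2 => ?_⟩
  have hT4' : 4 ≤ T := (le_max_left _ _).trans hT
  have ha := (le_max_right _ _).trans hT
  have hTTL : TL ≤ T := (le_max_left _ _).trans ha
  have hb := (le_max_right _ _).trans ha
  have hTT1 : T1 ≤ T := (le_max_left _ _).trans hb
  have hc := (le_max_right _ _).trans hb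
  have hTT2 : T2 ≤ T := (le_max_left _ _).trans hc
  have hd := (le_max_right _ _).trans hc
  have hTT3 : T3 ≤ T := (le_max_left _ _).trans hd
  have hTT4 : T4 ≤ T := (le_max_right _ _).trans hd
  have hT0 : 0 < T := by linarith
  have hlog : 1 ≤ Real.log T := by
    rw [Real.le_log_iff_exp_le hT0]
    exact (Real.exp_one_lt_d9.le.trans (by norm_num)).trans hT4'
  have hlog5 := hTL T hTTL
  rw [one_mul] at hlog5
  have hXN : 1 ≤ X := by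
    have : (1:ℝ) ≤ X := by linarith
    exact_mod_cast this
  set K : ℝ := C1 * (T * Real.log T ^ 2) with hK
  set V : ℝ := (C2 + C3) * T * Real.log T with hV
  set Q : ℝ := C4 * T ^ (7 / 4 : ℝ) with hQ
  have hK0 : 0 ≤ K := by positivity
  have hV0 : 0 ≤ V := by positivity
  have hQ0 : 0 ≤ Q := by positivity
  have hAQ : ∫ t in (0:ℝ)..S, ‖AA α t‖ ^ 2 ≤ Q := by
    refine le_trans ?_ (h4 T hTT4)
    have hc' : Continuous fun t : ℝ => ‖AA α t‖ ^ 2 := (AA_cont α).norm.pow 2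
    refine intervalIntegral.integral_mono_interval le_rfl hS0 hST ?_ (hc'.intervalIntegrable _ _)
    exact Eventually.of_forall fun u => by positivity
  have key := hREPA (Fin k) (AA α) (fun _ u => (starRingEnd ℂ) (z u))
    (fun _ u => (starRingEnd ℂ) (PN X u)) T S K V Q hS0 hST hK0 hV0 hQ0 (AA_cont α)
    (fun _ => Complex.continuous_conj.comp z_cont)
    (fun _ => Complex.continuous_conj.comp (PN_cont X)) ?_ ?_ ?_ hAQ
  · refine key.trans (ENNReal.ofReal_le_ofReal ?_)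
    rw [Fintype.card_fin]
    obtain ⟨m, hm⟩ : ∃ m, k = m + 1 := ⟨k - 1, by omega⟩
    rw [hm, Nat.add_sub_cancel, hV, hK, hQ, mul_pow, mul_pow]
    have hm4 : m + 2 ≤ 5 := by omega
    have e5 : Real.log T ^ (m + 2) ≤ T ^ (1 / 5 : ℝ) :=
      (pow_le_pow_right₀ hlog hm4).trans hlog5
    have e6 : T ^ (7 / 4 : ℝ) * T ^ (1 / 5 : ℝ) = T ^ (2:ℕ) * T ^ (-(1 / 20) : ℝ) := by
      rw [← Real.rpow_natCast, ← Real.rpow_add hT0, ← Real.rpow_add hT0]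
      norm_num
    calc (4:ℝ) ^ (m + 1) * (C1 * (T * Real.log T ^ 2)) * ((C2 + C3) ^ m * T ^ m * Real.log T ^ m) *
          (C4 * T ^ (7 / 4 : ℝ))
        = 4 ^ (m + 1) * C1 * (C2 + C3) ^ m * C4 * (T ^ (m + 1) * (T ^ (7 / 4 : ℝ) *
            Real.log T ^ (m + 2))) := by ring
      _ ≤ 4 ^ (m + 1) * C1 * (C2 + C3) ^ m * C4 * (T ^ (m + 1) * (T ^ (7 / 4 : ℝ) *
            T ^ (1 / 5 : ℝ))) := by gcongr
      _ = _ := by rw [e6]; ring
  · intro i R hR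
    have := h1 T S X (fun t => (starRingEnd ℂ) (R t)) hTT1 hS0 hST hX1 hX2
      (Complex.continuous_conj.comp hR)
    simp only [Complex.norm_conj] at this
    refine le_trans (le_of_eq ?_) this
    refine intervalIntegral.integral_congr fun y _ => ?_
    have e3 : (∫ t in (0:ℝ)..S, ((starRingEnd ℂ) (z (t + y)) - (starRingEnd ℂ) (PN X (t + y))) * R t) =
        (starRingEnd ℂ) (∫ t in (0:ℝ)..S, (z (t + y) - PN X (t + y)) * (starRingEnd ℂ) (R t)) := by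
      rw [← int_conj]
      refine intervalIntegral.integral_congr fun t _ => ?_
      simp only [map_mul, map_sub, Complex.conj_conj]
    change ‖_‖ ^ 2 = ‖_‖ ^ 2
    rw [e3, Complex.norm_conj]
  · intro i t ht
    simp only [Complex.norm_conj]
    refine (shift_le z_cont ht.1 (ht.2.trans hST)).trans ((h2 T hTT2).trans ?_)
    rw [hV]
    gcongr
    linarith
  · intro i t ht
    simp only [Complex.norm_conj]
    refine (shift_le (PN_cont X) ht.1 (ht.2.trans hST)).trans ((h3 T X hTT3 hXN hX2).trans ?_)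
    rw [hV]
    gcongr
    linarith

theorem t_W (hREPA : S_REPA) (hOQ : S_OQ) (hSM : S_SM) (hVQ : S_VQ) (hA2 : S_A2) (hTMV : S_TMV)
    (hTL : S_TL) (hTW : S_TW) (hHD : S_HD) : S_W := by
  classical
  intro k α ψ hk hψ
  obtain ⟨C1, T1, hC1, hT1, h1⟩ := E1_bd hREPA hOQ hSM hVQ hA2 α hk
  obtain ⟨C2, hC2, h2⟩ := hTMV k
  obtain ⟨C3, T3, hC3, hT3, h3⟩ := hTL k α hk
  obtain ⟨C4, T4, hC4, hT4, h4⟩ := hTW k α hk
  obtain ⟨C5, hC5, h5⟩ := hHD k α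
  obtain ⟨TL, hTL'⟩ := eventually_atTop.1 (log_ev 1 4 (show (0:ℝ) < 1 / 10 by norm_num))
  set D : ℝ := C3 + 2 * C4 ^ 2 * 81 + 2 * C5 with hD
  have hD0 : 0 < D := by positivity
  refine ⟨2 * C1 + 2 * (C2 * D), max T1 (max TL (max T3 (max T4 4))), by positivity,
    hT1.trans (le_max_left _ _), fun T S M hT hS0 hST hM hMT => ?_⟩
  have hTT1 : T1 ≤ T := (le_max_left _ _).trans hT
  have ha := (le_max_right _ _).trans hT
  have hTTL : TL ≤ T := (le_max_left _ _).trans ha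
  have hb := (le_max_right _ _).trans ha
  have hTT3 : T3 ≤ T := (le_max_left _ _).trans hb
  have hc := (le_max_right _ _).trans hb
  have hTT4 : T4 ≤ T := (le_max_left _ _).trans hc
  have hT4' : 4 ≤ T := (le_max_right _ _).trans hc
  have hT0 : 0 < T := by linarith
  have hT1' : 1 ≤ T := by linarith
  have hlog : 1 ≤ Real.log T := by
    rw [Real.le_log_iff_exp_le hT0]
    exact (Real.exp_one_lt_d9.le.trans (by norm_num)).trans hT4'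
  have hlog4 := hTL' T hTTL
  rw [one_mul] at hlog4
  set X : ℕ := ⌈2 * T⌉₊ with hX
  have hX1 : 2 * T ≤ X := Nat.le_ceil _
  have hX2 : (X : ℝ) ≤ 4 * T := by
    have := Nat.ceil_lt_add_one (show 0 ≤ 2 * T by linarith)
    linarith
  have hX0 : (0:ℝ) < X := by linarith
  have hMX : M ≤ X := by
    have h6 : T ^ (1 / 2 : ℝ) ≤ T := by
      calc T ^ (1 / 2 : ℝ) ≤ T ^ (1:ℝ) := Real.rpow_le_rpow_of_exponent_le hT1' (by norm_num)
        _ = T := Real.rpow_one T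
    have : (M:ℝ) ≤ X := by linarith
    exact_mod_cast this
  have hM1 : (1:ℝ) ≤ M := by exact_mod_cast (by omega : 1 ≤ M)
  -- the second part
  have e2 : ∫⁻ β, ENNReal.ofReal (‖(∫ t in (0:ℝ)..S, AA α t * ∏ l, (starRingEnd ℂ) (PN X (t + β l))) -
      S * SP ψ M (gab α β)‖ ^ 2) ∂(mP (Fin k) T) ≤
      ENNReal.ofReal (C2 * D * (T ^ (k + 2) * (T ^ (-(1 / 20) : ℝ) + (M:ℝ) ^ (-(1 / 8) : ℝ)))) := by
    simp only [E2_expand hψ α _ hM hMX]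
    refine (h2 T X (fun n => ((∏ l, n l : ℕ) : ℂ) ^ (-(1 / 2) : ℂ) * gA α ψ M S (∏ l, n l))
      hT4' hX2).trans (ENNReal.ofReal_le_ofReal ?_)
    have h7 := E2_sum (k := k) (α := α) hψ (CL := C3) (CW := C4) (CH := C5) (X := X) hT1' hS0 hST hM hMT
      (h3 T S X hTT3 hS0 hST hX2) (fun m hm1 hm2 => h4 T S m hTT4 hS0 hST hm1 hm2)
      (fun W hW => h5 X W hW)
    have e7 : T ^ (19 / 10 : ℝ) ≤ T ^ 2 * T ^ (-(1 / 20) : ℝ) := by
      rw [← Real.rpow_natCast, ← Real.rpow_add hT0]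
      exact Real.rpow_le_rpow_of_exponent_le hT1' (by norm_num)
    have e8 : (C4 * T ^ (9 / 10 : ℝ)) ^ 2 * (1 + Real.log X) ^ k ≤
        C4 ^ 2 * 81 * (T ^ 2 * T ^ (-(1 / 20) : ℝ)) := by
      have f1 : 1 + Real.log X ≤ 3 * Real.log T := by
        have g1 : Real.log X ≤ Real.log (4 * T) := Real.log_le_log hX0 hX2
        rw [Real.log_mul (by norm_num) hT0.ne'] at g1
        have g2 : Real.log 4 ≤ Real.log T := Real.log_le_log (by norm_num) hT4'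
        linarith
      have f2 : 0 ≤ 1 + Real.log X := by
        have : 0 ≤ Real.log X := Real.log_nonneg (by linarith)
        linarith
      have f3 : (1 + Real.log X) ^ k ≤ 81 * Real.log T ^ 4 := by
        calc (1 + Real.log X) ^ k ≤ (3 * Real.log T) ^ k := pow_le_pow_left₀ f2 f1 k
          _ ≤ (3 * Real.log T) ^ 4 := pow_le_pow_right₀ (by linarith) hk
          _ = 81 * Real.log T ^ 4 := by ring
      have f4 : (T ^ (9 / 10 : ℝ)) ^ 2 * T ^ (1 / 10 : ℝ) ≤ T ^ 2 * T ^ (-(1 / 20) : ℝ) := by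
        refine le_trans (le_of_eq ?_) e7
        rw [← Real.rpow_natCast, ← Real.rpow_mul hT0.le, ← Real.rpow_add hT0]
        norm_num
      calc (C4 * T ^ (9 / 10 : ℝ)) ^ 2 * (1 + Real.log X) ^ k
          ≤ (C4 * T ^ (9 / 10 : ℝ)) ^ 2 * (81 * T ^ (1 / 10 : ℝ)) := by
            gcongr
            exact f3.trans (by gcongr)
        _ = C4 ^ 2 * 81 * ((T ^ (9 / 10 : ℝ)) ^ 2 * T ^ (1 / 10 : ℝ)) := by ring
        _ ≤ _ := by gcongr
    have e9 : ((M : ℝ) ^ (1 / 4 : ℝ)) ^ (-(4 / 5) : ℝ) ≤ (M:ℝ) ^ (-(1 / 8) : ℝ) := by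
      rw [← Real.rpow_mul (by linarith)]
      exact Real.rpow_le_rpow_of_exponent_le hM1 (by norm_num)
    have e10 : 0 ≤ (M:ℝ) ^ (-(1 / 8) : ℝ) := by positivity
    have e11 : 0 ≤ T ^ 2 * T ^ (-(1 / 20) : ℝ) := by positivity
    calc C2 * T ^ k * _ ≤ C2 * T ^ k * (C3 * T ^ (19 / 10 : ℝ) +
          2 * (C4 * T ^ (9 / 10 : ℝ)) ^ 2 * (1 + Real.log X) ^ k +
          2 * T ^ 2 * (C5 * ((M : ℝ) ^ (1 / 4 : ℝ)) ^ (-(4 / 5) : ℝ))) := by
          exact mul_le_mul_of_nonneg_left h7 (by positivity)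
      _ = C2 * T ^ k * (C3 * T ^ (19 / 10 : ℝ) +
          2 * ((C4 * T ^ (9 / 10 : ℝ)) ^ 2 * (1 + Real.log X) ^ k) +
          2 * T ^ 2 * (C5 * ((M : ℝ) ^ (1 / 4 : ℝ)) ^ (-(4 / 5) : ℝ))) := by ring
      _ ≤ C2 * T ^ k * (C3 * (T ^ 2 * T ^ (-(1 / 20) : ℝ)) +
          2 * (C4 ^ 2 * 81 * (T ^ 2 * T ^ (-(1 / 20) : ℝ))) +
          2 * T ^ 2 * (C5 * (M:ℝ) ^ (-(1 / 8) : ℝ))) := by
          gcongr
      _ ≤ C2 * T ^ k * (D * (T ^ 2 * T ^ (-(1 / 20) : ℝ)) + D * (T ^ 2 * (M:ℝ) ^ (-(1 / 8) : ℝ))) := by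
          refine mul_le_mul_of_nonneg_left ?_ (by positivity)
          have g1 : C3 * (T ^ 2 * T ^ (-(1 / 20) : ℝ)) + 2 * (C4 ^ 2 * 81 * (T ^ 2 * T ^ (-(1 / 20) : ℝ))) ≤
              D * (T ^ 2 * T ^ (-(1 / 20) : ℝ)) := by
            have : C3 + 2 * C4 ^ 2 * 81 ≤ D := by rw [hD]; linarith
            nlinarith
          have g2 : 2 * T ^ 2 * (C5 * (M:ℝ) ^ (-(1 / 8) : ℝ)) ≤ D * (T ^ 2 * (M:ℝ) ^ (-(1 / 8) : ℝ)) := by
            have : 2 * C5 ≤ D := by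
              rw [hD]
              have : 0 ≤ 2 * C4 ^ 2 * 81 := by positivity
              linarith
            have g3 : 0 ≤ T ^ 2 * (M:ℝ) ^ (-(1 / 8) : ℝ) := by positivity
            nlinarith
          linarith
      _ = _ := by rw [pow_add]; ring
  -- the first part
  have e1 := h1 T S X hTT1 hS0 hST hX1 hX2
  have hsum : ∀ β : Fin k → ℝ, (∫ t in (0:ℝ)..S, Zg (gab α β) t) - S * SP ψ M (gab α β) =
      (∫ t in (0:ℝ)..S, AA α t * (∏ l, (starRingEnd ℂ) (z (t + β l)) -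
        ∏ l, (starRingEnd ℂ) (PN X (t + β l)))) +
      ((∫ t in (0:ℝ)..S, AA α t * ∏ l, (starRingEnd ℂ) (PN X (t + β l))) -
        S * SP ψ M (gab α β)) := by
    intro β
    have i1 : IntervalIntegrable (fun t : ℝ => AA α t * ∏ l, (starRingEnd ℂ) (z (t + β l)))
        volume 0 S := by
      refine Continuous.intervalIntegrable ((AA_cont α).mul ?_) _ _
      exact continuous_finsetProd _ fun l _ => Complex.continuous_conj.comp (z_cont.comp (by fun_prop))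
    have i2 : IntervalIntegrable (fun t : ℝ => AA α t * ∏ l, (starRingEnd ℂ) (PN X (t + β l)))
        volume 0 S := by
      refine Continuous.intervalIntegrable ((AA_cont α).mul ?_) _ _
      exact continuous_finsetProd _ fun l _ =>
        Complex.continuous_conj.comp ((PN_cont X).comp (by fun_prop))
    simp only [mul_sub, Zg_AA]
    rw [intervalIntegral.integral_sub i1 i2]
    ring
  have hm2 : Measurable fun β : Fin k → ℝ => ENNReal.ofReal (2 * ‖(∫ t in (0:ℝ)..S, AA α t *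
      ∏ l, (starRingEnd ℂ) (PN X (t + β l))) - S * SP ψ M (gab α β)‖ ^ 2) :=
    (((E2_cont hψ α hM hMX S).norm.pow 2).const_smul (2:ℝ)).measurable.ennreal_ofReal
  calc ∫⁻ β, ENNReal.ofReal (‖(∫ t in (0:ℝ)..S, Zg (gab α β) t) - S * SP ψ M (gab α β)‖ ^ 2)
        ∂(mP (Fin k) T)
      ≤ ∫⁻ β, (ENNReal.ofReal (2 * ‖∫ t in (0:ℝ)..S, AA α t * (∏ l, (starRingEnd ℂ) (z (t + β l)) -
        ∏ l, (starRingEnd ℂ) (PN X (t + β l)))‖ ^ 2) +
        ENNReal.ofReal (2 * ‖(∫ t in (0:ℝ)..S, AA α t *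
          ∏ l, (starRingEnd ℂ) (PN X (t + β l))) - S * SP ψ M (gab α β)‖ ^ 2)) ∂(mP (Fin k) T) := by
        refine lintegral_mono fun β => ?_
        rw [← ENNReal.ofReal_add (by positivity) (by positivity), hsum β]
        exact ENNReal.ofReal_le_ofReal (sq_add_le _ _)
    _ = (∫⁻ β, ENNReal.ofReal (2 * ‖∫ t in (0:ℝ)..S, AA α t * (∏ l, (starRingEnd ℂ) (z (t + β l)) -
        ∏ l, (starRingEnd ℂ) (PN X (t + β l)))‖ ^ 2) ∂(mP (Fin k) T)) +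
        ∫⁻ β, ENNReal.ofReal (2 * ‖(∫ t in (0:ℝ)..S, AA α t *
          ∏ l, (starRingEnd ℂ) (PN X (t + β l))) - S * SP ψ M (gab α β)‖ ^ 2) ∂(mP (Fin k) T) :=
        lintegral_add_right _ hm2
    _ = 2 * (∫⁻ β, ENNReal.ofReal (‖∫ t in (0:ℝ)..S, AA α t * (∏ l, (starRingEnd ℂ) (z (t + β l)) -
        ∏ l, (starRingEnd ℂ) (PN X (t + β l)))‖ ^ 2) ∂(mP (Fin k) T)) +
        2 * ∫⁻ β, ENNReal.ofReal (‖(∫ t in (0:ℝ)..S, AA α t *
          ∏ l, (starRingEnd ℂ) (PN X (t + β l))) - S * SP ψ M (gab α β)‖ ^ 2) ∂(mP (Fin k) T) := by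
        simp only [ENNReal.ofReal_mul (show (0:ℝ) ≤ 2 by norm_num), ENNReal.ofReal_ofNat]
        rw [lintegral_const_mul' _ _ (by norm_num), lintegral_const_mul' _ _ (by norm_num)]
    _ ≤ 2 * ENNReal.ofReal (C1 * (T ^ (k + 2) * T ^ (-(1 / 20) : ℝ))) +
        2 * ENNReal.ofReal (C2 * D * (T ^ (k + 2) * (T ^ (-(1 / 20) : ℝ) + (M:ℝ) ^ (-(1 / 8) : ℝ)))) := by
        gcongr
    _ = ENNReal.ofReal (2 * (C1 * (T ^ (k + 2) * T ^ (-(1 / 20) : ℝ))) +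
        2 * (C2 * D * (T ^ (k + 2) * (T ^ (-(1 / 20) : ℝ) + (M:ℝ) ^ (-(1 / 8) : ℝ))))) := by
        rw [ENNReal.ofReal_add (by positivity) (by positivity),
          ENNReal.ofReal_mul (show (0:ℝ) ≤ 2 by norm_num),
          ENNReal.ofReal_mul (show (0:ℝ) ≤ 2 by norm_num), ENNReal.ofReal_ofNat]
    _ ≤ _ := by
        refine ENNReal.ofReal_le_ofReal ?_
        have g1 : 0 ≤ (M:ℝ) ^ (-(1 / 8) : ℝ) := by positivity
        have g2 : 0 ≤ T ^ (k + 2) * (M:ℝ) ^ (-(1 / 8) : ℝ) := by positivity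
        have g3 : 0 ≤ C1 * (T ^ (k + 2) * (M:ℝ) ^ (-(1 / 8) : ℝ)) := by positivity
        nlinarith

end

end Pool.Agent.TH612.GS
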