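import Pool.Agent.TH612.GS.GF1

set_option autoImplicit false

/-! Project GF: the diagonal term alone, for every fixed `α`. -/

namespace Pool.Agent.TH612.GS

open Complex Filter Topology MeasureTheory Set
open Pool.Agent.TH612.CF
open Pool.Agent.W182.KO hiding ee SS_summable
open scoped ContDiff

noncomputable section

variable {k : ℕ}

/-- the exceptional set for the diagonal term -/
def BadD (α : Fin k → ℝ) (T S lam : ℝ) : Set (Fin k → ℝ) :=
  {β | (∀ i, 0 ≤ β i ∧ β i ≤ T) ∧ lam < ‖(∫ t in (0:ℝ)..S, Zg (gab α β) t) - S * zr (gab α β)‖}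

lemma DG_leA (ψ : ℝ → ℝ) {N : ℕ} {S T : ℝ} (hS : 0 ≤ S)
    (hST : S ≤ T) {γ : Fin k ⊕ Fin k → ℝ} :
    ‖(∫ t in (0:ℝ)..S, Zg γ t) - S * zr γ‖ ≤ ‖WA ψ N S γ‖ + T * ‖SP ψ N γ - GM N γ 0‖ +
      T * ‖GM N γ 0 - zr γ‖ := by
  have e2 : (∫ t in (0:ℝ)..S, Zg γ t) - S * zr γ =
      WA ψ N S γ + S * (SP ψ N γ - GM N γ 0) + S * (GM N γ 0 - zr γ) := by
    unfold WA; ring
  rw [e2]
  have n1 : ∀ w : ℂ, ‖(S:ℂ) * w‖ ≤ T * ‖w‖ := by
    intro w
    rw [norm_mul, Complex.norm_real, Real.norm_of_nonneg hS]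
    gcongr
  have n5 := n1 (SP ψ N γ - GM N γ 0)
  have n6 := n1 (GM N γ 0 - zr γ)
  refine (norm_add_le _ _).trans (add_le_add ?_ n6)
  exact (norm_add_le _ _).trans (add_le_add le_rfl n5)

/-- the pieces of the exceptional set -/
lemma BadD_sub (ψ : ℝ → ℝ) {θ C : ℝ} {B M₀ : ℕ} {T y : ℝ} {N J : ℕ}
    (P : Par k θ C B M₀ T y N J) (α : Fin k → ℝ) {S : ℝ} (hS0 : 0 ≤ S) (hST : S ≤ T) :
    BadD α T S (T / y ^ 2) ⊆ (SepA α T)ᶜ ∪ {β | T / y ^ 4 < ‖WA ψ N S (gab α β)‖} ∪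
      {β | 1 / y ^ 4 < ‖SP ψ N (gab α β) - GM N (gab α β) 0‖} ∪
      (SepA α T ∩ {β | 1 / y ^ 4 < ‖GM N (gab α β) 0 - zr (gab α β)‖}) := by
  intro β hβ
  by_contra hcon
  simp only [mem_union, not_or, mem_ofPred_eq, not_lt, mem_compl_iff,
    not_not, mem_inter_iff, not_and] at hcon
  obtain ⟨⟨⟨g1, g2⟩, g3⟩, g4⟩ := hcon
  obtain ⟨hcube, hS⟩ := hβ
  have hT := P.hT
  have hT0 : 0 < T := by linarith
  have hy16 := P.hy16
  have hy0 : 0 < y := by linarith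
  have h1 := DG_leA ψ (N := N) hS0 hST (γ := gab α β)
  have b3 : T * ‖SP ψ N (gab α β) - GM N (gab α β) 0‖ ≤ T / y ^ 4 := by
    calc _ ≤ T * (1 / y ^ 4) := by gcongr
      _ = _ := by ring
  have b5 : T * ‖GM N (gab α β) 0 - zr (gab α β)‖ ≤ T / y ^ 4 := by
    have := g4 g1
    calc _ ≤ T * (1 / y ^ 4) := by gcongr
      _ = _ := by ring
  have k5 : 4 * (T / y ^ 4) ≤ T / y ^ 2 := by
    have : T / y ^ 2 = (T / y ^ 4) * y ^ 2 := by field_simp
    rw [this, mul_comm]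
    gcongr
    nlinarith
  have k6 : 0 ≤ T / y ^ 4 := by positivity
  linarith

theorem mainD (hW : S_W) (hA5 : S_A5) (hZN : S_ZN) (hNA : S_NA)
    (k : ℕ) (hk : k ≤ 4) : ∃ δ : ℝ, 0 < δ ∧ ∀ α : Fin k → ℝ,
      ∃ T₀ : ℝ, ∀ T : ℝ, T₀ ≤ T → ∀ S : ℝ, 0 ≤ S → S ≤ T →
      mP (Fin k) T (BadD α T S (T ^ (1 - δ))) ≤ ENNReal.ofReal (T ^ (k - δ : ℝ)) := by
  classical
  obtain ⟨θ, hθ, hpar⟩ := params k
  refine ⟨2 * θ, by positivity, fun α => ?_⟩
  obtain ⟨ψ, hψ⟩ := exists_cut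
  obtain ⟨C1, T1, hC1, hT1, h1⟩ := hW k α ψ hk hψ
  obtain ⟨C4, M0, hC4, hM0, h4⟩ := hA5 k α ψ hψ
  obtain ⟨C5, T5, B5, hC5, hT5, h5⟩ := hZN k α
  obtain ⟨C8, T8, hC8, hT8, h8⟩ := hNA k α
  set Ct : ℝ := C1 + C4 + C5 + C8 with hCt
  set Bt : ℕ := B5 with hBt
  obtain ⟨T0, hT0⟩ := hpar Ct Bt M0
  refine ⟨max T0 (max T1 (max T5 (max T8 4))), fun T hT S hS0 hST => ?_⟩
  obtain ⟨y, N, J, P⟩ := hT0 T ((le_max_left _ _).trans hT)
  have hT' := (le_max_right _ _).trans hT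
  have hTT1 : T1 ≤ T := (le_max_left _ _).trans hT'
  have hT'' := (le_max_right _ _).trans hT'
  have hTT5 : T5 ≤ T := (le_max_left _ _).trans hT''
  have hT3 := (le_max_right _ _).trans hT''
  have hTT8 : T8 ≤ T := (le_max_left _ _).trans hT3
  have hTT4 : 4 ≤ T := (le_max_right _ _).trans hT3
  have hTge := P.hT
  have hTp : 0 < T := by linarith
  have hL := P.hlog
  have hy16 := P.hy16
  have hy0 : 0 < y := by linarith
  have hy1 : 1 ≤ y := by linarith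
  have hN1 : 1 ≤ N := by have := P.hN2; omega
  have hN0 : (0:ℝ) < N := by exact_mod_cast (by omega : 0 < N)
  have cst : ∀ (c : ℝ) (b : ℕ), 0 ≤ c → c ≤ Ct → b ≤ Bt → c * Real.log T ^ b ≤ y := by
    intro c b hc0 hc hb
    refine le_trans ?_ P.hC
    have : Real.log T ^ b ≤ Real.log T ^ Bt := pow_le_pow_right₀ hL hb
    gcongr
  have c1 : C1 ≤ y := by simpa using cst C1 0 hC1.le (by rw [hCt]; linarith) (by omega)
  have c4 : C4 ≤ y := by simpa using cst C4 0 hC4.le (by rw [hCt]; linarith) (by omega)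
  have c5 : C5 * Real.log T ^ B5 ≤ y := cst C5 _ hC5.le (by rw [hCt]; linarith) (by omega)
  have c8 : C8 ≤ y := by simpa using cst C8 0 hC8.le (by rw [hCt]; linarith) (by omega)
  have hyT : y ^ 40 ≤ T := by
    refine P.hyT.trans ?_
    calc T ^ (1 / 2 : ℝ) ≤ T ^ (1:ℝ) := Real.rpow_le_rpow_of_exponent_le (by linarith) (by norm_num)
      _ = T := Real.rpow_one T
  set b : ℝ := T ^ k / y ^ 3 with hb
  have hTk : 0 < T ^ k := by positivity
  have hb0 : 0 < b := by positivity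
  have hNinv : 1 / (N:ℝ) ≤ 2 / y ^ 320 := by
    rw [div_le_div_iff₀ hN0 (by positivity)]
    have := P.hN
    linarith
  have hy1' : ∀ n : ℕ, 1 ≤ y ^ n := fun n => one_le_pow₀ hy1
  have hyn : ∀ n : ℕ, 1 ≤ n → 16 ≤ y ^ n := fun n hn =>
    hy16.trans (le_self_pow₀ hy1 (by omega))
  -- `T ^ (-1/20)`
  have hT20 : T ^ (-(1 / 20) : ℝ) ≤ 2 / y ^ 30 := by
    have e1 : (y ^ 320 / 2 : ℝ) ≤ T ^ (1 / 2 : ℝ) := P.hN.trans P.hNT
    have e2 : (y ^ 320 / 2 : ℝ) ^ (1 / 10 : ℝ) ≤ (T ^ (1 / 2 : ℝ)) ^ (1 / 10 : ℝ) :=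
      Real.rpow_le_rpow (by positivity) e1 (by norm_num)
    have e3 : (T ^ (1 / 2 : ℝ)) ^ (1 / 10 : ℝ) = T ^ (1 / 20 : ℝ) := by
      rw [← Real.rpow_mul hTp.le]; norm_num
    have e4 : (y ^ 320 : ℝ) ^ (1 / 10 : ℝ) = y ^ 32 := by
      rw [← Real.rpow_natCast, ← Real.rpow_mul hy0.le, ← Real.rpow_natCast]
      norm_num
    have e5 : (2:ℝ) ^ (1 / 10 : ℝ) ≤ 2 := by
      calc (2:ℝ) ^ (1 / 10 : ℝ) ≤ 2 ^ (1:ℝ) :=
            Real.rpow_le_rpow_of_exponent_le (by norm_num) (by norm_num)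
        _ = 2 := Real.rpow_one 2
    rw [Real.div_rpow (by positivity) (by norm_num), e4, e3] at e2
    have e6 : y ^ 30 / 2 ≤ T ^ (1 / 20 : ℝ) := by
      refine le_trans ?_ e2
      rw [div_le_div_iff₀ (by norm_num) (by positivity)]
      calc y ^ 30 * (2:ℝ) ^ (1 / 10 : ℝ) ≤ y ^ 30 * 2 := by gcongr
        _ ≤ y ^ 32 * 2 := by
            have : y ^ 30 ≤ y ^ 32 := pow_le_pow_right₀ hy1 (by norm_num)
            linarith
    rw [Real.rpow_neg hTp.le, ← one_div, div_le_div_iff₀ (by positivity) (by positivity)]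
    linarith
  -- U1
  have u1 : mP (Fin k) T {β | T / y ^ 4 < ‖WA ψ N S (gab α β)‖} ≤ ENNReal.ofReal b := by
    refine (cheb ((((WA_cont ψ N S).comp (gab_cont α)).norm).aemeasurable) (by positivity)
      (h1 T S N hTT1 hS0 hST P.hN2 P.hNT)).trans (ENNReal.ofReal_le_ofReal ?_)
    have e := P.hN8
    have e9 : T ^ (-(1 / 20) : ℝ) + (N:ℝ) ^ (-(1 / 8) : ℝ) ≤ 4 / y ^ 30 := by
      have : 2 / y ^ 40 ≤ 2 / y ^ 30 := by
        have := pow_le_pow_right₀ hy1 (show 30 ≤ 40 by norm_num)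
        gcongr
      calc _ ≤ 2 / y ^ 30 + 2 / y ^ 30 := add_le_add hT20 (e.trans this)
        _ = _ := by ring
    calc C1 * T ^ (k + 2) * (T ^ (-(1 / 20) : ℝ) + (N:ℝ) ^ (-(1 / 8) : ℝ)) / (T / y ^ 4) ^ 2
        ≤ y * T ^ (k + 2) * (4 / y ^ 30) / (T / y ^ 4) ^ 2 := by gcongr
      _ = T ^ k / y ^ 3 * (4 / y ^ 18) := by
          rw [pow_add]; field_simp
      _ ≤ T ^ k / y ^ 3 * 1 := by
          gcongr
          rw [div_le_one (by positivity)]
          linarith [hyn 18 (by norm_num)]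
      _ = b := by rw [mul_one]
  -- U4
  have u4 : mP (Fin k) T {β | 1 / y ^ 4 < ‖SP ψ N (gab α β) - GM N (gab α β) 0‖} ≤
      ENNReal.ofReal b := by
    refine (cheb (((((SP_cont ψ N).sub (GM0_cont N)).comp (gab_cont α)).norm).aemeasurable)
      (by positivity) (h4 T N P.hM hTT4 P.hN3)).trans (ENNReal.ofReal_le_ofReal ?_)
    have e := P.hN8
    calc C4 * T ^ k * (N:ℝ) ^ (-(1 / 8) : ℝ) / (1 / y ^ 4) ^ 2
        ≤ y * T ^ k * (2 / y ^ 40) / (1 / y ^ 4) ^ 2 := by gcongr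
      _ = T ^ k / y ^ 3 * (2 / y ^ 28) := by field_simp
      _ ≤ T ^ k / y ^ 3 * 1 := by
          gcongr
          rw [div_le_one (by positivity)]
          linarith [hyn 28 (by norm_num)]
      _ = b := by rw [mul_one]
  -- U5
  have u5 : mP (Fin k) T (SepA α T ∩ {β | 1 / y ^ 4 < ‖GM N (gab α β) 0 - zr (gab α β)‖}) ≤
      ENNReal.ofReal b := by
    have hm : AEMeasurable (fun β : Fin k → ℝ => ‖GM N (gab α β) 0 - zr (gab α β)‖)
        ((mP (Fin k) T).restrict (SepA α T)) :=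
      (((((GM0_cont N).comp (gab_cont α)).continuousOn).sub
        (zrA_cont α (by linarith))).norm).aemeasurable (SepA_meas α T)
    have hcb := cheb hm (lam := 1 / y ^ 4) (by positivity) (h5 T N hTT5 hN1 P.hNT)
    have e0 : mP (Fin k) T (SepA α T ∩ {β | 1 / y ^ 4 < ‖GM N (gab α β) 0 - zr (gab α β)‖}) ≤
        ((mP (Fin k) T).restrict (SepA α T))
          {β | 1 / y ^ 4 < ‖GM N (gab α β) 0 - zr (gab α β)‖} := by
      rw [inter_comm]
      exact Measure.le_restrict_apply _ _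
    refine e0.trans (hcb.trans (ENNReal.ofReal_le_ofReal ?_))
    calc C5 * Real.log T ^ B5 * T ^ k / N / (1 / y ^ 4) ^ 2
        = (C5 * Real.log T ^ B5) * T ^ k * (1 / N) / (1 / y ^ 4) ^ 2 := by ring
      _ ≤ y * T ^ k * (2 / y ^ 320) / (1 / y ^ 4) ^ 2 := by gcongr
      _ = T ^ k / y ^ 3 * (2 / y ^ 308) := by field_simp
      _ ≤ T ^ k / y ^ 3 * 1 := by
          gcongr
          rw [div_le_one (by positivity)]
          linarith [hyn 308 (by norm_num)]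
      _ = b := by rw [mul_one]
  -- U8
  have u8 : mP (Fin k) T (SepA α T)ᶜ ≤ ENNReal.ofReal b := by
    refine (h8 T hTT8).trans (ENNReal.ofReal_le_ofReal ?_)
    have e : T ^ (k - 1 / 2 : ℝ) = T ^ k / T ^ (1 / 2 : ℝ) := by
      rw [Real.rpow_sub hTp, Real.rpow_natCast]
    rw [e]
    have hyT2 := P.hyT
    calc C8 * (T ^ k / T ^ (1 / 2 : ℝ)) ≤ y * (T ^ k / y ^ 40) := by gcongr
      _ = T ^ k / y ^ 3 * (1 / y ^ 36) := by field_simp
      _ ≤ T ^ k / y ^ 3 * 1 := by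
          gcongr
          rw [div_le_one (by positivity)]
          exact hy1' 36
      _ = b := by rw [mul_one]
  have e2' : T ^ (k - 2 * θ : ℝ) = T ^ k / y ^ 2 := by
    have e3 : y ^ 2 = T ^ (2 * θ) := by
      rw [P.hy, ← Real.rpow_natCast, ← Real.rpow_mul hTp.le]
      congr 1
      push_cast; ring
    rw [Real.rpow_sub hTp, Real.rpow_natCast, e3]
  -- conclusion
  rw [P.e1, e2']
  refine (measure_mono (BadD_sub ψ P α hS0 hST)).trans ?_
  have step : ∀ {A B : Set (Fin k → ℝ)} {x z : ℝ}, 0 ≤ x → 0 ≤ z →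
      mP (Fin k) T A ≤ ENNReal.ofReal x → mP (Fin k) T B ≤ ENNReal.ofReal z →
      mP (Fin k) T (A ∪ B) ≤ ENNReal.ofReal (x + z) := by
    intro A B x z hx hz hA hB
    rw [ENNReal.ofReal_add hx hz]
    exact (measure_union_le _ _).trans (add_le_add hA hB)
  have tot := step (by positivity) (by positivity) (step (by positivity) (by positivity)
    (step (by positivity) (by positivity) u8 u1) u4) u5
  refine tot.trans (ENNReal.ofReal_le_ofReal ?_)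
  have e7 : b + b + b + b = 4 * b := by ring
  rw [e7, hb]
  calc 4 * (T ^ k / y ^ 3) ≤ y * (T ^ k / y ^ 3) := by
        gcongr
        linarith
    _ = T ^ k / y ^ 2 := by field_simp

end

end Pool.Agent.TH612.GS
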