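import Pool.Agent.TH612.GS.All
import Pool.Agent.TH612.GS.GF3
import Pool.Agent.TH612.GS.GF4
import Pool.Agent.TH236.GF.OQ
import Pool.Agent.TH321.GF.AQ
import Pool.Agent.TH406.GF.REPA
import Pool.Agent.TH440.GF.ZA
import Pool.Agent.TH479.GF.HD
import Pool.Agent.TH521.GF.SW3
import Pool.Agent.TH576.GF.TL
import Pool.Agent.TH637.GF.NA
import Pool.Agent.TH738.GF.TMV
import Pool.Agent.TH740.GF.GL3
import Pool.Agent.TH740.GF.VQ
import Pool.Agent.TH914.GF.TW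
import Pool.Agent.TH928.GF.ZN
import Pool.Agent.TH778.GF.ST
import Pool.Agent.TH751.GF.MVB
import Pool.Agent.TH445.GF.DS
import Pool.Agent.TH263.GF.A2
import Pool.Agent.TH113.GF.A5

set_option autoImplicit false

/-! Project GF: all parts together. -/

namespace Pool.Agent.TH612.GS

open MeasureTheory

theorem all_mainA (k : ℕ) (hk : k ≤ 4) : ∃ δ : ℝ, 0 < δ ∧ ∀ α : Fin k → ℝ, ∃ T₀ : ℝ,
    ∀ T : ℝ, T₀ ≤ T → ∀ S : ℝ, 0 ≤ S → S ≤ T →
      mP (Fin k) T (BadD α T S (T ^ (1 - δ))) ≤ ENNReal.ofReal (T ^ (k - δ : ℝ)) ∧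
      (Function.Injective α →
        mP (Fin k) T (BadA α T S (T ^ (1 - δ))) ≤ ENNReal.ofReal (T ^ (k - δ : ℝ))) := by
  have hMV := Pool.Agent.TH928.GS.t_MV
  have hSM := Pool.Agent.TH570.GS.t_SM
  have hC := Pool.Agent.TH757.GS.t_CONT
  have hONE := Pool.Agent.TH811.GS.t_ONE hMV
  have hCHI := Pool.Agent.TH406.GS.t_CHI
  have hA2 : S_A2 := Pool.Agent.TH263.GF.t_A2
  have hMVB : S_MVB := Pool.Agent.TH751.GF.t_MVB
  have hST := Pool.Agent.TH778.GF.t_ST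
  have hDS : S_DS := Pool.Agent.TH445.GF.t_DS
  have hVQ := Pool.Agent.TH740.GF.t_VQ hMV
  have hOQ := Pool.Agent.TH236.GF.t_OQ Pool.Agent.TH321.GF.t_AQ
  have hREPA := Pool.Agent.TH406.GF.t_REPA
  have hTMV := Pool.Agent.TH738.GF.t_TMV hMV
  have hTL := Pool.Agent.TH576.GF.t_TL hA2 hMVB
  have hTW := Pool.Agent.TH914.GF.t_TW hST hDS
  have hHD := Pool.Agent.TH479.GF.t_HD
  have hNA := Pool.Agent.TH637.GF.t_NA
  have hGL3 := Pool.Agent.TH740.GF.t_GL3 hMV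
  have hA5 : S_A5 := Pool.Agent.TH113.GF.t_A5 hC hGL3
  have hZN := Pool.Agent.TH928.GF.t_ZN hONE
  have hSW3 := Pool.Agent.TH521.GF.t_SW3 hCHI
  have hZA := Pool.Agent.TH440.GF.t_ZA hONE
  have hW : S_W := t_W hREPA hOQ hSM hVQ hA2 hTMV hTL hTW hHD
  obtain ⟨δ1, hδ1, h1⟩ := mainD hW hA5 hZN hNA k hk
  obtain ⟨δ2, hδ2, h2⟩ := mainA hW hA5 hZN hSW3 hZA hNA t_INV k hk
  refine ⟨min δ1 δ2, lt_min hδ1 hδ2, fun α => ?_⟩
  have key : ∀ {δ δ' T : ℝ}, 1 ≤ T → δ' ≤ δ → T ^ (1 - δ) ≤ T ^ (1 - δ') ∧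
      T ^ (k - δ : ℝ) ≤ T ^ (k - δ' : ℝ) := by
    intro δ δ' T hT h
    exact ⟨Real.rpow_le_rpow_of_exponent_le hT (by linarith),
      Real.rpow_le_rpow_of_exponent_le hT (by linarith)⟩
  obtain ⟨T1, hT1⟩ := h1 α
  by_cases hα : Function.Injective α
  · obtain ⟨T2, hT2⟩ := h2 α hα
    refine ⟨max 1 (max T1 T2), fun T hT S hS0 hST => ⟨?_, fun _ => ?_⟩⟩
    · have a1 : 1 ≤ T := (le_max_left _ _).trans hT
      have a2 : T1 ≤ T := ((le_max_left _ _).trans (le_max_right _ _)).trans hT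
      obtain ⟨k1, k2⟩ := key a1 (min_le_left δ1 δ2)
      refine (measure_mono ?_).trans ((hT1 T a2 S hS0 hST).trans (ENNReal.ofReal_le_ofReal k2))
      rintro β ⟨b1, b2⟩
      exact ⟨b1, k1.trans_lt b2⟩
    · have a1 : 1 ≤ T := (le_max_left _ _).trans hT
      have a2 : T2 ≤ T := ((le_max_right _ _).trans (le_max_right _ _)).trans hT
      obtain ⟨k1, k2⟩ := key a1 (min_le_right δ1 δ2)
      refine (measure_mono ?_).trans ((hT2 T a2 S hS0 hST).trans (ENNReal.ofReal_le_ofReal k2))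
      rintro β ⟨b1, b2⟩
      exact ⟨b1, k1.trans_lt b2⟩
  · refine ⟨max 1 T1, fun T hT S hS0 hST => ⟨?_, fun h => absurd h hα⟩⟩
    have a1 : 1 ≤ T := (le_max_left _ _).trans hT
    have a2 : T1 ≤ T := (le_max_right _ _).trans hT
    obtain ⟨k1, k2⟩ := key a1 (min_le_left δ1 δ2)
    refine (measure_mono ?_).trans ((hT1 T a2 S hS0 hST).trans (ENNReal.ofReal_le_ofReal k2))
    rintro β ⟨b1, b2⟩
    exact ⟨b1, k1.trans_lt b2⟩

end Pool.Agent.TH612.GS
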