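import Pool.Agent.TH612.GS.Z
import Pool.Agent.TH612.MD.L1

set_option autoImplicit false

/-! Assembly of project GS, first part: the decomposition and pointwise bounds. -/

namespace Pool.Agent.TH612.GS

open Complex Filter Topology MeasureTheory Set
open Pool.Agent.TH612.CF
open Pool.Agent.W182.KO hiding ee SS_summable

noncomputable section

/-- Chebyshev -/
lemma cheb {Ω : Type*} [MeasurableSpace Ω] {μ : Measure Ω} {g : Ω → ℝ} (hg : AEMeasurable g μ)
    {B lam : ℝ} (hl : 0 < lam)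
    (h : ∫⁻ x, ENNReal.ofReal (g x ^ 2) ∂μ ≤ ENNReal.ofReal B) :
    μ {x | lam < g x} ≤ ENNReal.ofReal (B / lam ^ 2) := by
  have h1 : AEMeasurable (fun x => ENNReal.ofReal (g x ^ 2)) μ := (hg.pow_const 2).ennreal_ofReal
  have h2 := meas_ge_le_lintegral_div h1 (ε := ENNReal.ofReal (lam ^ 2))
    (by rw [Ne, ENNReal.ofReal_eq_zero, not_le]; positivity) ENNReal.ofReal_ne_top
  refine (measure_mono ?_).trans (h2.trans ?_)
  · intro x hx
    simp only [mem_ofPred_eq] at hx ⊢
    exact ENNReal.ofReal_le_ofReal (pow_le_pow_left₀ hl.le hx.le 2)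
  · rw [ENNReal.ofReal_div_of_pos (by positivity)]
    exact ENNReal.div_le_div_right h _

variable {k : ℕ}

lemma card_eq_zero_of {π : Equiv.Perm (Fin k ⊕ Fin k)} (h : ∀ j, (π (Sum.inr j)).isLeft = false)
    (j : Fin k) : (π (Sum.inl j)).isRight = false := by
  have h1 : SR π = ∅ := by
    unfold SR
    rw [Finset.filter_eq_empty_iff]
    intro i _
    rw [h i]; simp
  have h2 : (SL π).card = 0 := by rw [card_SL_SR, h1]; rfl
  rw [Finset.card_eq_zero] at h2
  unfold SL at h2
  rw [Finset.filter_eq_empty_iff] at h2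
  have := h2 (Finset.mem_univ j)
  simpa using this

/-- the sign vector of the blocks -/
def vb (i : Fin k ⊕ Fin k) : ℝ := Sum.elim (fun _ => 1) (fun _ => -1) i

lemma good_iff (π : Equiv.Perm (Fin k ⊕ Fin k)) :
    Good vb π ↔ ∀ j, (π (Sum.inr j)).isLeft = false := by
  constructor
  · intro h j
    have := (h j).2
    cases hπ : π (Sum.inr j) with
    | inl a => rw [hπ] at this; simp [vb] at this; norm_num at this
    | inr a => rfl
  · intro h j
    have h1 := h j
    have h2 := card_eq_zero_of h j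
    constructor
    · cases hπ : π (Sum.inl j) with
      | inl a => rfl
      | inr a => rw [hπ] at h2; simp at h2
    · cases hπ : π (Sum.inr j) with
      | inl a => rw [hπ] at h1; simp at h1
      | inr a => rfl

open Classical in
/-- the permutations which keep the blocks -/
def Pk (k : ℕ) : Finset (Equiv.Perm (Fin k ⊕ Fin k)) :=
  Finset.univ.filter fun π => ∀ j, (π (Sum.inr j)).isLeft = false

lemma card_Pk : (Pk k).card = (Nat.factorial k) ^ 2 := by
  classical
  have h1 : Good (k := k) vb 1 := by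
    rw [good_iff]
    intro j; rfl
  rw [← card_good h1]
  unfold Pk
  congr 1
  ext π
  simp [good_iff]

lemma norm_chi (u : ℝ) : ‖chi (1 / 2 + I * u)‖ = 1 := by
  have e : (1 / 2 + I * u : ℂ) = 1 - (1 / 2 - I * u) := by ring
  rw [e, chi_XX (by simp) (by simp; norm_num)]
  have h := H345.norm_XX_half (-u)
  have e2 : (1 / 2 + ((-u : ℝ) : ℂ) * I : ℂ) = 1 / 2 - I * u := by push_cast; ring
  rw [e2] at h
  rw [Pool.Agent.TH612.MD.XX_H]
  exact h

lemma norm_GG (t : ℝ) (γ : Fin k ⊕ Fin k → ℝ) (π : Equiv.Perm (Fin k ⊕ Fin k)) :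
    ‖GG t (fun i => (γ i : ℂ)) π‖ = 1 := by
  unfold GG
  rw [norm_mul, norm_prod, norm_prod]
  have h1 : ∀ j : Fin k, ‖if (π (Sum.inl j)).isRight then
      chi (1 / 2 - I * t - I * (γ (π (Sum.inl j)) : ℂ)) else 1‖ = 1 := by
    intro j
    split_ifs
    · have := norm_chi (-(t + γ (π (Sum.inl j))))
      rw [← this]
      congr 2
      push_cast
      ring
    · simp
  have h2 : ∀ j : Fin k, ‖if (π (Sum.inr j)).isLeft then
      chi (1 / 2 + I * t + I * (γ (π (Sum.inr j)) : ℂ)) else 1‖ = 1 := by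
    intro j
    split_ifs
    · have := norm_chi (t + γ (π (Sum.inr j)))
      rw [← this]
      congr 2
      push_cast
      ring
    · simp
  rw [Finset.prod_congr rfl fun j _ => h1 j, Finset.prod_congr rfl fun j _ => h2 j]
  simp

/-- `zab` for permuted real shifts -/
def zp (γ : Fin k ⊕ Fin k → ℝ) (π : Equiv.Perm (Fin k ⊕ Fin k)) : ℂ :=
  zab (fun j => (γ (π (Sum.inl j)) : ℂ)) (fun j => (γ (π (Sum.inr j)) : ℂ))

/-- the integral of a swap factor -/
def IG (S : ℝ) (γ : Fin k ⊕ Fin k → ℝ) (π : Equiv.Perm (Fin k ⊕ Fin k)) : ℂ :=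
  ∫ t in (0:ℝ)..S, GG t (fun i => (γ i : ℂ)) π

lemma GG_cont_t (γ : Fin k ⊕ Fin k → ℝ) (π : Equiv.Perm (Fin k ⊕ Fin k)) :
    Continuous fun t : ℝ => GG t (fun i => (γ i : ℂ)) π := by
  rw [← continuousOn_univ]
  refine GG_cont (T := fun x : ℝ => x) (Γ := fun _ i => (γ i : ℂ)) (by fun_prop)
    (fun i => continuousOn_const) (fun x _ i => ?_) π
  rw [Complex.ofReal_im, abs_zero]; norm_num

lemma GG_cont_2 (π : Equiv.Perm (Fin k ⊕ Fin k)) :
    Continuous fun p : (Fin k ⊕ Fin k → ℝ) × ℝ => GG p.2 (fun i => (p.1 i : ℂ)) π := by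
  rw [← continuousOn_univ]
  refine GG_cont (T := fun p : (Fin k ⊕ Fin k → ℝ) × ℝ => p.2)
    (Γ := fun p i => (p.1 i : ℂ)) (by fun_prop)
    (fun i => by fun_prop) (fun x _ i => ?_) π
  rw [Complex.ofReal_im, abs_zero]; norm_num

lemma IG_cont (S : ℝ) (π : Equiv.Perm (Fin k ⊕ Fin k)) :
    Continuous fun γ : Fin k ⊕ Fin k → ℝ => IG S γ π := by
  unfold IG
  exact intervalIntegral.continuous_parametric_intervalIntegral_of_continuous
    (f := fun (γ : Fin k ⊕ Fin k → ℝ) (t : ℝ) => GG t (fun i => (γ i : ℂ)) π) (GG_cont_2 π)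
    continuous_const

lemma Zg_fz (γ : Fin k ⊕ Fin k → ℝ) (t : ℝ) : Zg γ t = ∏ j : Fin k, z (t + γ (Sum.inl j)) *
    (starRingEnd ℂ) (z (t + γ (Sum.inr j))) := by
  unfold Zg
  refine Finset.prod_congr rfl fun j _ => ?_
  congr 1
  · unfold z
    congr 1
    push_cast
    ring
  · unfold z
    rw [← riemannZeta_conj]
    congr 1
    simp only [map_add, map_mul, map_div₀, map_one, map_ofNat, conj_ofReal, conj_I]
    push_cast
    ring

end

end Pool.Agent.TH612.GS
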