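import Pool.Agent.TH612.GS.Asm1

set_option autoImplicit false

/-! Assembly of project GS, second part: the decomposition. -/

namespace Pool.Agent.TH612.GS

open Complex Filter Topology MeasureTheory Set
open Pool.Agent.TH612.CF
open Pool.Agent.W182.KO hiding ee SS_summable

noncomputable section

variable {k : ℕ}

/-- the quantity of interest -/
def DD (S : ℝ) (γ : Fin k ⊕ Fin k → ℝ) : ℂ :=
  ∫ t in (0:ℝ)..S, (Zg γ t - ((Nat.factorial k : ℂ) ^ 2)⁻¹ * Qs t (fun i => (γ i : ℂ)))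

lemma Zg_cont (γ : Fin k ⊕ Fin k → ℝ) : Continuous fun t : ℝ => Zg γ t := by
  simp only [Zg_fz]
  refine continuous_finsetProd _ fun j _ => ?_
  exact (z_cont.comp (by fun_prop)).mul (Complex.continuous_conj.comp (z_cont.comp (by fun_prop)))

lemma Qs_zp (t : ℝ) (γ : Fin k ⊕ Fin k → ℝ) : Qs t (fun i => (γ i : ℂ)) =
    ∑ π : Equiv.Perm (Fin k ⊕ Fin k), GG t (fun i => (γ i : ℂ)) π * zp γ π := rfl

lemma Qs_cont (γ : Fin k ⊕ Fin k → ℝ) : Continuous fun t : ℝ => Qs t (fun i => (γ i : ℂ)) := by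
  simp only [Qs_zp]
  exact continuous_finsetSum _ fun π _ => (GG_cont_t γ π).mul continuous_const

lemma int_Qs (A B : ℝ) (γ : Fin k ⊕ Fin k → ℝ) : ∫ t in A..B, Qs t (fun i => (γ i : ℂ)) =
    ∑ π : Equiv.Perm (Fin k ⊕ Fin k), (∫ t in A..B, GG t (fun i => (γ i : ℂ)) π) * zp γ π := by
  simp only [Qs_zp]
  rw [intervalIntegral.integral_finsetSum]
  · refine Finset.sum_congr rfl fun π _ => ?_
    rw [intervalIntegral.integral_mul_const]
  · intro π _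
    exact ((GG_cont_t γ π).mul continuous_const).intervalIntegrable _ _

lemma DD_eq (hINV : S_INV) (S : ℝ) (γ : Fin k ⊕ Fin k → ℝ) : DD S γ =
    (∫ t in (0:ℝ)..S, Zg γ t) - S * zr γ -
      ((Nat.factorial k : ℂ) ^ 2)⁻¹ * ∑ π ∈ (Pk k)ᶜ, IG S γ π * zp γ π := by
  unfold DD
  have hq : IntervalIntegrable (fun t : ℝ => ((Nat.factorial k : ℂ) ^ 2)⁻¹ *
      Qs t (fun i => (γ i : ℂ))) volume 0 S :=
    (continuous_const.mul (Qs_cont γ)).intervalIntegrable _ _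
  rw [intervalIntegral.integral_sub ((Zg_cont γ).intervalIntegrable _ _) hq,
    intervalIntegral.integral_const_mul, int_Qs, ← Finset.sum_add_sum_compl (Pk k)]
  have h1 : ∑ π ∈ Pk k, (∫ t in (0:ℝ)..S, GG t (fun i => (γ i : ℂ)) π) * zp γ π =
      ∑ π ∈ Pk k, (S:ℂ) * zr γ := by
    refine Finset.sum_congr rfl fun π hπ => ?_
    have hπ' : ∀ j, (π (Sum.inr j)).isLeft = false := by
      unfold Pk at hπ
      exact (Finset.mem_filter.1 hπ).2
    obtain ⟨h2, h3⟩ := hINV k γ π hπ'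
    simp only [h3]
    unfold zp
    rw [h2]
    simp
  rw [h1, Finset.sum_const, card_Pk, nsmul_eq_mul]
  have h4 : ((Nat.factorial k : ℂ) ^ 2) ≠ 0 := by
    have := Nat.factorial_ne_zero k
    positivity
  push_cast
  unfold IG
  rw [mul_add, ← mul_assoc, inv_mul_cancel₀ h4, one_mul]
  ring

/-- bound for the values `zp` -/
def ZB (k : ℕ) (C T : ℝ) : ℝ := BF k (1 / 8) * (C * Real.log T) ^ (k ^ 2)

lemma zp_bd {C T : ℝ} (hT : 3 ≤ T) (_hC : 0 < C)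
    (h1 : ∀ v : ℝ, 1 ≤ |v| → |v| ≤ T → ‖riemannZeta (1 + I * v)‖ ≤ C * Real.log T)
    {γ : Fin k ⊕ Fin k → ℝ} (hγ : γ ∈ Sep k T) (π : Equiv.Perm (Fin k ⊕ Fin k)) :
    ‖zp γ π‖ ≤ ZB k C T := by
  have hlog : 0 ≤ Real.log T := Real.log_nonneg (by linarith)
  unfold zp zab ZB
  rw [norm_mul, norm_prod]
  refine mul_le_mul ?_ ?_ (by positivity) ((norm_nonneg _).trans (FH_le (a := fun _ => (0:ℂ))
    (b := fun _ => (0:ℂ)) (by norm_num) (fun j => by simp)))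
  · refine FH_le (by norm_num) fun j => ?_
    rw [Complex.ofReal_im, Complex.ofReal_im, abs_zero]
    norm_num
  · have h2 : ∀ j l : Fin k, ‖riemannZeta (1 + I * (γ (π (Sum.inl j)) : ℂ) -
        I * (γ (π (Sum.inr l)) : ℂ))‖ ≤ C * Real.log T := by
      intro j l
      have hne : π (Sum.inl j) ≠ π (Sum.inr l) := fun h => by
        have := π.injective h
        simp at this
      have hs := hγ.2 _ _ hne
      have e : (1 + I * (γ (π (Sum.inl j)) : ℂ) - I * (γ (π (Sum.inr l)) : ℂ) : ℂ) =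
          1 + I * ((γ (π (Sum.inl j)) - γ (π (Sum.inr l)) : ℝ) : ℂ) := by push_cast; ring
      rw [e]
      refine h1 _ ?_ ?_
      · refine le_trans ?_ hs
        exact Real.one_le_rpow (by linarith) (by norm_num)
      · have a1 := hγ.1 (π (Sum.inl j))
        have a2 := hγ.1 (π (Sum.inr l))
        rw [abs_le]
        constructor <;> linarith
    calc ∏ j, ‖∏ l, riemannZeta (1 + I * (γ (π (Sum.inl j)) : ℂ) - I * (γ (π (Sum.inr l)) : ℂ))‖
        ≤ ∏ _j : Fin k, (C * Real.log T) ^ k := by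
          refine Finset.prod_le_prod (fun _ _ => norm_nonneg _) fun j _ => ?_
          rw [norm_prod]
          refine (Finset.prod_le_prod (fun _ _ => norm_nonneg _) fun l _ => h2 j l).trans ?_
          simp
      _ = (C * Real.log T) ^ (k ^ 2) := by
          rw [Finset.prod_const, Finset.card_univ, Fintype.card_fin, ← pow_mul]
          congr 1; ring

lemma inv_le_one : ‖((Nat.factorial k : ℂ) ^ 2)⁻¹‖ ≤ 1 := by
  rw [norm_inv, norm_pow, Complex.norm_natCast]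
  refine inv_le_one_of_one_le₀ ?_
  have : (1:ℝ) ≤ (Nat.factorial k : ℝ) := by exact_mod_cast Nat.factorial_pos k
  nlinarith

/-- the first error -/
def A1 (N : ℕ) (S : ℝ) (γ : Fin k ⊕ Fin k → ℝ) : ℂ :=
  (∫ t in (0:ℝ)..S, ∏ j : Fin k, z (t + γ (Sum.inl j)) *
      (starRingEnd ℂ) (z (t + γ (Sum.inr j)))) -
    ∫ t in (0:ℝ)..S, ∏ j : Fin k, PN N (t + γ (Sum.inl j)) *
      (starRingEnd ℂ) (PN N (t + γ (Sum.inr j)))

lemma DD_le (hINV : S_INV) (hD : S_DIAG) (ψ : ℝ → ℝ) {N : ℕ} (hN : 1 ≤ N) {S T C : ℝ} (hS : 0 ≤ S)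
    (hST : S ≤ T) (hT : 3 ≤ T) (hC : 0 < C)
    (h1 : ∀ v : ℝ, 1 ≤ |v| → |v| ≤ T → ‖riemannZeta (1 + I * v)‖ ≤ C * Real.log T)
    {γ : Fin k ⊕ Fin k → ℝ} (hγ : γ ∈ Sep k T) :
    ‖DD S γ‖ ≤ ‖A1 N S γ‖ + 2 * (N : ℝ) ^ (3 * k) + T * ‖SN N γ - SP ψ N γ‖ +
      T * ‖SP ψ N γ - GM N γ 0‖ + T * ‖GM N γ 0 - zr γ‖ +
      ZB k C T * ∑ π ∈ (Pk k)ᶜ, ‖IG S γ π‖ := by
  rw [DD_eq hINV]
  set I2 : ℂ := ∫ t in (0:ℝ)..S, ∏ j : Fin k, PN N (t + γ (Sum.inl j)) *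
      (starRingEnd ℂ) (PN N (t + γ (Sum.inr j))) with hI2
  have e1 : (∫ t in (0:ℝ)..S, Zg γ t) = A1 N S γ + I2 := by
    unfold A1
    simp only [Zg_fz]
    ring
  have e2 : (∫ t in (0:ℝ)..S, Zg γ t) - S * zr γ -
      ((Nat.factorial k : ℂ) ^ 2)⁻¹ * ∑ π ∈ (Pk k)ᶜ, IG S γ π * zp γ π =
      A1 N S γ + (I2 - S * SN N γ) + S * (SN N γ - SP ψ N γ) + S * (SP ψ N γ - GM N γ 0) +
      S * (GM N γ 0 - zr γ) - ((Nat.factorial k : ℂ) ^ 2)⁻¹ * ∑ π ∈ (Pk k)ᶜ, IG S γ π * zp γ π := by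
    rw [e1]; ring
  rw [e2]
  have n1 : ∀ w : ℂ, ‖(S:ℂ) * w‖ ≤ T * ‖w‖ := by
    intro w
    rw [norm_mul, Complex.norm_real, Real.norm_of_nonneg hS]
    gcongr
  have n2 : ‖((Nat.factorial k : ℂ) ^ 2)⁻¹ * ∑ π ∈ (Pk k)ᶜ, IG S γ π * zp γ π‖ ≤
      ZB k C T * ∑ π ∈ (Pk k)ᶜ, ‖IG S γ π‖ := by
    rw [norm_mul]
    calc _ ≤ 1 * ‖∑ π ∈ (Pk k)ᶜ, IG S γ π * zp γ π‖ := by
          gcongr
          exact inv_le_one
      _ ≤ 1 * ∑ π ∈ (Pk k)ᶜ, ‖IG S γ π * zp γ π‖ := by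
          gcongr
          exact norm_sum_le _ _
      _ ≤ 1 * ∑ π ∈ (Pk k)ᶜ, ‖IG S γ π‖ * ZB k C T := by
          gcongr with π hπ
          rw [norm_mul]
          gcongr
          exact zp_bd hT hC h1 hγ π
      _ = _ := by rw [one_mul, ← Finset.sum_mul, mul_comm]
  have n3 := hD k N S γ hN hS
  have n4 := n1 (SN N γ - SP ψ N γ)
  have n5 := n1 (SP ψ N γ - GM N γ 0)
  have n6 := n1 (GM N γ 0 - zr γ)
  refine (norm_sub_le _ _).trans (add_le_add ?_ n2)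
  refine (norm_add_le _ _).trans (add_le_add ?_ n6)
  refine (norm_add_le _ _).trans (add_le_add ?_ n5)
  refine (norm_add_le _ _).trans (add_le_add ?_ n4)
  exact (norm_add_le _ _).trans (add_le_add le_rfl n3)

lemma DD_diff {A B T C : ℝ} (hAB : A ≤ B) (hT : 3 ≤ T) (hC : 0 < C)
    (h1 : ∀ v : ℝ, 1 ≤ |v| → |v| ≤ T → ‖riemannZeta (1 + I * v)‖ ≤ C * Real.log T)
    {γ : Fin k ⊕ Fin k → ℝ} (hγ : γ ∈ Sep k T) :
    ‖DD B γ - DD A γ‖ ≤ (∫ t in A..B, ‖∏ j : Fin k, z (t + γ (Sum.inl j)) *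
      (starRingEnd ℂ) (z (t + γ (Sum.inr j)))‖) +
      (B - A) * (Fintype.card (Equiv.Perm (Fin k ⊕ Fin k)) * ZB k C T) := by
  have hc : Continuous fun t : ℝ => Zg γ t - ((Nat.factorial k : ℂ) ^ 2)⁻¹ *
      Qs t (fun i => (γ i : ℂ)) := (Zg_cont γ).sub (continuous_const.mul (Qs_cont γ))
  have e1 : DD B γ - DD A γ = ∫ t in A..B, (Zg γ t - ((Nat.factorial k : ℂ) ^ 2)⁻¹ *
      Qs t (fun i => (γ i : ℂ))) := by
    unfold DD
    exact intervalIntegral.integral_interval_sub_left (hc.intervalIntegrable _ _)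
      (hc.intervalIntegrable _ _)
  rw [e1]
  have hQ : ∀ t : ℝ, ‖((Nat.factorial k : ℂ) ^ 2)⁻¹ * Qs t (fun i => (γ i : ℂ))‖ ≤
      Fintype.card (Equiv.Perm (Fin k ⊕ Fin k)) * ZB k C T := by
    intro t
    rw [norm_mul, Qs_zp]
    calc _ ≤ 1 * ∑ π : Equiv.Perm (Fin k ⊕ Fin k), ‖GG t (fun i => (γ i : ℂ)) π * zp γ π‖ := by
          gcongr
          · exact inv_le_one
          · exact norm_sum_le _ _
      _ ≤ 1 * ∑ _π : Equiv.Perm (Fin k ⊕ Fin k), ZB k C T := by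
          gcongr with π hπ
          rw [norm_mul, norm_GG, one_mul]
          exact zp_bd hT hC h1 hγ π
      _ = _ := by rw [one_mul, Finset.sum_const, Finset.card_univ, nsmul_eq_mul]
  refine (intervalIntegral.norm_integral_le_integral_norm hAB).trans ?_
  calc ∫ t in A..B, ‖Zg γ t - ((Nat.factorial k : ℂ) ^ 2)⁻¹ * Qs t (fun i => (γ i : ℂ))‖
      ≤ ∫ t in A..B, (‖Zg γ t‖ + Fintype.card (Equiv.Perm (Fin k ⊕ Fin k)) * ZB k C T) := by
        refine intervalIntegral.integral_mono_on hAB (hc.norm.intervalIntegrable _ _)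
          (((Zg_cont γ).norm.add continuous_const).intervalIntegrable _ _) fun t _ => ?_
        exact (norm_sub_le _ _).trans (add_le_add le_rfl (hQ t))
    _ = _ := by
        rw [intervalIntegral.integral_add ((Zg_cont γ).norm.intervalIntegrable _ _)
          (continuous_const.intervalIntegrable _ _), intervalIntegral.integral_const, smul_eq_mul]
        simp only [Zg_fz]

end

end Pool.Agent.TH612.GS
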