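import Pool.Agent.TH612.GS.Asm2

set_option autoImplicit false

/-! Assembly of project GS, third part: continuity and measurability. -/

namespace Pool.Agent.TH612.GS

open Complex Filter Topology MeasureTheory Set
open Pool.Agent.TH612.CF
open Pool.Agent.W182.KO hiding ee SS_summable
open scoped ContDiff

noncomputable section

variable {k : ℕ}

lemma mP_eq (ι : Type) [Fintype ι] (T : ℝ) :
    mP ι T = (volume : Measure (ι → ℝ)).restrict (univ.pi fun _ => Icc 0 T) := by
  unfold mP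
  rw [volume_pi, Measure.restrict_pi_pi]

lemma vol_cube {ι : Type} [Fintype ι] {T : ℝ} {E : Set (ι → ℝ)} (h : ∀ γ ∈ E, ∀ i, 0 ≤ γ i ∧ γ i ≤ T) :
    volume E = mP ι T E := by
  rw [mP_eq, Measure.restrict_eq_self]
  intro γ hγ i _
  exact h γ hγ i

lemma prod2_cont {f : ℝ → ℂ} (hf : Continuous f) :
    Continuous fun p : (Fin k ⊕ Fin k → ℝ) × ℝ => ∏ j : Fin k, f (p.2 + p.1 (Sum.inl j)) *
      (starRingEnd ℂ) (f (p.2 + p.1 (Sum.inr j))) := by
  refine continuous_finsetProd _ fun j _ => ?_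
  exact (hf.comp (by fun_prop)).mul (Complex.continuous_conj.comp (hf.comp (by fun_prop)))

lemma intprod_cont {f : ℝ → ℂ} (hf : Continuous f) (S : ℝ) :
    Continuous fun γ : Fin k ⊕ Fin k → ℝ => ∫ t in (0:ℝ)..S, ∏ j : Fin k, f (t + γ (Sum.inl j)) *
      (starRingEnd ℂ) (f (t + γ (Sum.inr j))) :=
  intervalIntegral.continuous_parametric_intervalIntegral_of_continuous
    (f := fun (γ : Fin k ⊕ Fin k → ℝ) (t : ℝ) => ∏ j : Fin k, f (t + γ (Sum.inl j)) *
      (starRingEnd ℂ) (f (t + γ (Sum.inr j)))) (prod2_cont hf) continuous_const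

lemma A1_cont (N : ℕ) (S : ℝ) : Continuous fun γ : Fin k ⊕ Fin k → ℝ => A1 N S γ :=
  (intprod_cont z_cont S).sub (intprod_cont (PN_cont N) S)

lemma intnorm_cont (A B : ℝ) :
    Continuous fun γ : Fin k ⊕ Fin k → ℝ => ∫ t in A..B, ‖∏ j : Fin k, z (t + γ (Sum.inl j)) *
      (starRingEnd ℂ) (z (t + γ (Sum.inr j)))‖ :=
  intervalIntegral.continuous_parametric_intervalIntegral_of_continuous
    (f := fun (γ : Fin k ⊕ Fin k → ℝ) (t : ℝ) => ‖∏ j : Fin k, z (t + γ (Sum.inl j)) *
      (starRingEnd ℂ) (z (t + γ (Sum.inr j)))‖) (prod2_cont z_cont).norm continuous_const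

lemma ch_cont {N : ℕ} {ν : Fin k ⊕ Fin k → ℕ} (hν : ν ∈ tup k N) :
    Continuous fun γ : Fin k ⊕ Fin k → ℝ => ch ν γ := by
  have h0 : ∀ i, (ν i : ℂ) ≠ 0 := by
    intro i
    have h1 := (Fintype.mem_piFinset.1 hν) i
    have h2 := (Finset.mem_Icc.1 h1).1
    exact_mod_cast (by omega : ν i ≠ 0)
  unfold ch
  refine Continuous.mul ?_ ?_
  · exact continuous_finsetProd _ fun j _ => Continuous.const_cpow (by fun_prop) (Or.inl (h0 _))
  · exact continuous_finsetProd _ fun j _ => Continuous.const_cpow (by fun_prop) (Or.inl (h0 _))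

lemma SN_cont (N : ℕ) : Continuous fun γ : Fin k ⊕ Fin k → ℝ => SN N γ := by
  unfold SN
  refine continuous_finsetSum _ fun ν hν => ?_
  split_ifs
  · exact continuous_const.mul (ch_cont hν)
  · exact continuous_const

lemma tau_cont' {l : (Fin k ⊕ Fin k → ℝ) → Fin k → ℂ} (hl : ∀ j, Continuous fun γ => l γ j) (n : ℕ) :
    Continuous fun γ => tau (l γ) n := by
  unfold tau
  refine continuous_finsetSum _ fun d hd => continuous_finsetProd _ fun j _ => ?_
  have h0 : (d j : ℂ) ≠ 0 := by exact_mod_cast Nat.ne_zero_of_mem_finMulAntidiag hd j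
  exact Continuous.const_cpow (hl j) (Or.inl h0)

lemma SP_cont (ψ : ℝ → ℝ) (N : ℕ) : Continuous fun γ : Fin k ⊕ Fin k → ℝ => SP ψ N γ := by
  unfold SP dr dg
  refine continuous_finsetSum _ fun n _ => Continuous.mul (Continuous.mul (Continuous.mul ?_ ?_)
    continuous_const) continuous_const
  · exact tau_cont' (fun j => by fun_prop) n
  · exact tau_cont' (fun j => by fun_prop) n

lemma GM0_cont (N : ℕ) : Continuous fun γ : Fin k ⊕ Fin k → ℝ => GM N γ 0 := by
  unfold GM
  refine Continuous.mul ?_ ?_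
  · rw [← continuousOn_univ]
    refine FH_cont isOpen_univ (c := 1 / 8) (by norm_num)
      (a := fun (γ : Fin k ⊕ Fin k → ℝ) (j : Fin k) => (γ (Sum.inl j) : ℂ) - I * 0 / 2)
      (b := fun (γ : Fin k ⊕ Fin k → ℝ) (j : Fin k) => (γ (Sum.inr j) : ℂ) + I * 0 / 2)
      (fun j => by fun_prop) (fun j => by fun_prop) fun γ _ j => ?_
    simp
  · refine continuous_finsetProd _ fun j _ => continuous_finsetProd _ fun l _ => ?_
    unfold zN
    refine continuous_finsetSum _ fun n hn => ?_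
    have hn1 : 1 ≤ n := (Finset.mem_Icc.1 hn).1
    have hn0 : (n : ℂ) ≠ 0 := by exact_mod_cast (by omega : n ≠ 0)
    exact Continuous.const_cpow (by fun_prop) (Or.inl hn0)

lemma Sep_meas (k : ℕ) (T : ℝ) : MeasurableSet (Sep k T) := by
  have : Sep k T = (⋂ i, {γ : Fin k ⊕ Fin k → ℝ | 0 ≤ γ i ∧ γ i ≤ T}) ∩
      ⋂ p, ⋂ q, {γ | p ≠ q → T ^ (1 / 2 : ℝ) ≤ |γ p - γ q|} := by
    ext γ
    simp [Sep]
  rw [this]
  refine IsClosed.measurableSet ?_
  refine IsClosed.inter (isClosed_iInter fun i => ?_) (isClosed_iInter fun p => isClosed_iInter fun q => ?_)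
  · exact (isClosed_le continuous_const (continuous_apply i)).inter
      (isClosed_le (continuous_apply i) continuous_const)
  · by_cases h : p = q
    · simp [h]
    · simp only [ne_eq, h, not_false_eq_true, true_imp_iff]
      exact isClosed_le continuous_const (by fun_prop)

lemma zr_cont {T : ℝ} (hT : 1 ≤ T) : ContinuousOn (fun γ : Fin k ⊕ Fin k → ℝ => zr γ) (Sep k T) := by
  set U : Set (Fin k ⊕ Fin k → ℝ) := {γ | ∀ j l : Fin k, γ (Sum.inl j) ≠ γ (Sum.inr l)} with hU
  have hUo : IsOpen U := by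
    have : U = ⋂ j : Fin k, ⋂ l : Fin k, {γ | γ (Sum.inl j) ≠ γ (Sum.inr l)} := by
      ext γ; simp [hU]
    rw [this]
    exact isOpen_iInter_of_finite fun j => isOpen_iInter_of_finite fun l =>
      isOpen_ne_fun (continuous_apply _) (continuous_apply _)
  have hsub : Sep k T ⊆ U := by
    intro γ hγ j l h
    have h1 := hγ.2 (Sum.inl j) (Sum.inr l) (by simp)
    rw [h, sub_self, abs_zero] at h1
    have h2 : 0 < T ^ (1 / 2 : ℝ) := by positivity
    linarith
  refine ContinuousOn.mono ?_ hsub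
  unfold zr zab
  refine ContinuousOn.mul ?_ ?_
  · refine FH_cont hUo (c := 1 / 8) (by norm_num) (fun j => by fun_prop) (fun j => by fun_prop)
      fun γ _ j => ?_
    rw [Complex.ofReal_im, Complex.ofReal_im, abs_zero]
    norm_num
  · refine continuousOn_finsetProd _ fun j _ => continuousOn_finsetProd _ fun l _ => ?_
    refine zeta_cont (by fun_prop) fun γ hγ => one_ne fun h => hγ j l ?_
    exact Complex.ofReal_injective h

lemma exists_cut : ∃ ψ : ℝ → ℝ, Cut ψ := by
  refine ⟨fun x => Real.smoothTransition (2 * (1 - x)), ?_, ?_, ?_, ?_⟩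
  · exact Real.smoothTransition.contDiff.comp (by fun_prop)
  · exact fun x => ⟨Real.smoothTransition.nonneg _, Real.smoothTransition.le_one _⟩
  · intro x hx
    exact Real.smoothTransition.one_of_one_le (by linarith)
  · intro x hx
    exact Real.smoothTransition.zero_of_nonpos (by linarith)

lemma log_ev (C : ℝ) (B : ℕ) {θ : ℝ} (hθ : 0 < θ) :
    ∀ᶠ T : ℝ in atTop, C * Real.log T ^ B ≤ T ^ θ := by
  have h1 : (fun T : ℝ => Real.log T ^ (B:ℝ)) =o[atTop] fun T => T ^ θ :=
    isLittleO_log_rpow_rpow_atTop _ hθ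
  have h2 := (h1.const_mul_left C).def (c := 1) one_pos
  filter_upwards [h2, eventually_ge_atTop 1] with T hT hT1
  rw [Real.rpow_natCast, one_mul] at hT
  have h3 : ‖T ^ θ‖ = T ^ θ := Real.norm_of_nonneg (by positivity)
  rw [h3] at hT
  exact (le_abs_self _).trans hT

end

end Pool.Agent.TH612.GS
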