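import Pool.Agent.TH612.GS.Asm3

set_option autoImplicit false

/-! Assembly of project GS, fourth part: the parameters. -/

namespace Pool.Agent.TH612.GS

open Complex Filter Topology MeasureTheory Set

noncomputable section

/-- the parameters -/
structure Par (k : ℕ) (θ C : ℝ) (B M₀ : ℕ) (T y : ℝ) (N J : ℕ) : Prop where
  hy : y = T ^ θ
  hT : 3 ≤ T
  hlog : 1 ≤ Real.log T
  hy16 : 16 ≤ y
  hC : C * Real.log T ^ B ≤ y
  hyT : y ^ 40 ≤ T ^ (1 / 2 : ℝ)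
  hM : M₀ ≤ N
  hN2 : 2 ≤ N
  hN : y ^ 320 / 2 ≤ N
  hNT : (N : ℝ) ≤ T ^ (1 / 2 : ℝ)
  hN1 : 2 * (N : ℝ) ^ (4 * k + 2) ≤ T
  hN3 : 2 * (N : ℝ) ^ (3 * k ^ 2) ≤ T
  hN4 : (N : ℝ) ^ (3 * k) ≤ T ^ (1 / 2 : ℝ)
  hN8 : (N : ℝ) ^ (-(1 / 8) : ℝ) ≤ 2 / y ^ 40
  hJ1 : 1 ≤ J
  hJl : y ^ 16 ≤ J
  hJu : (J : ℝ) ≤ 2 * y ^ 16
  e1 : T ^ (1 - 2 * θ) = T / y ^ 2
  e2 : T ^ (2 * k - 2 * θ : ℝ) = T ^ (2 * k) / y ^ 2

lemma params (k : ℕ) : ∃ θ : ℝ, 0 < θ ∧ ∀ (C : ℝ) (B M₀ : ℕ), ∃ T₀ : ℝ, ∀ T : ℝ, T₀ ≤ T →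
    ∃ (y : ℝ) (N J : ℕ), Par k θ C B M₀ T y N J := by
  set D : ℝ := (k:ℝ) ^ 2 + k + 1 with hD
  have hD1 : 1 ≤ D := by rw [hD]; nlinarith [sq_nonneg (k:ℝ), (Nat.cast_nonneg k : (0:ℝ) ≤ k)]
  set θ : ℝ := 1 / (8 * D * 320) with hθ
  have hθ0 : 0 < θ := by positivity
  have hθc : 320 * θ = 1 / (8 * D) := by rw [hθ]; field_simp
  have hθs : 320 * θ ≤ 1 / 8 := by
    rw [hθc, div_le_div_iff₀ (by positivity) (by norm_num)]; linarith
  refine ⟨θ, hθ0, fun C B M₀ => ?_⟩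
  have ev1 := log_ev C B hθ0
  have ev2 : Tendsto (fun T : ℝ => T ^ θ) atTop atTop := tendsto_rpow_atTop hθ0
  have ev3 := ev2.eventually_ge_atTop (16 + 2 * M₀)
  obtain ⟨T0, hT0⟩ := eventually_atTop.1 (ev1.and (ev3.and (eventually_ge_atTop 4)))
  refine ⟨T0, fun T hT => ?_⟩
  obtain ⟨h1, h2, h3⟩ := hT0 T hT
  have hTp : 0 < T := by linarith
  have hT1 : 1 ≤ T := by linarith
  set y : ℝ := T ^ θ with hy
  have hM0 : (0:ℝ) ≤ M₀ := Nat.cast_nonneg _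
  have hy16 : 16 ≤ y := by linarith
  have hy0 : 0 < y := by linarith
  have hy1 : 1 ≤ y := by linarith
  have ypow : ∀ n : ℕ, y ^ n = T ^ (θ * n) := by
    intro n
    rw [hy, ← Real.rpow_natCast, ← Real.rpow_mul hTp.le]
  have hyle : ∀ n : ℕ, 1 ≤ n → y ≤ y ^ n := fun n hn => le_self_pow₀ hy1 (by omega)
  have h320 : y ≤ y ^ 320 := hyle 320 (by norm_num)
  set N : ℕ := ⌊y ^ 320⌋₊ with hN
  have hNle : (N : ℝ) ≤ y ^ 320 := Nat.floor_le (by positivity)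
  have hNge : y ^ 320 - 1 < N := by
    have := Nat.lt_floor_add_one (y ^ 320)
    linarith
  have hNhalf : y ^ 320 / 2 ≤ N := by linarith
  have hN8 : (8:ℝ) ≤ N := by linarith
  have hNpow : ∀ m : ℕ, (m:ℝ) ≤ 4 * D → (N:ℝ) ^ m ≤ T ^ (1 / 2 : ℝ) := by
    intro m hm
    calc (N:ℝ) ^ m ≤ (y ^ 320) ^ m := by gcongr
      _ = T ^ (θ * (320 * m : ℕ)) := by rw [← pow_mul, ypow]
      _ ≤ T ^ (1 / 2 : ℝ) := by
          refine Real.rpow_le_rpow_of_exponent_le hT1 ?_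
          push_cast
          have : θ * (320 * m) = (320 * θ) * m := by ring
          rw [this, hθc, div_mul_eq_mul_div, div_le_div_iff₀ (by positivity) (by norm_num)]
          linarith
  have hk0 : (0:ℝ) ≤ k := Nat.cast_nonneg k
  have hhalf : 2 * T ^ (1 / 2 : ℝ) ≤ T := by
    have e : T = T ^ (1 / 2 : ℝ) * T ^ (1 / 2 : ℝ) := by
      rw [← Real.rpow_add hTp]; norm_num
    have h4 : 2 ≤ T ^ (1 / 2 : ℝ) := by
      rw [← Real.sqrt_eq_rpow]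
      exact Real.le_sqrt_of_sq_le (by linarith)
    nlinarith
  set J : ℕ := ⌈y ^ 16⌉₊ with hJ
  have hJl : y ^ 16 ≤ J := Nat.le_ceil _
  have hJu' : (J : ℝ) < y ^ 16 + 1 := Nat.ceil_lt_add_one (by positivity)
  have h16 : 1 ≤ y ^ 16 := one_le_pow₀ hy1
  refine ⟨y, N, J, ⟨hy, by linarith, ?_, hy16, h1, ?_, ?_, ?_, hNhalf, ?_, ?_, ?_, ?_, ?_, ?_, hJl,
    by linarith, ?_, ?_⟩⟩
  · rw [Real.le_log_iff_exp_le hTp]
    exact (Real.exp_one_lt_d9.le.trans (by norm_num)).trans h3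
  · rw [ypow]
    refine Real.rpow_le_rpow_of_exponent_le hT1 ?_
    push_cast
    nlinarith
  · have : (M₀:ℝ) ≤ N := by linarith
    exact_mod_cast this
  · have : (2:ℝ) ≤ N := by linarith
    exact_mod_cast this
  · have := hNpow 1 (by push_cast; linarith)
    rwa [pow_one] at this
  · refine (mul_le_mul_of_nonneg_left (hNpow (4 * k + 2) ?_) (by norm_num)).trans hhalf
    push_cast; rw [hD]; nlinarith
  · refine (mul_le_mul_of_nonneg_left (hNpow (3 * k ^ 2) ?_) (by norm_num)).trans hhalf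
    push_cast; rw [hD]; nlinarith
  · refine hNpow (3 * k) ?_
    push_cast; rw [hD]; nlinarith
  · have e3 : (y ^ 320 / 2 : ℝ) ^ (-(1 / 8) : ℝ) ≤ 2 / y ^ 40 := by
      rw [Real.div_rpow (by positivity) (by norm_num), Real.rpow_neg (by positivity),
        Real.rpow_neg (by norm_num)]
      have e4 : (y ^ 320 : ℝ) ^ (1 / 8 : ℝ) = y ^ 40 := by
        rw [← Real.rpow_natCast, ← Real.rpow_mul hy0.le, ← Real.rpow_natCast]
        norm_num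
      have e5 : (2:ℝ) ^ (1 / 8 : ℝ) ≤ 2 := by
        calc (2:ℝ) ^ (1 / 8 : ℝ) ≤ 2 ^ (1:ℝ) :=
              Real.rpow_le_rpow_of_exponent_le (by norm_num) (by norm_num)
          _ = 2 := Real.rpow_one 2
      rw [e4, div_inv_eq_mul, mul_comm, ← div_eq_mul_inv]
      gcongr
    refine le_trans ?_ e3
    exact Real.rpow_le_rpow_of_nonpos (by positivity) hNhalf (by norm_num)
  · have : (1:ℝ) ≤ J := by linarith
    exact_mod_cast this
  · rw [Real.rpow_sub hTp, Real.rpow_one, ypow]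
    congr 2
    push_cast; ring
  · rw [Real.rpow_sub hTp, ypow]
    congr 1
    · rw [← Real.rpow_natCast]; push_cast; rfl
    · congr 1
      push_cast; ring

end

end Pool.Agent.TH612.GS
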