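import Pool.Agent.TH612.GS.Asm5

set_option autoImplicit false

/-! Assembly of project GS, sixth part: the measure of the exceptional set. -/

namespace Pool.Agent.TH612.GS

open Complex Filter Topology MeasureTheory Set
open Pool.Agent.TH612.CF
open Pool.Agent.W182.KO hiding ee SS_summable
open scoped ContDiff

noncomputable section

lemma BF_nonneg (k : ℕ) (c : ℝ) : 0 ≤ BF k c := (Real.exp_pos _).le

lemma sum_ofReal_le' {s : ℕ} {f : ℕ → ENNReal} {b c : ℝ} (h : ∀ i ∈ Finset.range s, f i ≤ ENNReal.ofReal b)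
    (hc : (s : ℝ) * b ≤ c) : ∑ i ∈ Finset.range s, f i ≤ ENNReal.ofReal c := by
  calc ∑ i ∈ Finset.range s, f i ≤ ∑ _i ∈ Finset.range s, ENNReal.ofReal b := Finset.sum_le_sum h
    _ = ENNReal.ofReal (s * b) := by
        rw [Finset.sum_const, Finset.card_range, nsmul_eq_mul, ENNReal.ofReal_mul (by positivity),
          ENNReal.ofReal_natCast]
    _ ≤ _ := ENNReal.ofReal_le_ofReal hc

theorem main (hZ1 : S_Z1) (hZ2 : S_Z2) (hSS : S_SS) (hA4 : S_A4) (hZM : S_ZM) (hSW : S_SW)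
    (hONE : S_ONE) (hNS : S_NS) (hD : S_DIAG) (hINV : S_INV) (k : ℕ) :
    ∃ δ : ℝ, 0 < δ ∧ ∃ T₀ : ℝ, ∀ T : ℝ, T₀ ≤ T →
      mP (Fin k ⊕ Fin k) T (Bad k T (T ^ (1 - δ))) ≤ ENNReal.ofReal (T ^ (2 * k - δ : ℝ)) := by
  classical
  obtain ⟨ψ, hψ⟩ := exists_cut
  obtain ⟨C1, T1, hC1, hT1, h1⟩ := hZ1 k
  obtain ⟨C2, T2, hC2, hT2, h2⟩ := hZ2 k
  obtain ⟨C3, hC3, h3⟩ := hSS k ψ hψ
  obtain ⟨C4, M0, hC4, hM0, h4⟩ := hA4 k ψ hψ
  obtain ⟨C5, T5, B5, hC5, hT5, h5⟩ := hZM k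
  obtain ⟨C6, T6, hC6, hT6, h6⟩ := hSW k
  obtain ⟨C7, T7, hC7, hT7, h7⟩ := hONE
  obtain ⟨θ, hθ, hpar⟩ := params k
  set P0 : ℝ := (Fintype.card (Equiv.Perm (Fin k ⊕ Fin k)) : ℝ) with hP0
  have hP0' : 0 ≤ P0 := Nat.cast_nonneg _
  set Z7 : ℝ := P0 * (BF k (1 / 8) * C7 ^ (k ^ 2)) with hZ7
  have hZ7' : 0 ≤ Z7 := mul_nonneg hP0' (mul_nonneg (BF_nonneg _ _) (by positivity))
  set Ct : ℝ := C1 + C2 + C3 + C4 + C5 + P0 * C6 + Z7 + 8 * k ^ 2 with hCt
  set Bt : ℕ := 2 * k + B5 + 2 + k ^ 2 with hBt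
  obtain ⟨T0, hT0⟩ := hpar Ct Bt M0
  refine ⟨2 * θ, by positivity, max T0 (max T1 (max T2 (max T5 (max T6 T7)))), fun T hT => ?_⟩
  obtain ⟨y, N, J, P⟩ := hT0 T ((le_max_left _ _).trans hT)
  have hT' := (le_max_right _ _).trans hT
  have hTT1 : T1 ≤ T := (le_max_left _ _).trans hT'
  have hT'' := (le_max_right _ _).trans hT'
  have hTT2 : T2 ≤ T := (le_max_left _ _).trans hT''
  have hT3 := (le_max_right _ _).trans hT''
  have hTT5 : T5 ≤ T := (le_max_left _ _).trans hT3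
  have hT4 := (le_max_right _ _).trans hT3
  have hTT6 : T6 ≤ T := (le_max_left _ _).trans hT4
  have hTT7 : T7 ≤ T := (le_max_right _ _).trans hT4
  have hTge := P.hT
  have hTp : 0 < T := by linarith
  have hL := P.hlog
  have hy16 := P.hy16
  have hy0 : 0 < y := by linarith
  have hy1 : 1 ≤ y := by linarith
  have hN1 : 1 ≤ N := by have := P.hN2; omega
  have hN0 : (0:ℝ) < N := by exact_mod_cast (by omega : 0 < N)
  have hJ0 : (0:ℝ) < J := by have := P.hJ1; exact_mod_cast (by omega : 0 < J)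
  have hTJ : 0 < T / J := by positivity
  have cst : ∀ (c : ℝ) (b : ℕ), 0 ≤ c → c ≤ Ct → b ≤ Bt → c * Real.log T ^ b ≤ y := by
    intro c b hc0 hc hb
    refine le_trans ?_ P.hC
    have : Real.log T ^ b ≤ Real.log T ^ Bt := pow_le_pow_right₀ hL hb
    gcongr
  have hPC : 0 ≤ P0 * C6 := mul_nonneg hP0' hC6.le
  have hk0 : (0:ℝ) ≤ 8 * k ^ 2 := by positivity
  have c1 : C1 * Real.log T ^ (2 * k) ≤ y := cst C1 _ hC1.le (by rw [hCt]; linarith) (by omega)
  have c2 : C2 * Real.log T ^ (2 * k) ≤ y := cst C2 _ hC2.le (by rw [hCt]; linarith) (by omega)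
  have c3 : C3 ≤ y := by simpa using cst C3 0 hC3.le (by rw [hCt]; linarith) (by omega)
  have c4 : C4 ≤ y := by simpa using cst C4 0 hC4.le (by rw [hCt]; linarith) (by omega)
  have c5 : C5 * Real.log T ^ B5 ≤ y := cst C5 _ hC5.le (by rw [hCt]; linarith) (by omega)
  have c6 : P0 * C6 * Real.log T ^ 2 ≤ y := cst _ _ hPC (by rw [hCt]; linarith) (by omega)
  have c7 : Z7 * Real.log T ^ (k ^ 2) ≤ y := cst _ _ hZ7' (by rw [hCt]; linarith) (by omega)
  have c8 : 8 * (k:ℝ) ^ 2 ≤ y := by simpa using cst _ 0 hk0 (by rw [hCt]; linarith) (by omega)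
  have hone := (h7 T N hTT7 hN1 P.hNT).1
  have hZ : P0 * ZB k C7 T ≤ y := by
    refine le_trans (le_of_eq ?_) c7
    unfold ZB
    rw [hZ7, mul_pow]; ring
  have hZ0 : 0 ≤ ZB k C7 T := by
    unfold ZB
    exact mul_nonneg (BF_nonneg _ _) (by positivity)
  have hyT : y ^ 40 ≤ T := by
    refine P.hyT.trans ?_
    calc T ^ (1 / 2 : ℝ) ≤ T ^ (1:ℝ) := Real.rpow_le_rpow_of_exponent_le (by linarith) (by norm_num)
      _ = T := Real.rpow_one T
  -- the target for each piece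
  set b : ℝ := T ^ (2 * k) / y ^ 3 with hb
  have hTk : 0 < T ^ (2 * k) := by positivity
  have hb0 : 0 < b := by positivity
  have hNinv : 1 / (N:ℝ) ≤ 2 / y ^ 320 := by
    rw [div_le_div_iff₀ hN0 (by positivity)]
    have := P.hN
    linarith
  have hy1' : ∀ n : ℕ, 1 ≤ y ^ n := fun n => one_le_pow₀ hy1
  have hyn : ∀ n : ℕ, 1 ≤ n → 16 ≤ y ^ n := fun n hn =>
    hy16.trans (le_self_pow₀ hy1 (by omega))
  -- U3
  have u3 : mP (Fin k ⊕ Fin k) T {γ | 1 / y ^ 4 < ‖SN N γ - SP ψ N γ‖} ≤ ENNReal.ofReal b := by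
    refine (cheb (((SN_cont N).sub (SP_cont ψ N)).norm.aemeasurable) (by positivity)
      (h3 T N P.hN2 P.hN1)).trans (ENNReal.ofReal_le_ofReal ?_)
    have e := P.hN8
    calc C3 * T ^ (2 * k) * (N:ℝ) ^ (-(1 / 8) : ℝ) / (1 / y ^ 4) ^ 2
        ≤ y * T ^ (2 * k) * (2 / y ^ 40) / (1 / y ^ 4) ^ 2 := by gcongr
      _ = T ^ (2 * k) / y ^ 3 * (2 / y ^ 28) := by field_simp
      _ ≤ T ^ (2 * k) / y ^ 3 * 1 := by
          gcongr
          rw [div_le_one (by positivity)]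
          linarith [hyn 28 (by norm_num)]
      _ = b := by rw [mul_one]
  -- U4
  have u4 : mP (Fin k ⊕ Fin k) T {γ | 1 / y ^ 4 < ‖SP ψ N γ - GM N γ 0‖} ≤ ENNReal.ofReal b := by
    refine (cheb (((SP_cont ψ N).sub (GM0_cont N)).norm.aemeasurable) (by positivity)
      (h4 T N P.hM (by linarith) P.hN3)).trans (ENNReal.ofReal_le_ofReal ?_)
    have e := P.hN8
    calc C4 * T ^ (2 * k) * (N:ℝ) ^ (-(1 / 8) : ℝ) / (1 / y ^ 4) ^ 2
        ≤ y * T ^ (2 * k) * (2 / y ^ 40) / (1 / y ^ 4) ^ 2 := by gcongr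
      _ = T ^ (2 * k) / y ^ 3 * (2 / y ^ 28) := by field_simp
      _ ≤ T ^ (2 * k) / y ^ 3 * 1 := by
          gcongr
          rw [div_le_one (by positivity)]
          linarith [hyn 28 (by norm_num)]
      _ = b := by rw [mul_one]
  -- U5
  have u5 : mP (Fin k ⊕ Fin k) T (Sep k T ∩ {γ | 1 / y ^ 4 < ‖GM N γ 0 - zr γ‖}) ≤
      ENNReal.ofReal b := by
    have hm : AEMeasurable (fun γ : Fin k ⊕ Fin k → ℝ => ‖GM N γ 0 - zr γ‖)
        ((mP (Fin k ⊕ Fin k) T).restrict (Sep k T)) :=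
      (((GM0_cont N).continuousOn.sub (zr_cont (by linarith))).norm).aemeasurable (Sep_meas k T)
    have hcb := cheb hm (lam := 1 / y ^ 4) (by positivity) (h5 T N hTT5 hN1 P.hNT)
    have e0 : mP (Fin k ⊕ Fin k) T (Sep k T ∩ {γ | 1 / y ^ 4 < ‖GM N γ 0 - zr γ‖}) ≤
        ((mP (Fin k ⊕ Fin k) T).restrict (Sep k T)) {γ | 1 / y ^ 4 < ‖GM N γ 0 - zr γ‖} := by
      rw [inter_comm]
      exact Measure.le_restrict_apply _ _
    refine e0.trans (hcb.trans (ENNReal.ofReal_le_ofReal ?_))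
    calc C5 * Real.log T ^ B5 * T ^ (2 * k) / N / (1 / y ^ 4) ^ 2
        = (C5 * Real.log T ^ B5) * T ^ (2 * k) * (1 / N) / (1 / y ^ 4) ^ 2 := by ring
      _ ≤ y * T ^ (2 * k) * (2 / y ^ 320) / (1 / y ^ 4) ^ 2 := by gcongr
      _ = T ^ (2 * k) / y ^ 3 * (2 / y ^ 308) := by field_simp
      _ ≤ T ^ (2 * k) / y ^ 3 * 1 := by
          gcongr
          rw [div_le_one (by positivity)]
          linarith [hyn 308 (by norm_num)]
      _ = b := by rw [mul_one]
  have hgrid : ∀ i ∈ Finset.range (J + 1), 0 ≤ (i:ℝ) * (T / J) ∧ (i:ℝ) * (T / J) ≤ T := by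
    intro i hi
    have hi' : (i:ℝ) ≤ J := by exact_mod_cast Nat.lt_succ_iff.1 (Finset.mem_range.1 hi)
    refine ⟨by positivity, ?_⟩
    calc (i:ℝ) * (T / J) ≤ J * (T / J) := by gcongr
      _ = T := by field_simp
  have hJ3 : ((J + 1 : ℕ) : ℝ) ≤ 3 * y ^ 16 := by
    push_cast
    have := P.hJu
    linarith [hyn 16 (by norm_num)]
  -- U1
  have u1 : ∑ i ∈ Finset.range (J + 1), mP (Fin k ⊕ Fin k) T {γ | T / y ^ 4 < ‖A1 N (i * (T / J)) γ‖} ≤
      ENNReal.ofReal b := by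
    refine sum_ofReal_le' (b := C1 * Real.log T ^ (2 * k) * T ^ (2 * k + 2) / N / (T / y ^ 4) ^ 2)
      (fun i hi => ?_) ?_
    · obtain ⟨g0, g1⟩ := hgrid i hi
      exact cheb ((A1_cont N _).norm.aemeasurable) (by positivity)
        (h1 T _ N hTT1 g0 g1 hN1 P.hNT)
    · calc ((J + 1 : ℕ) : ℝ) * (C1 * Real.log T ^ (2 * k) * T ^ (2 * k + 2) / N / (T / y ^ 4) ^ 2)
          = ((J + 1 : ℕ) : ℝ) * ((C1 * Real.log T ^ (2 * k)) * T ^ (2 * k + 2) * (1 / N) /
              (T / y ^ 4) ^ 2) := by ring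
        _ ≤ (3 * y ^ 16) * (y * T ^ (2 * k + 2) * (2 / y ^ 320) / (T / y ^ 4) ^ 2) := by gcongr
        _ = T ^ (2 * k) / y ^ 3 * (6 / y ^ 292) := by
            rw [pow_add]; field_simp; ring
        _ ≤ T ^ (2 * k) / y ^ 3 * 1 := by
            gcongr
            rw [div_le_one (by positivity)]
            linarith [hyn 292 (by norm_num)]
        _ = b := by rw [mul_one]
  -- U6
  have u6 : ∑ i ∈ Finset.range (J + 1), mP (Fin k ⊕ Fin k) T
      (⋃ π ∈ (Pk k)ᶜ, {γ | T / y ^ 8 < ‖IG (i * (T / J)) γ π‖}) ≤ ENNReal.ofReal b := by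
    refine sum_ofReal_le' (b := P0 * (C6 * T ^ (2 * k + 1) * Real.log T ^ 2 / (T / y ^ 8) ^ 2))
      (fun i hi => ?_) ?_
    · obtain ⟨g0, g1⟩ := hgrid i hi
      refine (measure_biUnion_finset_le _ _).trans ?_
      calc ∑ π ∈ (Pk k)ᶜ, mP (Fin k ⊕ Fin k) T {γ | T / y ^ 8 < ‖IG (i * (T / J)) γ π‖}
          ≤ ∑ _π ∈ (Pk k)ᶜ, ENNReal.ofReal (C6 * T ^ (2 * k + 1) * Real.log T ^ 2 / (T / y ^ 8) ^ 2) := by
            refine Finset.sum_le_sum fun π hπ => ?_
            have hπ' : ∃ j, (π (Sum.inr j)).isLeft = true := by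
              rw [Finset.mem_compl, Pk, Finset.mem_filter, not_and] at hπ
              have := hπ (Finset.mem_univ _)
              push Not at this
              obtain ⟨j, hj⟩ := this
              exact ⟨j, by simpa using hj⟩
            exact cheb ((IG_cont _ π).norm.aemeasurable) (by positivity)
              (h6 T _ π hTT6 g0 g1 hπ')
        _ = ENNReal.ofReal (((Pk k)ᶜ.card : ℝ) * (C6 * T ^ (2 * k + 1) * Real.log T ^ 2 /
              (T / y ^ 8) ^ 2)) := by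
            rw [Finset.sum_const, nsmul_eq_mul, ENNReal.ofReal_mul (by positivity),
              ENNReal.ofReal_natCast]
        _ ≤ _ := by
            refine ENNReal.ofReal_le_ofReal ?_
            gcongr
            rw [hP0]
            exact_mod_cast Finset.card_le_univ _
    · calc ((J + 1 : ℕ) : ℝ) * (P0 * (C6 * T ^ (2 * k + 1) * Real.log T ^ 2 / (T / y ^ 8) ^ 2))
          = ((J + 1 : ℕ) : ℝ) * ((P0 * C6 * Real.log T ^ 2) * T ^ (2 * k + 1) / (T / y ^ 8) ^ 2) := by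
            ring
        _ ≤ (3 * y ^ 16) * (y * T ^ (2 * k + 1) / (T / y ^ 8) ^ 2) := by gcongr
        _ = T ^ (2 * k) / y ^ 3 * (3 * y ^ 36 / T) := by
            rw [pow_add]; field_simp
        _ ≤ T ^ (2 * k) / y ^ 3 * 1 := by
            gcongr
            rw [div_le_one hTp]
            refine le_trans ?_ hyT
            calc 3 * y ^ 36 ≤ y ^ 4 * y ^ 36 := by
                  gcongr
                  linarith [hyn 4 (by norm_num)]
              _ = y ^ 40 := by ring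
        _ = b := by rw [mul_one]
  -- U7
  have u7 : ∑ i ∈ Finset.range J, mP (Fin k ⊕ Fin k) T {γ | T / y ^ 4 <
      ∫ t in (i * (T / J))..((i + 1 : ℕ) * (T / J)),
        ‖∏ j : Fin k, z (t + γ (Sum.inl j)) * (starRingEnd ℂ) (z (t + γ (Sum.inr j)))‖} ≤
      ENNReal.ofReal b := by
    refine sum_ofReal_le' (b := C2 * (T / J) ^ 2 * Real.log T ^ (2 * k) * T ^ (2 * k) / (T / y ^ 4) ^ 2)
      (fun i hi => ?_) ?_
    · obtain ⟨g0, _⟩ := hgrid i (Finset.mem_range.2 (by have := Finset.mem_range.1 hi; omega))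
      obtain ⟨_, g1⟩ := hgrid (i + 1) (Finset.mem_range.2 (by have := Finset.mem_range.1 hi; omega))
      have hle : (i:ℝ) * (T / J) ≤ ((i + 1 : ℕ) : ℝ) * (T / J) := by
        gcongr
        push_cast; linarith
      have hh := h2 T _ _ hTT2 g0 hle g1
      have e : ((i + 1 : ℕ) : ℝ) * (T / J) - i * (T / J) = T / J := by push_cast; ring
      rw [e] at hh
      exact cheb ((intnorm_cont _ _).aemeasurable) (by positivity) hh
    · calc (J:ℝ) * (C2 * (T / J) ^ 2 * Real.log T ^ (2 * k) * T ^ (2 * k) / (T / y ^ 4) ^ 2)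
          = (C2 * Real.log T ^ (2 * k)) * T ^ (2 * k) * y ^ 8 * (1 / J) := by
            field_simp
        _ ≤ y * T ^ (2 * k) * y ^ 8 * (1 / y ^ 16) := by
            have := P.hJl
            gcongr
        _ = T ^ (2 * k) / y ^ 3 * (1 / y ^ 4) := by field_simp
        _ ≤ T ^ (2 * k) / y ^ 3 * 1 := by
            gcongr
            rw [div_le_one (by positivity)]
            exact hy1' 4
        _ = b := by rw [mul_one]
  -- U8
  have u8 : mP (Fin k ⊕ Fin k) T (Sep k T)ᶜ ≤ ENNReal.ofReal b := by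
    refine (hNS k T (by linarith)).trans (ENNReal.ofReal_le_ofReal ?_)
    have e : T ^ (2 * k - 1 / 2 : ℝ) = T ^ (2 * k) / T ^ (1 / 2 : ℝ) := by
      rw [Real.rpow_sub hTp]
      congr 1
      rw [← Real.rpow_natCast]; push_cast; rfl
    rw [e]
    have hyT2 := P.hyT
    calc 8 * (k:ℝ) ^ 2 * (T ^ (2 * k) / T ^ (1 / 2 : ℝ)) ≤ y * (T ^ (2 * k) / y ^ 40) := by gcongr
      _ = T ^ (2 * k) / y ^ 3 * (1 / y ^ 36) := by field_simp
      _ ≤ T ^ (2 * k) / y ^ 3 * 1 := by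
          gcongr
          rw [div_le_one (by positivity)]
          exact hy1' 36
      _ = b := by rw [mul_one]
  -- conclusion
  rw [P.e1, P.e2]
  refine (measure_mono (Bad_sub hINV hD ψ P hC7 hone hZ hZ0)).trans ?_
  have step : ∀ {A B : Set (Fin k ⊕ Fin k → ℝ)} {x z : ℝ}, 0 ≤ x → 0 ≤ z →
      mP (Fin k ⊕ Fin k) T A ≤ ENNReal.ofReal x → mP (Fin k ⊕ Fin k) T B ≤ ENNReal.ofReal z →
      mP (Fin k ⊕ Fin k) T (A ∪ B) ≤ ENNReal.ofReal (x + z) := by
    intro A B x z hx hz hA hB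
    rw [ENNReal.ofReal_add hx hz]
    exact (measure_union_le _ _).trans (add_le_add hA hB)
  have tot := step (by positivity) (by positivity) (step (by positivity) (by positivity)
    (step (by positivity) (by positivity) (step (by positivity) (by positivity)
    (step (by positivity) (by positivity) (step (by positivity) (by positivity) u8 u3) u4) u5)
    ((measure_biUnion_finset_le _ _).trans u1)) ((measure_biUnion_finset_le _ _).trans u6))
    ((measure_biUnion_finset_le _ _).trans u7)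
  refine tot.trans (ENNReal.ofReal_le_ofReal ?_)
  have e7 : b + b + b + b + b + b + b = 7 * b := by ring
  rw [e7, hb]
  calc 7 * (T ^ (2 * k) / y ^ 3) ≤ y * (T ^ (2 * k) / y ^ 3) := by
        gcongr
        linarith
    _ = T ^ (2 * k) / y ^ 2 := by field_simp

end

end Pool.Agent.TH612.GS
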