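import Pool.Agent.TH612.GS.Stm2

set_option autoImplicit false

/-! The product of zeta values against the product of short polynomials. -/

namespace Pool.Agent.TH612.GS

open Complex Filter Topology MeasureTheory Set
open Pool.Agent.TH612.CF
open Pool.Agent.W182.KO hiding ee SS_summable

noncomputable section

lemma z_cont : Continuous z := by
  have hh := H306R2.zeta_line_continuous
  refine hh.congr fun t => ?_
  unfold z
  congr 1
  ring

lemma PN_cont (N : ℕ) : Continuous (PN N) := by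
  unfold PN zN
  refine continuous_finsetSum _ fun n hn => ?_
  have hn1 : 1 ≤ n := (Finset.mem_Icc.1 hn).1
  have hn0 : (n : ℂ) ≠ 0 := by exact_mod_cast (by omega : n ≠ 0)
  exact Continuous.const_cpow (by fun_prop) (Or.inl hn0)

lemma shift_le {f : ℝ → ℂ} (hf : Continuous f) {T t : ℝ} (ht0 : 0 ≤ t) (htT : t ≤ T) :
    ∫ y in (0:ℝ)..T, ‖f (t + y)‖ ^ 2 ≤ ∫ u in (0:ℝ)..(2 * T), ‖f u‖ ^ 2 := by
  have hT : 0 ≤ T := ht0.trans htT
  rw [intervalIntegral.integral_comp_add_left (fun u => ‖f u‖ ^ 2) t]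
  have hc : Continuous fun u => ‖f u‖ ^ 2 := by fun_prop
  refine intervalIntegral.integral_mono_interval (by linarith) (by linarith) (by linarith) ?_
    (hc.intervalIntegrable _ _)
  exact Eventually.of_forall fun u => by positivity

/-- the factors -/
def fz (k : ℕ) (f : ℝ → ℂ) (i : Fin k ⊕ Fin k) (u : ℝ) : ℂ :=
  Sum.elim (fun _ => f u) (fun _ => (starRingEnd ℂ) (f u)) i

lemma fz_norm {k : ℕ} (f : ℝ → ℂ) (i : Fin k ⊕ Fin k) (u : ℝ) : ‖fz k f i u‖ = ‖f u‖ := by
  cases i <;> simp [fz]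

lemma fz_cont {k : ℕ} {f : ℝ → ℂ} (hf : Continuous f) (i : Fin k ⊕ Fin k) : Continuous (fz k f i) := by
  cases i with
  | inl j => exact hf
  | inr j => exact Complex.continuous_conj.comp hf

lemma fz_prod {k : ℕ} (f : ℝ → ℂ) (t : ℝ) (γ : Fin k ⊕ Fin k → ℝ) :
    ∏ i, fz k f i (t + γ i) = ∏ j : Fin k, f (t + γ (Sum.inl j)) *
      (starRingEnd ℂ) (f (t + γ (Sum.inr j))) := by
  rw [Fintype.prod_sum_type, Finset.prod_mul_distrib]
  rfl

lemma int_conj (g : ℝ → ℂ) (a b : ℝ) : ∫ t in a..b, (starRingEnd ℂ) (g t) =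
    (starRingEnd ℂ) (∫ t in a..b, g t) := by
  simp only [intervalIntegral.intervalIntegral_eq_integral_uIoc, integral_conj]
  split_ifs <;> simp

theorem t_Z1 (hREP : S_REP) (hOP : S_OP) (hSM : S_SM) (hSP : S_SP) : S_Z1 := by
  intro k
  obtain ⟨C1, T1, hC1, hT1, h1⟩ := hOP
  obtain ⟨C2, T2, hC2, hT2, h2⟩ := hSM
  obtain ⟨C3, T3, hC3, hT3, h3⟩ := hSP
  rcases Nat.eq_zero_or_pos k with hk | hk
  · subst hk
    refine ⟨1, 3, by norm_num, le_rfl, fun T S N hT hS0 hST hN _ => ?_⟩
    simp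
  refine ⟨4 ^ (2 * k) * C1 * (C2 + C3) ^ (2 * k - 1), max 3 (max T1 (max T2 T3)), by positivity,
    le_max_left _ _, fun T S N hT hS0 hST hN hNT => ?_⟩
  have hT3' : 3 ≤ T := (le_max_left _ _).trans hT
  have hTT1 : T1 ≤ T := ((le_max_left _ _).trans (le_max_right _ _)).trans hT
  have hTT2 : T2 ≤ T := (((le_max_left _ _).trans (le_max_right _ _)).trans (le_max_right _ _)).trans hT
  have hTT3 : T3 ≤ T := (((le_max_right _ _).trans (le_max_right _ _)).trans (le_max_right _ _)).trans hT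
  have hT0 : 0 < T := by linarith
  have hNr : (1:ℝ) ≤ N := by exact_mod_cast hN
  have hlog : 1 ≤ Real.log T := by
    rw [Real.le_log_iff_exp_le hT0]
    exact (Real.exp_one_lt_d9.le.trans (by norm_num)).trans hT3'
  have hNT' : (N : ℝ) ≤ T := hNT.trans (by
    calc T ^ (1 / 2 : ℝ) ≤ T ^ (1:ℝ) := Real.rpow_le_rpow_of_exponent_le (by linarith) (by norm_num)
      _ = T := Real.rpow_one T)
  set K : ℝ := C1 * T ^ 2 / N with hK
  set V : ℝ := (C2 + C3) * T * Real.log T with hV
  have hK0 : 0 ≤ K := by positivity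
  have hV0 : 0 ≤ V := by positivity
  have key := hREP (Fin k ⊕ Fin k) (fz k z) (fz k (PN N)) T S K V hS0 hST hK0 hV0
    (fun i => fz_cont z_cont i) (fun i => fz_cont (PN_cont N) i) ?_ ?_ ?_
  · have e1 : ∀ γ : Fin k ⊕ Fin k → ℝ,
        (∫ t in (0:ℝ)..S, (∏ i, fz k z i (t + γ i) - ∏ i, fz k (PN N) i (t + γ i))) =
        (∫ t in (0:ℝ)..S, ∏ j : Fin k, z (t + γ (Sum.inl j)) *
          (starRingEnd ℂ) (z (t + γ (Sum.inr j)))) -
        ∫ t in (0:ℝ)..S, ∏ j : Fin k, PN N (t + γ (Sum.inl j)) *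
          (starRingEnd ℂ) (PN N (t + γ (Sum.inr j))) := by
      intro γ
      rw [intervalIntegral.integral_sub]
      · simp only [fz_prod]
      · refine Continuous.intervalIntegrable ?_ _ _
        exact continuous_finsetProd _ fun i _ => (fz_cont z_cont i).comp (by fun_prop)
      · refine Continuous.intervalIntegrable ?_ _ _
        exact continuous_finsetProd _ fun i _ => (fz_cont (PN_cont N) i).comp (by fun_prop)
    simp only [e1] at key
    refine key.trans (ENNReal.ofReal_le_ofReal ?_)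
    have hc : Fintype.card (Fin k ⊕ Fin k) = 2 * k := by
      rw [Fintype.card_sum, Fintype.card_fin]; ring
    rw [hc]
    obtain ⟨m, hm⟩ : ∃ m, 2 * k = m + 1 := ⟨2 * k - 1, by omega⟩
    rw [hm, Nat.add_sub_cancel, hV, hK, mul_pow, mul_pow]
    have e2 : (4:ℝ) ^ (m + 1) * (C1 * T ^ 2 / N) * ((C2 + C3) ^ m * T ^ m * Real.log T ^ m) * S ≤
        4 ^ (m + 1) * (C1 * T ^ 2 / N) * ((C2 + C3) ^ m * T ^ m * Real.log T ^ (m + 1)) * T := by
      have h4 : Real.log T ^ m ≤ Real.log T ^ (m + 1) := pow_le_pow_right₀ hlog (by omega)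
      gcongr
    refine e2.trans (le_of_eq ?_)
    field_simp
    ring
  · intro i R hR
    cases i with
    | inl j =>
      have := h1 T S N R hTT1 hS0 hST hN hNT hR
      simpa [fz] using this
    | inr j =>
      have := h1 T S N (fun t => (starRingEnd ℂ) (R t)) hTT1 hS0 hST hN hNT
        (Complex.continuous_conj.comp hR)
      simp only [Complex.norm_conj] at this
      refine le_trans (le_of_eq ?_) this
      refine intervalIntegral.integral_congr fun y _ => ?_
      have e3 : (∫ t in (0:ℝ)..S, (fz k z (Sum.inr j) (t + y) - fz k (PN N) (Sum.inr j) (t + y)) * R t) =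
          (starRingEnd ℂ) (∫ t in (0:ℝ)..S, (z (t + y) - PN N (t + y)) * (starRingEnd ℂ) (R t)) := by
        rw [← int_conj]
        refine intervalIntegral.integral_congr fun t _ => ?_
        simp only [fz, Sum.elim_inr, map_mul, map_sub, Complex.conj_conj]
      change ‖_‖ ^ 2 = ‖_‖ ^ 2
      rw [e3, Complex.norm_conj]
  · intro i t ht
    simp only [fz_norm]
    refine (shift_le z_cont ht.1 (ht.2.trans hST)).trans ((h2 T hTT2).trans ?_)
    rw [hV]
    gcongr
    linarith
  · intro i t ht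
    simp only [fz_norm]
    refine (shift_le (PN_cont N) ht.1 (ht.2.trans hST)).trans ((h3 T N hTT3 hN hNT').trans ?_)
    rw [hV]
    gcongr
    linarith

theorem t_Z2 (hREP : S_REP2) (hSM : S_SM) : S_Z2 := by
  intro k
  obtain ⟨C2, T2, hC2, hT2, h2⟩ := hSM
  refine ⟨C2 ^ (2 * k), max 3 T2, by positivity, le_max_left _ _, fun T A B hT hA hAB hBT => ?_⟩
  have hT3' : 3 ≤ T := (le_max_left _ _).trans hT
  have hTT2 : T2 ≤ T := (le_max_right _ _).trans hT
  have hT0 : 0 < T := by linarith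
  have hlog : 0 ≤ Real.log T := Real.log_nonneg (by linarith)
  have key := hREP (Fin k ⊕ Fin k) (fz k z) T A B (C2 * T * Real.log T) hA hAB hBT (by positivity)
    (fun i => fz_cont z_cont i) (fun i t ht => ?_)
  · simp only [fz_prod] at key
    refine key.trans (ENNReal.ofReal_le_ofReal (le_of_eq ?_))
    have hc : Fintype.card (Fin k ⊕ Fin k) = 2 * k := by
      rw [Fintype.card_sum, Fintype.card_fin]; ring
    rw [hc, mul_pow, mul_pow]
    ring
  · simp only [fz_norm]
    exact (shift_le z_cont ht.1 ht.2).trans (h2 T hTT2)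

end

end Pool.Agent.TH612.GS
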