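import Pool.Agent.TH612.GS.Stm2
import Pool.Agent.TH612.GS.Z

set_option autoImplicit false

/-!
Project GF: for `k ≤ 4` and fixed `α` with distinct coordinates the shifted moments of zeta of order
`2k` follow the recipe for almost all `β` in `[0,T]^k`. Statements of the parts.
-/

namespace Pool.Agent.TH612.GS

open Complex Filter Topology MeasureTheory Set
open Pool.Agent.TH612.CF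
open Pool.Agent.W182.KO hiding ee SS_summable
open scoped ContDiff

noncomputable section

variable {k : ℕ}

/-- the shift vector -/
def gab (α β : Fin k → ℝ) : Fin k ⊕ Fin k → ℝ := Sum.elim α β

/-- the fixed block -/
def AA (α : Fin k → ℝ) (t : ℝ) : ℂ := ∏ j, z (t + α j)

/-- A2: mean square of the fixed block -/
def S_A2 : Prop := ∀ (k : ℕ) (α : Fin k → ℝ), k ≤ 4 → ∃ C T₀ : ℝ, 0 < C ∧ 2 ≤ T₀ ∧ ∀ T : ℝ, T₀ ≤ T →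
  ∫ t in (0:ℝ)..T, ‖AA α t‖ ^ 2 ≤ C * T ^ (7 / 4 : ℝ)

/-- AQ: approximation of zeta by its partial sum of length about `T`, in `L¹` -/
def S_AQ : Prop := ∃ C T₀ : ℝ, 0 < C ∧ 2 ≤ T₀ ∧ ∀ (T : ℝ) (X : ℕ), T₀ ≤ T → 2 * T ≤ X →
  (X : ℝ) ≤ 4 * T → ∫ u in (0:ℝ)..(2 * T), ‖z u - PN X u‖ ≤ C * (T ^ (1 / 2 : ℝ) * Real.log T)

/-- OQ: the difference as a convolution operator -/
def S_OQ : Prop := ∃ C T₀ : ℝ, 0 < C ∧ 2 ≤ T₀ ∧ ∀ (T S : ℝ) (X : ℕ) (R : ℝ → ℂ), T₀ ≤ T →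
  0 ≤ S → S ≤ T → 2 * T ≤ X → (X : ℝ) ≤ 4 * T → Continuous R →
  ∫ y in (0:ℝ)..T, ‖∫ t in (0:ℝ)..S, (z (t + y) - PN X (t + y)) * R t‖ ^ 2 ≤
    C * (T * Real.log T ^ 2) * ∫ t in (0:ℝ)..S, ‖R t‖ ^ 2

/-- VQ: second moment of the partial sum -/
def S_VQ : Prop := ∃ C T₀ : ℝ, 0 < C ∧ 2 ≤ T₀ ∧ ∀ (T : ℝ) (X : ℕ), T₀ ≤ T → 1 ≤ X →
  (X : ℝ) ≤ 4 * T → ∫ u in (0:ℝ)..(2 * T), ‖PN X u‖ ^ 2 ≤ C * T * Real.log T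

/-- REPA: replacement of all the factors, with a fixed further factor `A` -/
def S_REPA : Prop := ∀ (ι : Type) [Fintype ι] (A : ℝ → ℂ) (f g : ι → ℝ → ℂ) (T S K V Q : ℝ), 0 ≤ S →
  S ≤ T → 0 ≤ K → 0 ≤ V → 0 ≤ Q → Continuous A → (∀ i, Continuous (f i)) → (∀ i, Continuous (g i)) →
  (∀ i, ∀ R : ℝ → ℂ, Continuous R →
    ∫ y in (0:ℝ)..T, ‖∫ t in (0:ℝ)..S, (f i (t + y) - g i (t + y)) * R t‖ ^ 2 ≤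
      K * ∫ t in (0:ℝ)..S, ‖R t‖ ^ 2) →
  (∀ i, ∀ t ∈ Icc 0 S, ∫ y in (0:ℝ)..T, ‖f i (t + y)‖ ^ 2 ≤ V) →
  (∀ i, ∀ t ∈ Icc 0 S, ∫ y in (0:ℝ)..T, ‖g i (t + y)‖ ^ 2 ≤ V) →
  ∫ t in (0:ℝ)..S, ‖A t‖ ^ 2 ≤ Q →
  ∫⁻ γ, ENNReal.ofReal (‖∫ t in (0:ℝ)..S, A t * (∏ i, f i (t + γ i) - ∏ i, g i (t + γ i))‖ ^ 2)
    ∂(mP ι T) ≤ ENNReal.ofReal (4 ^ Fintype.card ι * K * V ^ (Fintype.card ι - 1) * Q)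

/-- TMV: mean square of a sum of characters in `k` variables, length at most `4 T` -/
def S_TMV : Prop := ∀ k : ℕ, ∃ C : ℝ, 0 < C ∧ ∀ (T : ℝ) (X : ℕ) (a : (Fin k → ℕ) → ℂ), 4 ≤ T →
  (X : ℝ) ≤ 4 * T →
  ∫⁻ β, ENNReal.ofReal (‖∑ n ∈ Fintype.piFinset (fun _ : Fin k => Finset.Icc 1 X),
      a n * ∏ l, (n l : ℂ) ^ (I * (β l : ℂ))‖ ^ 2) ∂(mP (Fin k) T) ≤
    ENNReal.ofReal (C * T ^ k * ∑ n ∈ Fintype.piFinset (fun _ : Fin k => Finset.Icc 1 X), ‖a n‖ ^ 2)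

/-- MVB: dual mean value theorem for a dyadic block -/
def S_MVB : Prop := ∃ C : ℝ, 0 < C ∧ ∀ (a b : ℝ) (M : ℕ) (R : ℝ → ℂ), a ≤ b → 1 ≤ M →
  Continuous R → ∑ m ∈ Finset.Icc M (2 * M), ‖∫ t in a..b, R t * (m : ℂ) ^ (I * (t : ℂ))‖ ^ 2 ≤
    C * ((b - a) + M * Real.log (2 * M)) * ∫ t in a..b, ‖R t‖ ^ 2

/-- the twisted integral of the fixed block -/
def cI (α : Fin k → ℝ) (S : ℝ) (m : ℕ) : ℂ := ∫ t in (0:ℝ)..S, AA α t * (m : ℂ) ^ (I * (t : ℂ))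

open Classical in
/-- TL: the terms with a large product -/
def S_TL : Prop := ∀ (k : ℕ) (α : Fin k → ℝ), k ≤ 4 → ∃ C T₀ : ℝ, 0 < C ∧ 2 ≤ T₀ ∧
  ∀ (T S : ℝ) (X : ℕ), T₀ ≤ T → 0 ≤ S → S ≤ T → (X : ℝ) ≤ 4 * T →
  ∑ n ∈ (Fintype.piFinset (fun _ : Fin k => Finset.Icc 1 X)).filter
      (fun n => T ^ (7 / 8 : ℝ) < ((∏ l, n l : ℕ) : ℝ)),
    ((∏ l, n l : ℕ) : ℝ)⁻¹ * ‖cI α S (∏ l, n l)‖ ^ 2 ≤ C * T ^ (19 / 10 : ℝ)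

/-- ST: zeta in two strips -/
def S_ST : Prop := ∀ ε : ℝ, 0 < ε → ∃ C T₀ : ℝ, 0 < C ∧ 1 ≤ T₀ ∧ ∀ σ t : ℝ, T₀ ≤ t → σ ≤ 2 →
  (1 / 2 ≤ σ → ‖riemannZeta (σ + I * t)‖ ≤ C * t ^ (1 / 6 + ε)) ∧
  (5 / 7 ≤ σ → ‖riemannZeta (σ + I * t)‖ ≤ C * t ^ (1 / 14 + ε))

/-- DS: the twisted integral on a line to the right of `1` -/
def S_DS : Prop := ∀ (k : ℕ) (η : ℝ), 0 < η → η ≤ 1 → ∃ C : ℝ, 0 < C ∧ ∀ (α : Fin k → ℝ) (a b : ℝ)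
  (m : ℕ), a ≤ b → 1 ≤ m →
  ‖(∫ t in a..b, (∏ j, riemannZeta (1 + η + I * (t + α j))) * (m : ℂ) ^ (1 / 2 + η + I * t : ℂ)) -
    (b - a) * (tau (fun j => -(I * (α j : ℂ))) m * (m : ℂ) ^ (-(1 / 2) : ℂ))‖ ≤
  C * (m : ℝ) ^ (1 / 2 + 2 * η)

/-- TW: the twisted integrals with a small twist -/
def S_TW : Prop := ∀ (k : ℕ) (α : Fin k → ℝ), k ≤ 4 → ∃ C T₀ : ℝ, 0 < C ∧ 2 ≤ T₀ ∧
  ∀ (T S : ℝ) (m : ℕ), T₀ ≤ T → 0 ≤ S → S ≤ T → 1 ≤ m → (m : ℝ) ≤ T ^ (7 / 8 : ℝ) →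
  ‖cI α S m - S * (tau (fun j => -(I * (α j : ℂ))) m * (m : ℂ) ^ (-(1 / 2) : ℂ))‖ ≤
    C * T ^ (9 / 10 : ℝ)

open Classical in
/-- HD: a tail of a convergent sum -/
def S_HD : Prop := ∀ (k : ℕ) (α : Fin k → ℝ), ∃ C : ℝ, 0 < C ∧ ∀ (X : ℕ) (W : ℝ), 1 ≤ W →
  ∑ n ∈ (Fintype.piFinset (fun _ : Fin k => Finset.Icc 1 X)).filter
      (fun n => W ≤ ((∏ l, n l : ℕ) : ℝ)),
    ((∏ l, n l : ℕ) : ℝ)⁻¹ * (‖tau (fun j => -(I * (α j : ℂ))) (∏ l, n l)‖ ^ 2 *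
      ((∏ l, n l : ℕ) : ℝ)⁻¹) ≤ C * W ^ (-(4 / 5) : ℝ)

/-- separated `β` -/
def SepA (α : Fin k → ℝ) (T : ℝ) : Set (Fin k → ℝ) :=
  {β | (∀ l, 0 ≤ β l ∧ β l ≤ T) ∧ (∀ l l', l ≠ l' → T ^ (1 / 2 : ℝ) ≤ |β l - β l'|) ∧
    ∀ j l, T ^ (1 / 2 : ℝ) ≤ |β l - α j|}

/-- NA: almost all `β` are separated -/
def S_NA : Prop := ∀ (k : ℕ) (α : Fin k → ℝ), ∃ C T₀ : ℝ, 0 < C ∧ 1 ≤ T₀ ∧ ∀ T : ℝ, T₀ ≤ T →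
  mP (Fin k) T (SepA α T)ᶜ ≤ ENNReal.ofReal (C * T ^ (k - 1 / 2 : ℝ))

/-- GL3: mean square over `β` of `GM` to the left -/
def S_GL3 : Prop := ∀ (k : ℕ) (α : Fin k → ℝ), ∃ C : ℝ, 0 < C ∧ ∀ (T : ℝ) (M : ℕ) (v : ℝ), 1 ≤ M →
  2 * (M : ℝ) ^ (3 * k ^ 2) ≤ T → 4 ≤ T →
  ∫⁻ β, ENNReal.ofReal (‖GM M (gab α β) (-(1 / 4) + I * v)‖ ^ 2) ∂(mP (Fin k) T) ≤
    ENNReal.ofReal (C * T ^ k)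

/-- A5: mean square over `β` of the difference of the smoothed sum and `GM M γ 0` -/
def S_A5 : Prop := ∀ (k : ℕ) (α : Fin k → ℝ) (ψ : ℝ → ℝ), Cut ψ → ∃ (C : ℝ) (M₀ : ℕ), 0 < C ∧
  2 ≤ M₀ ∧ ∀ (T : ℝ) (M : ℕ), M₀ ≤ M → 4 ≤ T → 2 * (M : ℝ) ^ (3 * k ^ 2) ≤ T →
  ∫⁻ β, ENNReal.ofReal (‖SP ψ M (gab α β) - GM M (gab α β) 0‖ ^ 2) ∂(mP (Fin k) T) ≤
    ENNReal.ofReal (C * T ^ k * (M : ℝ) ^ (-(1 / 8) : ℝ))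

/-- ZN: from `GM M γ 0` to `zr γ`, mean square over `β` -/
def S_ZN : Prop := ∀ (k : ℕ) (α : Fin k → ℝ), ∃ (C T₀ : ℝ) (B : ℕ), 0 < C ∧ 3 ≤ T₀ ∧
  ∀ (T : ℝ) (M : ℕ), T₀ ≤ T → 1 ≤ M → (M : ℝ) ≤ T ^ (1 / 2 : ℝ) →
  ∫⁻ β in SepA α T, ENNReal.ofReal (‖GM M (gab α β) 0 - zr (gab α β)‖ ^ 2) ∂(mP (Fin k) T) ≤
    ENNReal.ofReal (C * Real.log T ^ B * T ^ k / M)

/-- SW3: the terms with at least one swap are small on average over `β` -/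
def S_SW3 : Prop := ∀ (k : ℕ) (α : Fin k → ℝ), ∃ C T₀ : ℝ, 0 < C ∧ 3 ≤ T₀ ∧ ∀ (T S : ℝ)
  (π : Equiv.Perm (Fin k ⊕ Fin k)), T₀ ≤ T → 0 ≤ S → S ≤ T → (∃ j, (π (Sum.inr j)).isLeft = true) →
  ∫⁻ β, ENNReal.ofReal (‖∫ t in (0:ℝ)..S, GG t (fun i => (gab α β i : ℂ)) π‖ ^ 2)
    ∂(mP (Fin k) T) ≤ ENNReal.ofReal (C * T ^ (k + 1) * Real.log T ^ 2)

/-- ZA: the values of `ζ_{π(γ)}(1/2)` for separated `β` -/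
def S_ZA : Prop := ∀ (k : ℕ) (α : Fin k → ℝ), Function.Injective α → ∃ (C T₀ : ℝ) (B : ℕ), 0 < C ∧
  3 ≤ T₀ ∧ ∀ T : ℝ, T₀ ≤ T → ∀ β ∈ SepA α T, ∀ π : Equiv.Perm (Fin k ⊕ Fin k),
  ‖zab (fun j => (gab α β (π (Sum.inl j)) : ℂ)) (fun j => (gab α β (π (Sum.inr j)) : ℂ))‖ ≤
    C * Real.log T ^ B

/-- W: the product of zeta values against the smoothed diagonal sum, mean square over `β` -/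
def S_W : Prop := ∀ (k : ℕ) (α : Fin k → ℝ) (ψ : ℝ → ℝ), k ≤ 4 → Cut ψ → ∃ C T₀ : ℝ, 0 < C ∧
  4 ≤ T₀ ∧ ∀ (T S : ℝ) (M : ℕ), T₀ ≤ T → 0 ≤ S → S ≤ T → 2 ≤ M → (M : ℝ) ≤ T ^ (1 / 2 : ℝ) →
  ∫⁻ β, ENNReal.ofReal (‖(∫ t in (0:ℝ)..S, Zg (gab α β) t) - S * SP ψ M (gab α β)‖ ^ 2)
    ∂(mP (Fin k) T) ≤
    ENNReal.ofReal (C * T ^ (k + 2) * (T ^ (-(1 / 20) : ℝ) + (M : ℝ) ^ (-(1 / 8) : ℝ)))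

end

end Pool.Agent.TH612.GS
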