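import Pool.Agent.TH612.GS.Asm6
import Pool.Agent.TH612.GS.Stm3

set_option autoImplicit false

/-! Project GF: the exceptional set for fixed `α`. -/

namespace Pool.Agent.TH612.GS

open Complex Filter Topology MeasureTheory Set
open Pool.Agent.TH612.CF
open Pool.Agent.W182.KO hiding ee SS_summable
open scoped ContDiff

noncomputable section

variable {k : ℕ}

lemma gab_cont (α : Fin k → ℝ) : Continuous fun β : Fin k → ℝ => gab α β := by
  unfold gab
  refine continuous_pi fun i => ?_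
  rcases i with i | i
  · simp only [Sum.elim_inl]; exact continuous_const
  · simp only [Sum.elim_inr]; exact continuous_apply i

/-- the exceptional set -/
def BadA (α : Fin k → ℝ) (T S lam : ℝ) : Set (Fin k → ℝ) :=
  {β | (∀ i, 0 ≤ β i ∧ β i ≤ T) ∧ lam < ‖DD S (gab α β)‖}

/-- the main difference -/
def WA (ψ : ℝ → ℝ) (M : ℕ) (S : ℝ) (γ : Fin k ⊕ Fin k → ℝ) : ℂ :=
  (∫ t in (0:ℝ)..S, Zg γ t) - S * SP ψ M γ

lemma WA_cont (ψ : ℝ → ℝ) (M : ℕ) (S : ℝ) : Continuous fun γ : Fin k ⊕ Fin k → ℝ => WA ψ M S γ := by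
  unfold WA
  refine Continuous.sub ?_ (continuous_const.mul (SP_cont ψ M))
  have := intprod_cont (k := k) z_cont S
  simpa only [Zg_fz] using this

lemma DD_leA (hINV : S_INV) (ψ : ℝ → ℝ) {N : ℕ} {S T Zb : ℝ} (hS : 0 ≤ S)
    (hST : S ≤ T) {γ : Fin k ⊕ Fin k → ℝ} (hz : ∀ π, ‖zp γ π‖ ≤ Zb) :
    ‖DD S γ‖ ≤ ‖WA ψ N S γ‖ + T * ‖SP ψ N γ - GM N γ 0‖ + T * ‖GM N γ 0 - zr γ‖ +
      Zb * ∑ π ∈ (Pk k)ᶜ, ‖IG S γ π‖ := by
  rw [DD_eq hINV]
  have e2 : (∫ t in (0:ℝ)..S, Zg γ t) - S * zr γ -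
      ((Nat.factorial k : ℂ) ^ 2)⁻¹ * ∑ π ∈ (Pk k)ᶜ, IG S γ π * zp γ π =
      WA ψ N S γ + S * (SP ψ N γ - GM N γ 0) +
      S * (GM N γ 0 - zr γ) - ((Nat.factorial k : ℂ) ^ 2)⁻¹ * ∑ π ∈ (Pk k)ᶜ, IG S γ π * zp γ π := by
    unfold WA; ring
  rw [e2]
  have n1 : ∀ w : ℂ, ‖(S:ℂ) * w‖ ≤ T * ‖w‖ := by
    intro w
    rw [norm_mul, Complex.norm_real, Real.norm_of_nonneg hS]
    gcongr
  have n2 : ‖((Nat.factorial k : ℂ) ^ 2)⁻¹ * ∑ π ∈ (Pk k)ᶜ, IG S γ π * zp γ π‖ ≤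
      Zb * ∑ π ∈ (Pk k)ᶜ, ‖IG S γ π‖ := by
    rw [norm_mul]
    calc _ ≤ 1 * ‖∑ π ∈ (Pk k)ᶜ, IG S γ π * zp γ π‖ := by
          gcongr
          exact inv_le_one
      _ ≤ 1 * ∑ π ∈ (Pk k)ᶜ, ‖IG S γ π * zp γ π‖ := by
          gcongr
          exact norm_sum_le _ _
      _ ≤ 1 * ∑ π ∈ (Pk k)ᶜ, ‖IG S γ π‖ * Zb := by
          gcongr with π hπ
          rw [norm_mul]
          gcongr
          exact hz π
      _ = _ := by rw [one_mul, ← Finset.sum_mul, mul_comm]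
  have n5 := n1 (SP ψ N γ - GM N γ 0)
  have n6 := n1 (GM N γ 0 - zr γ)
  refine (norm_sub_le _ _).trans (add_le_add ?_ n2)
  refine (norm_add_le _ _).trans (add_le_add ?_ n6)
  exact (norm_add_le _ _).trans (add_le_add le_rfl n5)

lemma SepA_meas (α : Fin k → ℝ) (T : ℝ) : MeasurableSet (SepA α T) := by
  have : SepA α T = (⋂ i, {β : Fin k → ℝ | 0 ≤ β i ∧ β i ≤ T}) ∩
      ((⋂ p, ⋂ q, {β : Fin k → ℝ | p ≠ q → T ^ (1 / 2 : ℝ) ≤ |β p - β q|}) ∩
      ⋂ j, ⋂ l, {β : Fin k → ℝ | T ^ (1 / 2 : ℝ) ≤ |β l - α j|}) := by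
    ext β
    simp [SepA]
  rw [this]
  refine IsClosed.measurableSet ?_
  refine IsClosed.inter (isClosed_iInter fun i => ?_) (IsClosed.inter
    (isClosed_iInter fun p => isClosed_iInter fun q => ?_)
    (isClosed_iInter fun p => isClosed_iInter fun q => ?_))
  · exact (isClosed_le continuous_const (continuous_apply i)).inter
      (isClosed_le (continuous_apply i) continuous_const)
  · by_cases h : p = q
    · simp [h]
    · simp only [ne_eq, h, not_false_eq_true, true_imp_iff]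
      exact isClosed_le continuous_const (by fun_prop)
  · exact isClosed_le continuous_const (by fun_prop)

lemma zrA_cont (α : Fin k → ℝ) {T : ℝ} (hT : 1 ≤ T) :
    ContinuousOn (fun β : Fin k → ℝ => zr (gab α β)) (SepA α T) := by
  set U : Set (Fin k → ℝ) := {β | ∀ j l : Fin k, α j ≠ β l} with hU
  have hUo : IsOpen U := by
    have : U = ⋂ j : Fin k, ⋂ l : Fin k, {β : Fin k → ℝ | α j ≠ β l} := by
      ext γ; simp [hU]
    rw [this]
    exact isOpen_iInter_of_finite fun j => isOpen_iInter_of_finite fun l =>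
      isOpen_ne_fun continuous_const (continuous_apply _)
  have hsub : SepA α T ⊆ U := by
    intro β hβ j l h
    have h1 := hβ.2.2 j l
    rw [h, sub_self, abs_zero] at h1
    have h2 : 0 < T ^ (1 / 2 : ℝ) := by positivity
    linarith
  refine ContinuousOn.mono ?_ hsub
  unfold zr zab gab
  simp only [Sum.elim_inl, Sum.elim_inr]
  refine ContinuousOn.mul ?_ ?_
  · refine FH_cont hUo (c := 1 / 8) (by norm_num) (fun j => by fun_prop) (fun j => by fun_prop)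
      fun γ _ j => ?_
    rw [Complex.ofReal_im, Complex.ofReal_im, abs_zero]
    norm_num
  · refine continuousOn_finsetProd _ fun j _ => continuousOn_finsetProd _ fun l _ => ?_
    refine zeta_cont (by fun_prop) fun β hβ => one_ne fun h => hβ j l ?_
    exact Complex.ofReal_injective h

open Classical in
/-- the pieces of the exceptional set -/
lemma BadA_sub (hINV : S_INV) (ψ : ℝ → ℝ) {θ C : ℝ} {B M₀ : ℕ} {T y : ℝ} {N J : ℕ}
    (P : Par k θ C B M₀ T y N J) (α : Fin k → ℝ) {Zb : ℝ} (hZb : 0 ≤ Zb)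
    (hz : ∀ β ∈ SepA α T, ∀ π, ‖zp (gab α β) π‖ ≤ Zb)
    (hZ : (Fintype.card (Equiv.Perm (Fin k ⊕ Fin k)) : ℝ) * Zb ≤ y) {S : ℝ} (hS0 : 0 ≤ S)
    (hST : S ≤ T) :
    BadA α T S (T / y ^ 2) ⊆ (SepA α T)ᶜ ∪ {β | T / y ^ 4 < ‖WA ψ N S (gab α β)‖} ∪
      {β | 1 / y ^ 4 < ‖SP ψ N (gab α β) - GM N (gab α β) 0‖} ∪
      (SepA α T ∩ {β | 1 / y ^ 4 < ‖GM N (gab α β) 0 - zr (gab α β)‖}) ∪
      (⋃ π ∈ (Pk k)ᶜ, {β | T / y ^ 8 < ‖IG S (gab α β) π‖}) := by
  intro β hβ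
  by_contra hcon
  simp only [mem_union, not_or, mem_iUnion, mem_ofPred_eq, not_exists, not_lt, mem_compl_iff,
    not_not, mem_inter_iff, not_and] at hcon
  obtain ⟨⟨⟨⟨g1, g2⟩, g3⟩, g4⟩, g6⟩ := hcon
  obtain ⟨hcube, hS⟩ := hβ
  have hT := P.hT
  have hT0 : 0 < T := by linarith
  have hy16 := P.hy16
  have hy0 : 0 < y := by linarith
  have h1 := DD_leA hINV ψ (N := N) hS0 hST (hz β g1)
  have b3 : T * ‖SP ψ N (gab α β) - GM N (gab α β) 0‖ ≤ T / y ^ 4 := by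
    calc _ ≤ T * (1 / y ^ 4) := by gcongr
      _ = _ := by ring
  have b5 : T * ‖GM N (gab α β) 0 - zr (gab α β)‖ ≤ T / y ^ 4 := by
    have := g4 g1
    calc _ ≤ T * (1 / y ^ 4) := by gcongr
      _ = _ := by ring
  have b6 : Zb * ∑ π ∈ (Pk k)ᶜ, ‖IG S (gab α β) π‖ ≤ T / y ^ 4 := by
    have c1 : ∑ π ∈ (Pk k)ᶜ, ‖IG S (gab α β) π‖ ≤
        (Fintype.card (Equiv.Perm (Fin k ⊕ Fin k)) : ℝ) * (T / y ^ 8) := by
      calc _ ≤ ∑ _π ∈ (Pk k)ᶜ, T / y ^ 8 := Finset.sum_le_sum fun π hπ => g6 π hπ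
        _ = ((Pk k)ᶜ.card : ℝ) * (T / y ^ 8) := by rw [Finset.sum_const, nsmul_eq_mul]
        _ ≤ _ := by
            gcongr
            exact_mod_cast Finset.card_le_univ _
    calc _ ≤ Zb * ((Fintype.card (Equiv.Perm (Fin k ⊕ Fin k)) : ℝ) * (T / y ^ 8)) := by gcongr
      _ = ((Fintype.card (Equiv.Perm (Fin k ⊕ Fin k)) : ℝ) * Zb) * (T / y ^ 8) := by ring
      _ ≤ y * (T / y ^ 8) := by gcongr
      _ = T / y ^ 4 * (1 / y ^ 3) := by field_simp
      _ ≤ T / y ^ 4 * 1 := by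
          gcongr
          rw [div_le_one (by positivity)]
          exact one_le_pow₀ (by linarith)
      _ = _ := mul_one _
  have k5 : 4 * (T / y ^ 4) ≤ T / y ^ 2 := by
    have : T / y ^ 2 = (T / y ^ 4) * y ^ 2 := by field_simp
    rw [this, mul_comm]
    gcongr
    nlinarith
  linarith

theorem mainA (hW : S_W) (hA5 : S_A5) (hZN : S_ZN) (hSW : S_SW3) (hZA : S_ZA) (hNA : S_NA)
    (hINV : S_INV) (k : ℕ) (hk : k ≤ 4) : ∃ δ : ℝ, 0 < δ ∧ ∀ α : Fin k → ℝ, Function.Injective α →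
      ∃ T₀ : ℝ, ∀ T : ℝ, T₀ ≤ T → ∀ S : ℝ, 0 ≤ S → S ≤ T →
      mP (Fin k) T (BadA α T S (T ^ (1 - δ))) ≤ ENNReal.ofReal (T ^ (k - δ : ℝ)) := by
  classical
  obtain ⟨θ, hθ, hpar⟩ := params k
  refine ⟨2 * θ, by positivity, fun α hα => ?_⟩
  obtain ⟨ψ, hψ⟩ := exists_cut
  obtain ⟨C1, T1, hC1, hT1, h1⟩ := hW k α ψ hk hψ
  obtain ⟨C4, M0, hC4, hM0, h4⟩ := hA5 k α ψ hψ
  obtain ⟨C5, T5, B5, hC5, hT5, h5⟩ := hZN k α
  obtain ⟨C6, T6, hC6, hT6, h6⟩ := hSW k α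
  obtain ⟨C7, T7, B7, hC7, hT7, h7⟩ := hZA k α hα
  obtain ⟨C8, T8, hC8, hT8, h8⟩ := hNA k α
  set P0 : ℝ := (Fintype.card (Equiv.Perm (Fin k ⊕ Fin k)) : ℝ) with hP0
  have hP0' : 0 ≤ P0 := Nat.cast_nonneg _
  set Ct : ℝ := C1 + C4 + C5 + P0 * C6 + P0 * C7 + C8 with hCt
  set Bt : ℕ := B5 + 2 + B7 with hBt
  obtain ⟨T0, hT0⟩ := hpar Ct Bt M0
  refine ⟨max T0 (max T1 (max T5 (max T6 (max T7 (max T8 4))))), fun T hT S hS0 hST => ?_⟩
  obtain ⟨y, N, J, P⟩ := hT0 T ((le_max_left _ _).trans hT)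
  have hT' := (le_max_right _ _).trans hT
  have hTT1 : T1 ≤ T := (le_max_left _ _).trans hT'
  have hT'' := (le_max_right _ _).trans hT'
  have hTT5 : T5 ≤ T := (le_max_left _ _).trans hT''
  have hT3 := (le_max_right _ _).trans hT''
  have hTT6 : T6 ≤ T := (le_max_left _ _).trans hT3
  have hT4 := (le_max_right _ _).trans hT3
  have hTT7 : T7 ≤ T := (le_max_left _ _).trans hT4
  have hT9 := (le_max_right _ _).trans hT4
  have hTT8 : T8 ≤ T := (le_max_left _ _).trans hT9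
  have hTT4 : 4 ≤ T := (le_max_right _ _).trans hT9
  have hTge := P.hT
  have hTp : 0 < T := by linarith
  have hL := P.hlog
  have hy16 := P.hy16
  have hy0 : 0 < y := by linarith
  have hy1 : 1 ≤ y := by linarith
  have hN1 : 1 ≤ N := by have := P.hN2; omega
  have hN0 : (0:ℝ) < N := by exact_mod_cast (by omega : 0 < N)
  have cst : ∀ (c : ℝ) (b : ℕ), 0 ≤ c → c ≤ Ct → b ≤ Bt → c * Real.log T ^ b ≤ y := by
    intro c b hc0 hc hb
    refine le_trans ?_ P.hC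
    have : Real.log T ^ b ≤ Real.log T ^ Bt := pow_le_pow_right₀ hL hb
    gcongr
  have hPC : 0 ≤ P0 * C6 := mul_nonneg hP0' hC6.le
  have hPC7 : 0 ≤ P0 * C7 := mul_nonneg hP0' hC7.le
  have c1 : C1 ≤ y := by simpa using cst C1 0 hC1.le (by rw [hCt]; linarith) (by omega)
  have c4 : C4 ≤ y := by simpa using cst C4 0 hC4.le (by rw [hCt]; linarith) (by omega)
  have c5 : C5 * Real.log T ^ B5 ≤ y := cst C5 _ hC5.le (by rw [hCt]; linarith) (by omega)
  have c6 : P0 * C6 * Real.log T ^ 2 ≤ y := cst _ _ hPC (by rw [hCt]; linarith) (by omega)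
  have c7 : P0 * C7 * Real.log T ^ B7 ≤ y := cst _ _ hPC7 (by rw [hCt]; linarith) (by omega)
  have c8 : C8 ≤ y := by simpa using cst C8 0 hC8.le (by rw [hCt]; linarith) (by omega)
  have hZ0 : 0 ≤ C7 * Real.log T ^ B7 := by positivity
  have hyT : y ^ 40 ≤ T := by
    refine P.hyT.trans ?_
    calc T ^ (1 / 2 : ℝ) ≤ T ^ (1:ℝ) := Real.rpow_le_rpow_of_exponent_le (by linarith) (by norm_num)
      _ = T := Real.rpow_one T
  set b : ℝ := T ^ k / y ^ 3 with hb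
  have hTk : 0 < T ^ k := by positivity
  have hb0 : 0 < b := by positivity
  have hNinv : 1 / (N:ℝ) ≤ 2 / y ^ 320 := by
    rw [div_le_div_iff₀ hN0 (by positivity)]
    have := P.hN
    linarith
  have hy1' : ∀ n : ℕ, 1 ≤ y ^ n := fun n => one_le_pow₀ hy1
  have hyn : ∀ n : ℕ, 1 ≤ n → 16 ≤ y ^ n := fun n hn =>
    hy16.trans (le_self_pow₀ hy1 (by omega))
  -- `T ^ (-1/20)`
  have hT20 : T ^ (-(1 / 20) : ℝ) ≤ 2 / y ^ 30 := by
    have e1 : (y ^ 320 / 2 : ℝ) ≤ T ^ (1 / 2 : ℝ) := P.hN.trans P.hNT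
    have e2 : (y ^ 320 / 2 : ℝ) ^ (1 / 10 : ℝ) ≤ (T ^ (1 / 2 : ℝ)) ^ (1 / 10 : ℝ) :=
      Real.rpow_le_rpow (by positivity) e1 (by norm_num)
    have e3 : (T ^ (1 / 2 : ℝ)) ^ (1 / 10 : ℝ) = T ^ (1 / 20 : ℝ) := by
      rw [← Real.rpow_mul hTp.le]; norm_num
    have e4 : (y ^ 320 : ℝ) ^ (1 / 10 : ℝ) = y ^ 32 := by
      rw [← Real.rpow_natCast, ← Real.rpow_mul hy0.le, ← Real.rpow_natCast]
      norm_num
    have e5 : (2:ℝ) ^ (1 / 10 : ℝ) ≤ 2 := by
      calc (2:ℝ) ^ (1 / 10 : ℝ) ≤ 2 ^ (1:ℝ) :=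
            Real.rpow_le_rpow_of_exponent_le (by norm_num) (by norm_num)
        _ = 2 := Real.rpow_one 2
    rw [Real.div_rpow (by positivity) (by norm_num), e4, e3] at e2
    have e6 : y ^ 30 / 2 ≤ T ^ (1 / 20 : ℝ) := by
      refine le_trans ?_ e2
      rw [div_le_div_iff₀ (by norm_num) (by positivity)]
      calc y ^ 30 * (2:ℝ) ^ (1 / 10 : ℝ) ≤ y ^ 30 * 2 := by gcongr
        _ ≤ y ^ 32 * 2 := by
            have : y ^ 30 ≤ y ^ 32 := pow_le_pow_right₀ hy1 (by norm_num)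
            linarith
    rw [Real.rpow_neg hTp.le, ← one_div, div_le_div_iff₀ (by positivity) (by positivity)]
    linarith
  -- U1
  have u1 : mP (Fin k) T {β | T / y ^ 4 < ‖WA ψ N S (gab α β)‖} ≤ ENNReal.ofReal b := by
    refine (cheb ((((WA_cont ψ N S).comp (gab_cont α)).norm).aemeasurable) (by positivity)
      (h1 T S N hTT1 hS0 hST P.hN2 P.hNT)).trans (ENNReal.ofReal_le_ofReal ?_)
    have e := P.hN8
    have e9 : T ^ (-(1 / 20) : ℝ) + (N:ℝ) ^ (-(1 / 8) : ℝ) ≤ 4 / y ^ 30 := by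
      have : 2 / y ^ 40 ≤ 2 / y ^ 30 := by
        have := pow_le_pow_right₀ hy1 (show 30 ≤ 40 by norm_num)
        gcongr
      calc _ ≤ 2 / y ^ 30 + 2 / y ^ 30 := add_le_add hT20 (e.trans this)
        _ = _ := by ring
    calc C1 * T ^ (k + 2) * (T ^ (-(1 / 20) : ℝ) + (N:ℝ) ^ (-(1 / 8) : ℝ)) / (T / y ^ 4) ^ 2
        ≤ y * T ^ (k + 2) * (4 / y ^ 30) / (T / y ^ 4) ^ 2 := by gcongr
      _ = T ^ k / y ^ 3 * (4 / y ^ 18) := by
          rw [pow_add]; field_simp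
      _ ≤ T ^ k / y ^ 3 * 1 := by
          gcongr
          rw [div_le_one (by positivity)]
          linarith [hyn 18 (by norm_num)]
      _ = b := by rw [mul_one]
  -- U4
  have u4 : mP (Fin k) T {β | 1 / y ^ 4 < ‖SP ψ N (gab α β) - GM N (gab α β) 0‖} ≤
      ENNReal.ofReal b := by
    refine (cheb (((((SP_cont ψ N).sub (GM0_cont N)).comp (gab_cont α)).norm).aemeasurable)
      (by positivity) (h4 T N P.hM hTT4 P.hN3)).trans (ENNReal.ofReal_le_ofReal ?_)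
    have e := P.hN8
    calc C4 * T ^ k * (N:ℝ) ^ (-(1 / 8) : ℝ) / (1 / y ^ 4) ^ 2
        ≤ y * T ^ k * (2 / y ^ 40) / (1 / y ^ 4) ^ 2 := by gcongr
      _ = T ^ k / y ^ 3 * (2 / y ^ 28) := by field_simp
      _ ≤ T ^ k / y ^ 3 * 1 := by
          gcongr
          rw [div_le_one (by positivity)]
          linarith [hyn 28 (by norm_num)]
      _ = b := by rw [mul_one]
  -- U5
  have u5 : mP (Fin k) T (SepA α T ∩ {β | 1 / y ^ 4 < ‖GM N (gab α β) 0 - zr (gab α β)‖}) ≤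
      ENNReal.ofReal b := by
    have hm : AEMeasurable (fun β : Fin k → ℝ => ‖GM N (gab α β) 0 - zr (gab α β)‖)
        ((mP (Fin k) T).restrict (SepA α T)) :=
      (((((GM0_cont N).comp (gab_cont α)).continuousOn).sub
        (zrA_cont α (by linarith))).norm).aemeasurable (SepA_meas α T)
    have hcb := cheb hm (lam := 1 / y ^ 4) (by positivity) (h5 T N hTT5 hN1 P.hNT)
    have e0 : mP (Fin k) T (SepA α T ∩ {β | 1 / y ^ 4 < ‖GM N (gab α β) 0 - zr (gab α β)‖}) ≤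
        ((mP (Fin k) T).restrict (SepA α T))
          {β | 1 / y ^ 4 < ‖GM N (gab α β) 0 - zr (gab α β)‖} := by
      rw [inter_comm]
      exact Measure.le_restrict_apply _ _
    refine e0.trans (hcb.trans (ENNReal.ofReal_le_ofReal ?_))
    calc C5 * Real.log T ^ B5 * T ^ k / N / (1 / y ^ 4) ^ 2
        = (C5 * Real.log T ^ B5) * T ^ k * (1 / N) / (1 / y ^ 4) ^ 2 := by ring
      _ ≤ y * T ^ k * (2 / y ^ 320) / (1 / y ^ 4) ^ 2 := by gcongr
      _ = T ^ k / y ^ 3 * (2 / y ^ 308) := by field_simp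
      _ ≤ T ^ k / y ^ 3 * 1 := by
          gcongr
          rw [div_le_one (by positivity)]
          linarith [hyn 308 (by norm_num)]
      _ = b := by rw [mul_one]
  -- U6
  have u6 : mP (Fin k) T (⋃ π ∈ (Pk k)ᶜ, {β | T / y ^ 8 < ‖IG S (gab α β) π‖}) ≤
      ENNReal.ofReal b := by
    refine (measure_biUnion_finset_le _ _).trans ?_
    calc ∑ π ∈ (Pk k)ᶜ, mP (Fin k) T {β | T / y ^ 8 < ‖IG S (gab α β) π‖}
        ≤ ∑ _π ∈ (Pk k)ᶜ, ENNReal.ofReal (C6 * T ^ (k + 1) * Real.log T ^ 2 / (T / y ^ 8) ^ 2) := by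
          refine Finset.sum_le_sum fun π hπ => ?_
          have hπ' : ∃ j, (π (Sum.inr j)).isLeft = true := by
            rw [Finset.mem_compl, Pk, Finset.mem_filter, not_and] at hπ
            have := hπ (Finset.mem_univ _)
            push Not at this
            obtain ⟨j, hj⟩ := this
            exact ⟨j, by simpa using hj⟩
          exact cheb ((((IG_cont S π).comp (gab_cont α)).norm).aemeasurable) (by positivity)
            (h6 T S π hTT6 hS0 hST hπ')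
      _ = ENNReal.ofReal (((Pk k)ᶜ.card : ℝ) * (C6 * T ^ (k + 1) * Real.log T ^ 2 /
            (T / y ^ 8) ^ 2)) := by
          rw [Finset.sum_const, nsmul_eq_mul, ENNReal.ofReal_mul (by positivity),
            ENNReal.ofReal_natCast]
      _ ≤ ENNReal.ofReal (P0 * (C6 * T ^ (k + 1) * Real.log T ^ 2 / (T / y ^ 8) ^ 2)) := by
          refine ENNReal.ofReal_le_ofReal ?_
          gcongr
          rw [hP0]
          exact_mod_cast Finset.card_le_univ _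
      _ ≤ ENNReal.ofReal b := by
          refine ENNReal.ofReal_le_ofReal ?_
          calc P0 * (C6 * T ^ (k + 1) * Real.log T ^ 2 / (T / y ^ 8) ^ 2)
              = (P0 * C6 * Real.log T ^ 2) * T ^ (k + 1) / (T / y ^ 8) ^ 2 := by ring
            _ ≤ y * T ^ (k + 1) / (T / y ^ 8) ^ 2 := by gcongr
            _ = T ^ k / y ^ 3 * (y ^ 20 / T) := by
                rw [pow_add]; field_simp
            _ ≤ T ^ k / y ^ 3 * 1 := by
                gcongr
                rw [div_le_one hTp]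
                refine le_trans ?_ hyT
                exact pow_le_pow_right₀ hy1 (by norm_num)
            _ = b := by rw [mul_one]
  -- U8
  have u8 : mP (Fin k) T (SepA α T)ᶜ ≤ ENNReal.ofReal b := by
    refine (h8 T hTT8).trans (ENNReal.ofReal_le_ofReal ?_)
    have e : T ^ (k - 1 / 2 : ℝ) = T ^ k / T ^ (1 / 2 : ℝ) := by
      rw [Real.rpow_sub hTp, Real.rpow_natCast]
    rw [e]
    have hyT2 := P.hyT
    calc C8 * (T ^ k / T ^ (1 / 2 : ℝ)) ≤ y * (T ^ k / y ^ 40) := by gcongr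
      _ = T ^ k / y ^ 3 * (1 / y ^ 36) := by field_simp
      _ ≤ T ^ k / y ^ 3 * 1 := by
          gcongr
          rw [div_le_one (by positivity)]
          exact hy1' 36
      _ = b := by rw [mul_one]
  have e2' : T ^ (k - 2 * θ : ℝ) = T ^ k / y ^ 2 := by
    have e3 : y ^ 2 = T ^ (2 * θ) := by
      rw [P.hy, ← Real.rpow_natCast, ← Real.rpow_mul hTp.le]
      congr 1
      push_cast; ring
    rw [Real.rpow_sub hTp, Real.rpow_natCast, e3]
  -- conclusion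
  rw [P.e1, e2']
  refine (measure_mono (BadA_sub hINV ψ P α hZ0 (fun β hβ π => h7 T hTT7 β hβ π) ?_ hS0 hST)).trans ?_
  · refine le_trans (le_of_eq ?_) c7
    rw [hP0]; ring
  have step : ∀ {A B : Set (Fin k → ℝ)} {x z : ℝ}, 0 ≤ x → 0 ≤ z →
      mP (Fin k) T A ≤ ENNReal.ofReal x → mP (Fin k) T B ≤ ENNReal.ofReal z →
      mP (Fin k) T (A ∪ B) ≤ ENNReal.ofReal (x + z) := by
    intro A B x z hx hz hA hB
    rw [ENNReal.ofReal_add hx hz]
    exact (measure_union_le _ _).trans (add_le_add hA hB)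
  have tot := step (by positivity) (by positivity) (step (by positivity) (by positivity)
    (step (by positivity) (by positivity) (step (by positivity) (by positivity) u8 u1) u4) u5) u6
  refine tot.trans (ENNReal.ofReal_le_ofReal ?_)
  have e7 : b + b + b + b + b = 5 * b := by ring
  rw [e7, hb]
  calc 5 * (T ^ k / y ^ 3) ≤ y * (T ^ k / y ^ 3) := by
        gcongr
        linarith
    _ = T ^ k / y ^ 2 := by field_simp

end

end Pool.Agent.TH612.GS
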