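import Pool.Agent.TH612.GS.GF1

set_option autoImplicit false

/-! Project GF: the expansion into characters of `β`. -/

namespace Pool.Agent.TH612.GS

open Complex Filter Topology MeasureTheory Set
open Pool.Agent.TH612.CF
open Pool.Agent.W182.KO hiding ee SS_summable

noncomputable section

variable {k : ℕ}

/-- the box -/
def bx (k X : ℕ) : Finset (Fin k → ℕ) := Fintype.piFinset fun _ : Fin k => Finset.Icc 1 X

lemma bx_pos {X : ℕ} {n : Fin k → ℕ} (hn : n ∈ bx k X) (l : Fin k) : 1 ≤ n l :=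
  (Finset.mem_Icc.1 ((Fintype.mem_piFinset.1 hn) l)).1

lemma bx_le {X : ℕ} {n : Fin k → ℕ} (hn : n ∈ bx k X) (l : Fin k) : n l ≤ X :=
  (Finset.mem_Icc.1 ((Fintype.mem_piFinset.1 hn) l)).2

lemma bx_prod {X : ℕ} {n : Fin k → ℕ} (hn : n ∈ bx k X) : 1 ≤ ∏ l, n l :=
  Nat.one_le_iff_ne_zero.2 (Finset.prod_ne_zero_iff.2 fun l _ => by have := bx_pos hn l; omega)

lemma prod_cpow {m : ℕ} (n : Fin m → ℕ) (s : ℂ) :
    ∏ i, (n i : ℂ) ^ s = ((∏ i, n i : ℕ) : ℂ) ^ s := by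
  induction m with
  | zero => simp
  | succ m ih =>
    rw [Fin.prod_univ_succ, Fin.prod_univ_succ, ih, Nat.cast_mul, natCast_mul_natCast_cpow]

lemma conj_cpow_nat (n : ℕ) (s : ℂ) : (starRingEnd ℂ) ((n : ℂ) ^ s) = (n : ℂ) ^ (starRingEnd ℂ s) := by
  rw [Complex.cpow_conj, Complex.conj_natCast]
  rw [Complex.natCast_arg]
  exact Real.pi_ne_zero.symm

lemma conj_PN (X : ℕ) (u : ℝ) : (starRingEnd ℂ) (PN X u) =
    ∑ n ∈ Finset.Icc 1 X, (n : ℂ) ^ (-(1 / 2) : ℂ) * (n : ℂ) ^ (I * (u : ℂ)) := by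
  unfold PN zN
  rw [map_sum]
  refine Finset.sum_congr rfl fun n hn => ?_
  have hn1 : 1 ≤ n := (Finset.mem_Icc.1 hn).1
  have hn0 : (n : ℂ) ≠ 0 := by exact_mod_cast (by omega : n ≠ 0)
  rw [conj_cpow_nat, ← Complex.cpow_add _ _ hn0]
  congr 1
  simp only [map_neg, map_add, map_mul, map_div₀, map_one, map_ofNat, conj_ofReal, conj_I]
  ring

/-- the product of the conjugated partial sums -/
lemma prod_conj_PN (X : ℕ) (t : ℝ) (β : Fin k → ℝ) :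
    ∏ l, (starRingEnd ℂ) (PN X (t + β l)) =
      ∑ n ∈ bx k X, ((∏ l, n l : ℕ) : ℂ) ^ (-(1 / 2) : ℂ) *
        (∏ l, (n l : ℂ) ^ (I * (β l : ℂ))) * ((∏ l, n l : ℕ) : ℂ) ^ (I * (t : ℂ)) := by
  simp only [conj_PN]
  rw [Finset.prod_univ_sum]
  refine Finset.sum_congr rfl fun n hn => ?_
  rw [← prod_cpow, ← prod_cpow, ← Finset.prod_mul_distrib, ← Finset.prod_mul_distrib]
  refine Finset.prod_congr rfl fun l _ => ?_
  have hn1 : 1 ≤ n l := bx_pos hn l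
  have hn0 : (n l : ℂ) ≠ 0 := by exact_mod_cast (by omega : n l ≠ 0)
  have e : (n l : ℂ) ^ (I * ((t + β l : ℝ) : ℂ)) = (n l : ℂ) ^ (I * (β l : ℂ)) *
      (n l : ℂ) ^ (I * (t : ℂ)) := by
    rw [← Complex.cpow_add _ _ hn0]
    congr 1
    push_cast
    ring
  rw [e]
  ring

lemma AA_cont (α : Fin k → ℝ) : Continuous (AA α) := by
  unfold AA
  exact continuous_finsetProd _ fun j _ => z_cont.comp (by fun_prop)

lemma int_expand (α : Fin k → ℝ) (X : ℕ) (S : ℝ) (β : Fin k → ℝ) :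
    ∫ t in (0:ℝ)..S, AA α t * ∏ l, (starRingEnd ℂ) (PN X (t + β l)) =
      ∑ n ∈ bx k X, (((∏ l, n l : ℕ) : ℂ) ^ (-(1 / 2) : ℂ) * cI α S (∏ l, n l)) *
        ∏ l, (n l : ℂ) ^ (I * (β l : ℂ)) := by
  simp only [prod_conj_PN, Finset.mul_sum]
  rw [intervalIntegral.integral_finsetSum]
  · refine Finset.sum_congr rfl fun n _ => ?_
    unfold cI
    rw [← intervalIntegral.integral_const_mul, ← intervalIntegral.integral_mul_const]
    refine intervalIntegral.integral_congr fun t _ => ?_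
    ring
  · intro n hn
    refine Continuous.intervalIntegrable ?_ _ _
    have h1 := bx_prod hn
    have hn0 : ((∏ l, n l : ℕ) : ℂ) ≠ 0 := by exact_mod_cast (by omega : (∏ l, n l) ≠ 0)
    refine (AA_cont α).mul (continuous_const.mul ?_)
    exact Continuous.const_cpow (by fun_prop) (Or.inl hn0)

/-- the cut-off -/
def cu (ψ : ℝ → ℝ) (M m : ℕ) : ℝ := ψ (Real.log m / (Real.log M / 2))

lemma cu_zero {ψ : ℝ → ℝ} (hψ : Cut ψ) {M m : ℕ} (hM : 2 ≤ M) (hm : M ≤ m) : cu ψ M m = 0 := by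
  unfold cu
  refine hψ.2.2.2 _ ?_
  have hM1 : (1:ℝ) < M := by exact_mod_cast (by omega : 1 < M)
  have h1 : 0 < Real.log M := Real.log_pos hM1
  have h2 : Real.log M ≤ Real.log m := Real.log_le_log (by linarith) (by exact_mod_cast hm)
  rw [le_div_iff₀ (by linarith)]
  linarith

lemma cu_one {ψ : ℝ → ℝ} (hψ : Cut ψ) {M m : ℕ} (hM : 2 ≤ M) (hm1 : 1 ≤ m)
    (hm : (m : ℝ) < (M : ℝ) ^ (1 / 4 : ℝ)) : cu ψ M m = 1 := by
  unfold cu
  refine hψ.2.2.1 _ ?_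
  have hM1 : (1:ℝ) < M := by exact_mod_cast (by omega : 1 < M)
  have h1 : 0 < Real.log M := Real.log_pos hM1
  have hm0 : (0:ℝ) < m := by exact_mod_cast (by omega : 0 < m)
  have h2 : Real.log m ≤ 1 / 4 * Real.log M := by
    rw [← Real.log_rpow (by linarith)]
    exact Real.log_le_log hm0 hm.le
  rw [div_le_iff₀ (by linarith)]
  linarith

lemma fiber_eq {X M m : ℕ} (hm : m ∈ Finset.Icc 1 M) (hMX : M ≤ X) :
    ((bx k X).filter fun n => ∏ l, n l ≤ M).filter (fun n => ∏ l, n l = m) =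
      Nat.finMulAntidiag k m := by
  obtain ⟨hm1, hmM⟩ := Finset.mem_Icc.1 hm
  ext n
  simp only [Finset.mem_filter, Nat.mem_finMulAntidiag]
  constructor
  · rintro ⟨_, h2⟩
    exact ⟨h2, by omega⟩
  · rintro ⟨h1, h2⟩
    refine ⟨⟨?_, by omega⟩, h1⟩
    unfold bx
    rw [Fintype.mem_piFinset]
    intro l
    have hd : n l ∣ m := by rw [← h1]; exact Finset.dvd_prod_of_mem n (Finset.mem_univ l)
    have hle := Nat.le_of_dvd (by omega) hd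
    have hpos := Nat.pos_of_dvd_of_pos hd (by omega)
    exact Finset.mem_Icc.2 ⟨hpos, by omega⟩

lemma SP_expand {ψ : ℝ → ℝ} (hψ : Cut ψ) (α β : Fin k → ℝ) {M X : ℕ} (hM : 2 ≤ M) (hMX : M ≤ X) :
    SP ψ M (gab α β) = ∑ n ∈ bx k X, (tau (fun j => -(I * (α j : ℂ))) (∏ l, n l) *
      ((∏ l, n l : ℕ) : ℂ)⁻¹ * (cu ψ M (∏ l, n l) : ℂ)) * ∏ l, (n l : ℂ) ^ (I * (β l : ℂ)) := by
  have h1 : ∑ n ∈ bx k X, (tau (fun j => -(I * (α j : ℂ))) (∏ l, n l) *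
      ((∏ l, n l : ℕ) : ℂ)⁻¹ * (cu ψ M (∏ l, n l) : ℂ)) * ∏ l, (n l : ℂ) ^ (I * (β l : ℂ)) =
      ∑ n ∈ (bx k X).filter (fun n => ∏ l, n l ≤ M), (tau (fun j => -(I * (α j : ℂ))) (∏ l, n l) *
      ((∏ l, n l : ℕ) : ℂ)⁻¹ * (cu ψ M (∏ l, n l) : ℂ)) * ∏ l, (n l : ℂ) ^ (I * (β l : ℂ)) := by
    rw [Finset.sum_filter]
    refine Finset.sum_congr rfl fun n _ => ?_
    split_ifs with h
    · rfl
    · rw [cu_zero hψ hM (by omega)]
      simp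
  rw [h1, ← Finset.sum_fiberwise_of_maps_to (g := fun n : Fin k → ℕ => ∏ l, n l)
    (t := Finset.Icc 1 M) (fun n hn => ?_)]
  · unfold SP
    refine Finset.sum_congr rfl fun m hm => ?_
    rw [fiber_eq hm hMX]
    have h2 : ∀ n ∈ Nat.finMulAntidiag k m, (tau (fun j => -(I * (α j : ℂ))) (∏ l, n l) *
      ((∏ l, n l : ℕ) : ℂ)⁻¹ * (cu ψ M (∏ l, n l) : ℂ)) * ∏ l, (n l : ℂ) ^ (I * (β l : ℂ)) =
      (tau (fun j => -(I * (α j : ℂ))) m * (m : ℂ)⁻¹ * (cu ψ M m : ℂ)) *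
        ∏ l, (n l : ℂ) ^ (I * (β l : ℂ)) := by
      intro n hn
      rw [(Nat.mem_finMulAntidiag.1 hn).1]
    rw [Finset.sum_congr rfl h2, ← Finset.mul_sum]
    unfold dr dg gab cu
    simp only [Sum.elim_inl, Sum.elim_inr]
    have h3 : tau (fun j => I * (β j : ℂ)) m = ∑ n ∈ Nat.finMulAntidiag k m,
        ∏ l, (n l : ℂ) ^ (I * (β l : ℂ)) := rfl
    rw [h3]
    ring
  · obtain ⟨h2, h3⟩ := Finset.mem_filter.1 hn
    exact Finset.mem_Icc.2 ⟨bx_prod h2, h3⟩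

/-- the difference of the twisted integral and its main term -/
def gA (α : Fin k → ℝ) (ψ : ℝ → ℝ) (M : ℕ) (S : ℝ) (m : ℕ) : ℂ :=
  cI α S m - S * (tau (fun j => -(I * (α j : ℂ))) m * (m : ℂ) ^ (-(1 / 2) : ℂ)) * (cu ψ M m : ℂ)

lemma E2_expand {ψ : ℝ → ℝ} (hψ : Cut ψ) (α β : Fin k → ℝ) {M X : ℕ} (hM : 2 ≤ M) (hMX : M ≤ X)
    (S : ℝ) : (∫ t in (0:ℝ)..S, AA α t * ∏ l, (starRingEnd ℂ) (PN X (t + β l))) -
      S * SP ψ M (gab α β) =
    ∑ n ∈ bx k X, (((∏ l, n l : ℕ) : ℂ) ^ (-(1 / 2) : ℂ) * gA α ψ M S (∏ l, n l)) *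
        ∏ l, (n l : ℂ) ^ (I * (β l : ℂ)) := by
  rw [int_expand, SP_expand hψ α β hM hMX, Finset.mul_sum, ← Finset.sum_sub_distrib]
  refine Finset.sum_congr rfl fun n hn => ?_
  have h1 := bx_prod hn
  have hn0 : ((∏ l, n l : ℕ) : ℂ) ≠ 0 := by exact_mod_cast (by omega : (∏ l, n l) ≠ 0)
  have h2 : ((∏ l, n l : ℕ) : ℂ)⁻¹ = ((∏ l, n l : ℕ) : ℂ) ^ (-(1 / 2) : ℂ) *
      ((∏ l, n l : ℕ) : ℂ) ^ (-(1 / 2) : ℂ) := by
    rw [← Complex.cpow_add _ _ hn0, ← Complex.cpow_neg_one]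
    congr 1; norm_num
  unfold gA
  rw [h2]
  ring

lemma norm_half {m : ℕ} (hm : 1 ≤ m) : ‖(m : ℂ) ^ (-(1 / 2) : ℂ)‖ ^ 2 = (m : ℝ)⁻¹ := by
  have hm0 : (0:ℝ) < m := by exact_mod_cast (by omega : 0 < m)
  rw [Complex.norm_natCast_cpow_of_pos (by omega)]
  have : (-(1 / 2) : ℂ).re = -(1 / 2) := by norm_num
  rw [this, ← Real.rpow_natCast, ← Real.rpow_mul hm0.le, ← Real.rpow_neg_one]
  norm_num

lemma Zg_AA (α β : Fin k → ℝ) (t : ℝ) : Zg (gab α β) t =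
    AA α t * ∏ l, (starRingEnd ℂ) (z (t + β l)) := by
  rw [Zg_fz, Finset.prod_mul_distrib]
  rfl

lemma sum_inv_box (k X : ℕ) :
    ∑ n ∈ bx k X, (((∏ l, n l : ℕ) : ℝ))⁻¹ ≤ (1 + Real.log X) ^ k := by
  have h1 : ∀ n ∈ bx k X, (((∏ l, n l : ℕ) : ℝ))⁻¹ = ∏ l, ((n l : ℕ) : ℝ)⁻¹ := by
    intro n _
    push_cast
    rw [Finset.prod_inv_distrib]
  rw [Finset.sum_congr rfl h1]
  unfold bx
  rw [← Finset.prod_univ_sum (fun _ : Fin k => Finset.Icc 1 X) (fun _ m => ((m : ℕ) : ℝ)⁻¹),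
    Finset.prod_const, Finset.card_univ, Fintype.card_fin]
  refine pow_le_pow_left₀ (Finset.sum_nonneg fun m _ => by positivity) ?_ k
  have := harmonic_le_one_add_log X
  rw [harmonic_eq_sum_Icc] at this
  push_cast at this
  exact this

end

end Pool.Agent.TH612.GS
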