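import Pool.Agent.TH612.CF.Mn

set_option autoImplicit false

/-!
Project GS: for almost all shift vectors in `[0,T]^{2k}` the shifted moments of zeta of order `2k`
follow the recipe with a power saving. Statements of the parts.
-/

namespace Pool.Agent.TH612.GS

open Complex Filter Topology MeasureTheory Set
open Pool.Agent.TH612.CF
open Pool.Agent.W182.KO hiding ee SS_summable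
open scoped ContDiff

noncomputable section

/-- product measure on the cube `[0,T]^ι` -/
def mP (ι : Type) [Fintype ι] (T : ℝ) : Measure (ι → ℝ) :=
  Measure.pi fun _ => volume.restrict (Icc 0 T)

/-- `ζ(1/2 + iu)` -/
def z (u : ℝ) : ℂ := riemannZeta (1 / 2 + I * u)

/-- the Dirichlet polynomial `∑_{n ≤ N} n^{-s}` -/
def zN (N : ℕ) (s : ℂ) : ℂ := ∑ n ∈ Finset.Icc 1 N, (n : ℂ) ^ (-s)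

/-- the Dirichlet polynomial on the critical line -/
def PN (N : ℕ) (u : ℝ) : ℂ := zN N (1 / 2 + I * u)

/-- MV: mean value theorem (weights `T + n`) -/
def S_MV : Prop := ∃ C : ℝ, 0 < C ∧ ∀ (T : ℝ) (X : ℕ) (a : ℕ → ℂ), 1 ≤ T → (X : ℝ) ≤ T ^ 2 →
  ∫ u in (0:ℝ)..(2 * T), ‖∑ n ∈ Finset.Icc 1 X, a n * (n : ℂ) ^ (-(I * u))‖ ^ 2 ≤
    C * ∑ n ∈ Finset.Icc 1 X, (T + n) * ‖a n‖ ^ 2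

/-- MVD: the dual of MV -/
def S_MVD : Prop := ∃ C : ℝ, 0 < C ∧ ∀ (T S : ℝ) (X : ℕ) (R : ℝ → ℂ), 1 ≤ T → 0 ≤ S → S ≤ T →
  (X : ℝ) ≤ T ^ 2 → Continuous R →
  ∑ n ∈ Finset.Icc 1 X, ‖∫ t in (0:ℝ)..S, R t * (n : ℂ) ^ (-(I * t))‖ ^ 2 / (T + n) ≤
    C * ∫ t in (0:ℝ)..S, ‖R t‖ ^ 2

/-- AP: approximation of zeta in `L¹` -/
def S_AP : Prop := ∃ C T₀ : ℝ, 0 < C ∧ 1 ≤ T₀ ∧ ∀ (T : ℝ) (X : ℕ), T₀ ≤ T →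
  T ^ (5 / 4 : ℝ) ≤ X → (X : ℝ) ≤ 2 * T ^ (5 / 4 : ℝ) →
  ∫ u in (0:ℝ)..(2 * T), ‖z u - PN X u‖ ≤ C * T ^ (3 / 4 : ℝ)

/-- OP: zeta minus a short Dirichlet polynomial, as a convolution operator -/
def S_OP : Prop := ∃ C T₀ : ℝ, 0 < C ∧ 1 ≤ T₀ ∧ ∀ (T S : ℝ) (N : ℕ) (R : ℝ → ℂ), T₀ ≤ T →
  0 ≤ S → S ≤ T → 1 ≤ N → (N : ℝ) ≤ T ^ (1 / 2 : ℝ) → Continuous R →
  ∫ y in (0:ℝ)..T, ‖∫ t in (0:ℝ)..S, (z (t + y) - PN N (t + y)) * R t‖ ^ 2 ≤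
    C * T ^ 2 / N * ∫ t in (0:ℝ)..S, ‖R t‖ ^ 2

/-- SM: second moment of zeta -/
def S_SM : Prop := ∃ C T₀ : ℝ, 0 < C ∧ 2 ≤ T₀ ∧ ∀ T : ℝ, T₀ ≤ T →
  ∫ u in (0:ℝ)..(2 * T), ‖z u‖ ^ 2 ≤ C * T * Real.log T

/-- SP: second moment of the short Dirichlet polynomials -/
def S_SP : Prop := ∃ C T₀ : ℝ, 0 < C ∧ 2 ≤ T₀ ∧ ∀ (T : ℝ) (N : ℕ), T₀ ≤ T → 1 ≤ N → (N : ℝ) ≤ T →
  ∫ u in (0:ℝ)..(2 * T), ‖PN N u‖ ^ 2 ≤ C * T * Real.log T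

/-- REP: replacement of all the factors -/
def S_REP : Prop := ∀ (ι : Type) [Fintype ι] (f g : ι → ℝ → ℂ) (T S K V : ℝ), 0 ≤ S → S ≤ T →
  0 ≤ K → 0 ≤ V → (∀ i, Continuous (f i)) → (∀ i, Continuous (g i)) →
  (∀ i, ∀ R : ℝ → ℂ, Continuous R →
    ∫ y in (0:ℝ)..T, ‖∫ t in (0:ℝ)..S, (f i (t + y) - g i (t + y)) * R t‖ ^ 2 ≤
      K * ∫ t in (0:ℝ)..S, ‖R t‖ ^ 2) →
  (∀ i, ∀ t ∈ Icc 0 S, ∫ y in (0:ℝ)..T, ‖f i (t + y)‖ ^ 2 ≤ V) →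
  (∀ i, ∀ t ∈ Icc 0 S, ∫ y in (0:ℝ)..T, ‖g i (t + y)‖ ^ 2 ≤ V) →
  ∫⁻ γ, ENNReal.ofReal (‖∫ t in (0:ℝ)..S, (∏ i, f i (t + γ i) - ∏ i, g i (t + γ i))‖ ^ 2)
    ∂(mP ι T) ≤ ENNReal.ofReal (4 ^ Fintype.card ι * K * V ^ (Fintype.card ι - 1) * S)

/-- REP2: the mean square of the product over a short interval of `t` -/
def S_REP2 : Prop := ∀ (ι : Type) [Fintype ι] (f : ι → ℝ → ℂ) (T A B V : ℝ), 0 ≤ A → A ≤ B →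
  B ≤ T → 0 ≤ V → (∀ i, Continuous (f i)) →
  (∀ i, ∀ t ∈ Icc 0 T, ∫ y in (0:ℝ)..T, ‖f i (t + y)‖ ^ 2 ≤ V) →
  ∫⁻ γ, ENNReal.ofReal ((∫ t in A..B, ‖∏ i, f i (t + γ i)‖) ^ 2) ∂(mP ι T) ≤
    ENNReal.ofReal ((B - A) ^ 2 * V ^ Fintype.card ι)

variable {k : ℕ}

/-- tuples of natural numbers in `[1,N]` -/
def tup (k N : ℕ) : Finset (Fin k ⊕ Fin k → ℕ) := Fintype.piFinset fun _ => Finset.Icc 1 N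

/-- characters -/
def ch (ν : Fin k ⊕ Fin k → ℕ) (γ : Fin k ⊕ Fin k → ℝ) : ℂ :=
  (∏ j, (ν (Sum.inl j) : ℂ) ^ (-(I * γ (Sum.inl j)))) * ∏ j, (ν (Sum.inr j) : ℂ) ^ (I * γ (Sum.inr j))

/-- weights -/
def wt (ν : Fin k ⊕ Fin k → ℕ) : ℝ := (∏ i, (ν i : ℝ)) ^ (-(1 / 2 : ℝ))

open Classical in
/-- the diagonal sum -/
def SN (N : ℕ) (γ : Fin k ⊕ Fin k → ℝ) : ℂ :=
  ∑ ν ∈ tup k N, if ∏ j, ν (Sum.inl j) = ∏ j, ν (Sum.inr j) then (wt ν : ℂ) * ch ν γ else 0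

/-- DIAG: the diagonal terms dominate for short polynomials -/
def S_DIAG : Prop := ∀ (k N : ℕ) (S : ℝ) (γ : Fin k ⊕ Fin k → ℝ), 1 ≤ N → 0 ≤ S →
  ‖(∫ t in (0:ℝ)..S, ∏ j : Fin k, PN N (t + γ (Sum.inl j)) *
    (starRingEnd ℂ) (PN N (t + γ (Sum.inr j)))) - S * SN N γ‖ ≤ 2 * (N : ℝ) ^ (3 * k)

/-- FL2: mean squares of finite sums of characters -/
def S_FL2 : Prop := ∀ (k N : ℕ) (T : ℝ) (c : (Fin k ⊕ Fin k → ℕ) → ℂ), 1 ≤ N → 0 < T →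
  ∫⁻ γ, ENNReal.ofReal (‖∑ ν ∈ tup k N, c ν * ch ν γ‖ ^ 2) ∂(mP (Fin k ⊕ Fin k) T) ≤
    ENNReal.ofReal (T ^ (2 * k) * ∑ ν ∈ tup k N, ‖c ν‖ ^ 2 +
      2 * N * T ^ (2 * k - 1) * (∑ ν ∈ tup k N, ‖c ν‖) ^ 2)

/-- smooth cut-offs -/
def Cut (ψ : ℝ → ℝ) : Prop := ContDiff ℝ ∞ ψ ∧ (∀ x, 0 ≤ ψ x ∧ ψ x ≤ 1) ∧
  (∀ x, x ≤ 1 / 2 → ψ x = 1) ∧ ∀ x, 1 ≤ x → ψ x = 0

/-- the coefficients of `ζ_{(α,β)}` for real shifts -/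
def dr (γ : Fin k ⊕ Fin k → ℝ) (n : ℕ) : ℂ :=
  dg (fun j => (γ (Sum.inl j) : ℂ)) (fun j => (γ (Sum.inr j) : ℂ)) n

/-- smoothed diagonal sums, `L = (log M) / 2` -/
def SP (ψ : ℝ → ℝ) (M : ℕ) (γ : Fin k ⊕ Fin k → ℝ) : ℂ :=
  ∑ n ∈ Finset.Icc 1 M, dr γ n * (ψ (Real.log n / (Real.log M / 2)) : ℂ)

/-- SS: from the sharp to the smooth sum -/
def S_SS : Prop := ∀ (k : ℕ) (ψ : ℝ → ℝ), Cut ψ → ∃ C : ℝ, 0 < C ∧ ∀ (T : ℝ) (N : ℕ), 2 ≤ N →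
  2 * (N : ℝ) ^ (4 * k + 2) ≤ T →
  ∫⁻ γ, ENNReal.ofReal (‖SN N γ - SP ψ N γ‖ ^ 2) ∂(mP (Fin k ⊕ Fin k) T) ≤
    ENNReal.ofReal (C * T ^ (2 * k) * (N : ℝ) ^ (-(1 / 8) : ℝ))

/-- the arithmetic factor times products of short Dirichlet polynomials -/
def GM (M : ℕ) (γ : Fin k ⊕ Fin k → ℝ) (s : ℂ) : ℂ :=
  FH (fun j => (γ (Sum.inl j) : ℂ) - I * s / 2) (fun j => (γ (Sum.inr j) : ℂ) + I * s / 2) *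
    ∏ j : Fin k, ∏ l : Fin k, zN M (1 + s + I * (γ (Sum.inl j) - γ (Sum.inr l)))

/-- CONT: the smoothed sum by a contour shift -/
def S_CONT : Prop := ∀ (k : ℕ) (ψ : ℝ → ℝ), Cut ψ → ∃ (C : ℝ) (M₀ : ℕ), 0 < C ∧ 2 ≤ M₀ ∧
  ∀ (M : ℕ) (γ : Fin k ⊕ Fin k → ℝ), M₀ ≤ M →
  ‖SP ψ M γ - GM M γ 0‖ ≤ C * (M : ℝ) ^ (-(1 / 16) : ℝ) *
    (1 + ∫ y : ℝ, (1 + |y|) ^ (-(2 : ℝ)) * ‖GM M γ (-(1 / 4) + I * (y / (Real.log M / 2)))‖)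

/-- GL2: mean square of `GM` to the left -/
def S_GL2 : Prop := ∀ k : ℕ, ∃ C : ℝ, 0 < C ∧ ∀ (T : ℝ) (M : ℕ) (v : ℝ), 1 ≤ M →
  2 * (M : ℝ) ^ (3 * k ^ 2) ≤ T → 1 ≤ T →
  ∫⁻ γ, ENNReal.ofReal (‖GM M γ (-(1 / 4) + I * v)‖ ^ 2) ∂(mP (Fin k ⊕ Fin k) T) ≤
    ENNReal.ofReal (C * T ^ (2 * k))

/-- ONE: the zeta function on the 1-line -/
def S_ONE : Prop := ∃ C T₀ : ℝ, 0 < C ∧ 3 ≤ T₀ ∧ ∀ (T : ℝ) (M : ℕ), T₀ ≤ T → 1 ≤ M →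
  (M : ℝ) ≤ T ^ (1 / 2 : ℝ) →
  (∀ v : ℝ, 1 ≤ |v| → |v| ≤ T → ‖riemannZeta (1 + I * v)‖ ≤ C * Real.log T) ∧
  ∫ v in (T ^ (1 / 2 : ℝ))..T, ‖riemannZeta (1 + I * v) - zN M (1 + I * v)‖ ^ 2 ≤ C * T / M

/-- `zab` for real shifts -/
def zr (γ : Fin k ⊕ Fin k → ℝ) : ℂ :=
  zab (fun j => (γ (Sum.inl j) : ℂ)) (fun j => (γ (Sum.inr j) : ℂ))

/-- the separated shift vectors -/
def Sep (k : ℕ) (T : ℝ) : Set (Fin k ⊕ Fin k → ℝ) :=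
  {γ | (∀ i, 0 ≤ γ i ∧ γ i ≤ T) ∧ ∀ p q, p ≠ q → T ^ (1 / 2 : ℝ) ≤ |γ p - γ q|}

/-- ZM: from `GM M γ 0` to `zr γ` -/
def S_ZM : Prop := ∀ k : ℕ, ∃ (C T₀ : ℝ) (B : ℕ), 0 < C ∧ 3 ≤ T₀ ∧ ∀ (T : ℝ) (M : ℕ), T₀ ≤ T →
  1 ≤ M → (M : ℝ) ≤ T ^ (1 / 2 : ℝ) →
  ∫⁻ γ in Sep k T, ENNReal.ofReal (‖GM M γ 0 - zr γ‖ ^ 2) ∂(mP (Fin k ⊕ Fin k) T) ≤
    ENNReal.ofReal (C * Real.log T ^ B * T ^ (2 * k) / M)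

/-- CHI: the factor of the functional equation, as a convolution operator -/
def S_CHI : Prop := ∃ C T₀ : ℝ, 0 < C ∧ 3 ≤ T₀ ∧ ∀ (T S : ℝ) (R : ℝ → ℂ), T₀ ≤ T →
  0 ≤ S → S ≤ T → Continuous R → (∀ t, ‖R t‖ ≤ 1) →
  ∫ y in (0:ℝ)..T, ‖∫ t in (0:ℝ)..S, chi (1 / 2 + I * (t + y)) * R t‖ ^ 2 ≤
    C * T ^ 2 * Real.log T ^ 2

/-- SW: the terms with at least one swap are small on average -/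
def S_SW : Prop := ∀ k : ℕ, ∃ C T₀ : ℝ, 0 < C ∧ 3 ≤ T₀ ∧ ∀ (T S : ℝ)
  (π : Equiv.Perm (Fin k ⊕ Fin k)), T₀ ≤ T → 0 ≤ S → S ≤ T → (∃ j, (π (Sum.inr j)).isLeft = true) →
  ∫⁻ γ, ENNReal.ofReal (‖∫ t in (0:ℝ)..S, GG t (fun i => (γ i : ℂ)) π‖ ^ 2)
    ∂(mP (Fin k ⊕ Fin k) T) ≤ ENNReal.ofReal (C * T ^ (2 * k + 1) * Real.log T ^ 2)

/-- INV: the diagonal term does not depend on the order of the shifts -/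
def S_INV : Prop := ∀ (k : ℕ) (γ : Fin k ⊕ Fin k → ℝ) (π : Equiv.Perm (Fin k ⊕ Fin k)),
  (∀ j, (π (Sum.inr j)).isLeft = false) →
  zab (fun j => (γ (π (Sum.inl j)) : ℂ)) (fun j => (γ (π (Sum.inr j)) : ℂ)) = zr γ ∧
  ∀ t : ℝ, GG t (fun i => (γ i : ℂ)) π = 1

end

end Pool.Agent.TH612.GS
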